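import Mathlib

/-! Greedy doubling: a subspace all of whose cosets meet a given dense set. -/

open Finset

namespace Pool.Agent.Lib.MP_f8d60a_co

section greedy

variable {E : Type*} [AddCommGroup E] [Module (ZMod 2) E] [Fintype E] [DecidableEq E]

lemma add_self' (x : E) : x + x = 0 := ZModModule.add_self x

open Classical in
/-- points not covered by `W + V` -/
noncomputable def unc (W : Finset E) (V : Submodule (ZMod 2) E) : Finset E :=
  univ.filter fun x => ∀ w ∈ W, x - w ∉ V

lemma mem_unc {W : Finset E} {V : Submodule (ZMod 2) E} {x : E} :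
    x ∈ unc W V ↔ ∀ w ∈ W, x - w ∉ V := by
  simp [unc]

lemma unc_add {W : Finset E} {V : Submodule (ZMod 2) E} {x y : E} (hx : x ∈ unc W V)
    (hy : y ∈ V) : x + y ∈ unc W V := by
  rw [mem_unc] at hx ⊢
  intro w hw h
  apply hx w hw
  have : x - w = (x + y - w) - y := by abel
  rw [this]; exact V.sub_mem h hy

/-- adjoin one vector -/
def adj (V : Submodule (ZMod 2) E) (y : E) : Submodule (ZMod 2) E where
  carrier := {x | x ∈ V ∨ x + y ∈ V}
  zero_mem' := Or.inl V.zero_mem
  add_mem' := by
    rintro a b (ha | ha) (hb | hb)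
    · exact Or.inl (V.add_mem ha hb)
    · right
      have : a + b + y = a + (b + y) := by abel
      rw [this]; exact V.add_mem ha hb
    · right
      have : a + b + y = (a + y) + b := by abel
      rw [this]; exact V.add_mem ha hb
    · left
      have : a + b = (a + y) + (b + y) := by
        have h := add_self' y
        calc a + b = a + b + (y + y) := by rw [h, add_zero]
          _ = _ := by abel
      rw [this]; exact V.add_mem ha hb
  smul_mem' := by
    intro c x hx
    have hc : c = 0 ∨ c = 1 := by
      fin_cases c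
      · left; rfl
      · right; rfl
    rcases hc with rfl | rfl
    · rw [zero_smul]; exact Or.inl V.zero_mem
    · rw [one_smul]; exact hx

lemma mem_adj {V : Submodule (ZMod 2) E} {y x : E} : x ∈ adj V y ↔ x ∈ V ∨ x + y ∈ V := Iff.rfl

lemma card_adj {V : Submodule (ZMod 2) E} {y : E} (hy : y ∉ V) :
    Nat.card (adj V y) = 2 * Nat.card V := by
  classical
  have h : ∀ U : Submodule (ZMod 2) E, Nat.card U = (univ.filter fun x => x ∈ U).card := by
    intro U
    rw [Nat.card_eq_fintype_card, Fintype.card_subtype]
  rw [h, h]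
  have e1 : (univ.filter fun x => x ∈ adj V y)
      = (univ.filter fun x => x ∈ V) ∪ (univ.filter fun x => x + y ∈ V) := by
    ext x; simp [mem_adj]
  have hd : Disjoint (univ.filter fun x => x ∈ V) (univ.filter fun x => x + y ∈ V) := by
    rw [Finset.disjoint_left]
    intro x hx hx'
    simp only [mem_filter, mem_univ, true_and] at hx hx'
    apply hy
    have : y = (x + y) - x := by abel
    rw [this]; exact V.sub_mem hx' hx
  have e2 : (univ.filter fun x => x + y ∈ V).card = (univ.filter fun x => x ∈ V).card := by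
    refine Finset.card_bij (fun x _ => x + y) ?_ ?_ ?_
    · intro x hx; simpa using hx
    · intro a _ b _ hab; exact add_right_cancel hab
    · intro x hx
      refine ⟨x - y, ?_, sub_add_cancel x y⟩
      simpa using hx
  rw [e1, card_union_of_disjoint hd, e2]; ring

lemma unc_adj (W : Finset E) (V : Submodule (ZMod 2) E) (y : E) :
    unc W (adj V y) = (unc W V).filter fun x => x + y ∈ unc W V := by
  ext x
  rw [mem_filter, mem_unc, mem_unc, mem_unc]
  constructor
  · intro h
    constructor
    · intro w hw h2; exact h w hw (Or.inl h2)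
    · intro w hw h2
      apply h w hw
      right
      have : x - w + y = x + y - w := by abel
      rw [this]; exact h2
  · rintro ⟨h1, h2⟩ w hw h3
    rcases h3 with h3 | h3
    · exact h1 w hw h3
    · apply h2 w hw
      have : x - w + y = x + y - w := by abel
      rw [← this]; exact h3

lemma greedy_step (W : Finset E) (V : Submodule (ZMod 2) E) (hV : Nat.card V < Fintype.card E) :
    ∃ y, y ∉ V ∧ (unc W (adj V y)).card * Fintype.card E ≤ (unc W V).card ^ 2 := by
  classical
  by_contra hcon
  push Not at hcon
  set U := unc W V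
  have hsum : ∑ y : E, (U.filter fun x => x + y ∈ U).card = U.card ^ 2 := by
    simp_rw [Finset.card_filter]
    rw [Finset.sum_comm, sq, Finset.card_eq_sum_ones U, Finset.sum_mul]
    refine Finset.sum_congr rfl fun x _ => ?_
    rw [one_mul, ← Finset.card_filter, ← Finset.card_eq_sum_ones]
    refine Finset.card_bij (fun y _ => x + y) ?_ ?_ ?_
    · intro y hy; simpa using hy
    · intro a _ b _ hab; exact add_left_cancel hab
    · intro z hz
      refine ⟨z - x, ?_, by abel⟩
      simp only [mem_filter, mem_univ, true_and]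
      rwa [add_sub_cancel]
  have hVc : (univ.filter fun x => x ∈ V).card = Nat.card V := by
    rw [Nat.card_eq_fintype_card, Fintype.card_subtype]
  have hsplit := Finset.sum_filter_add_sum_filter_not (univ : Finset E) (fun y => y ∈ V)
    (fun y => (U.filter fun x => x + y ∈ U).card)
  have hin : ∑ y ∈ univ.filter (fun y => y ∈ V), (U.filter fun x => x + y ∈ U).card
      = Nat.card V * U.card := by
    rw [← hVc, Finset.card_eq_sum_ones (univ.filter fun x => x ∈ V), Finset.sum_mul]
    refine Finset.sum_congr rfl fun y hy => ?_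
    rw [one_mul]
    congr 1
    rw [Finset.filter_eq_self]
    intro x hx
    exact unc_add hx (by simpa using hy)
  have hne : (univ.filter fun y : E => ¬ y ∈ V).Nonempty := by
    rw [Finset.nonempty_iff_ne_empty]
    intro h0
    have h1 := Finset.card_filter_add_card_filter_not (s := (univ : Finset E)) (fun y => y ∈ V)
    rw [h0, Finset.card_empty, hVc, Finset.card_univ] at h1
    omega
  have hcn : (univ.filter fun y : E => ¬ y ∈ V).card + Nat.card V = Fintype.card E := by
    have h1 := Finset.card_filter_add_card_filter_not (s := (univ : Finset E)) (fun y => y ∈ V)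
    rw [hVc, Finset.card_univ] at h1
    omega
  have hout : (univ.filter fun y : E => ¬ y ∈ V).card * U.card^2
      < ∑ y ∈ univ.filter (fun y => ¬ y ∈ V), (U.filter fun x => x + y ∈ U).card
        * Fintype.card E := by
    rw [Finset.card_eq_sum_ones (univ.filter fun x => ¬ x ∈ V), Finset.sum_mul]
    apply Finset.sum_lt_sum_of_nonempty hne
    intro y hy
    rw [one_mul, ← unc_adj]
    exact hcon y (by simpa using hy)
  rw [← Finset.sum_mul] at hout
  set A := ∑ y ∈ univ.filter (fun y => ¬ y ∈ V), (U.filter fun x => x + y ∈ U).card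
  rw [hin] at hsplit
  have hUE : U.card ≤ Fintype.card E := Finset.card_le_univ U
  set c := (univ.filter fun y : E => ¬ y ∈ V).card
  have h5 : Nat.card V * U.card + A = U.card^2 := by
    rw [hsplit]; exact hsum
  have h6 : (Nat.card V * U.card + A) * Fintype.card E = U.card^2 * (c + Nat.card V) := by
    rw [h5, hcn]
  have h7 : Nat.card V * U.card * U.card ≤ Nat.card V * U.card * Fintype.card E :=
    Nat.mul_le_mul_left _ hUE
  nlinarith

/-- iterate the doubling step -/
lemma greedy_iter (W : Finset E) (k : ℕ) (hk : 2^k ≤ Fintype.card E) :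
    ∃ V : Submodule (ZMod 2) E, Nat.card V = 2^k ∧
      ((unc W V).card : ℝ) ≤ Fintype.card E * (1 - (W.card : ℝ)/Fintype.card E)^(2^k) := by
  classical
  have hE : (0:ℝ) < Fintype.card E := by exact_mod_cast Fintype.card_pos
  induction k with
  | zero =>
    refine ⟨⊥, by simp, ?_⟩
    have h1 : unc W (⊥ : Submodule (ZMod 2) E) = univ \ W := by
      ext x
      rw [mem_unc, mem_sdiff]
      simp only [Submodule.mem_bot, sub_eq_zero, mem_univ, true_and]
      constructor
      · intro h hx; exact h x hx rfl
      · intro h w hw hxw; exact h (hxw ▸ hw)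
    rw [h1, Finset.card_sdiff_of_subset (Finset.subset_univ W), Finset.card_univ,
      Nat.cast_sub (Finset.card_le_univ W)]
    rw [pow_zero, pow_one, mul_sub, mul_one, mul_div_cancel₀ _ hE.ne']
  | succ k ih =>
    obtain ⟨V, hV, hU⟩ := ih (le_trans (Nat.pow_le_pow_right (by norm_num) (by omega)) hk)
    have hlt : Nat.card V < Fintype.card E := by
      rw [hV]
      refine lt_of_lt_of_le ?_ hk
      exact Nat.pow_lt_pow_right (by norm_num) (by omega)
    obtain ⟨y, hy, hle⟩ := greedy_step W V hlt
    refine ⟨adj V y, by rw [card_adj hy, hV]; ring, ?_⟩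
    have h2 : ((unc W (adj V y)).card : ℝ) * Fintype.card E ≤ ((unc W V).card : ℝ)^2 := by
      exact_mod_cast hle
    have h3 : ((unc W V).card : ℝ)^2
        ≤ (Fintype.card E * (1 - (W.card : ℝ)/Fintype.card E)^(2^k))^2 :=
      pow_le_pow_left₀ (by positivity) hU 2
    have h4 := h2.trans h3
    refine le_of_mul_le_mul_right ?_ hE
    refine h4.trans (le_of_eq ?_)
    rw [mul_pow, ← pow_mul, ← pow_succ]; ring

/-- main existence statement -/
theorem greedy (W : Finset E) (m k : ℕ) (hE : Fintype.card E = 2^(m+k))
    (h : (m:ℝ) * Real.log 2 * 2^m < W.card) :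
    ∃ V : Submodule (ZMod 2) E, Nat.card V = 2^k ∧ ∀ x : E, ∃ w ∈ W, x - w ∈ V := by
  obtain ⟨V, hV, hU⟩ := greedy_iter W k (by rw [hE]; exact Nat.pow_le_pow_right (by norm_num) (by omega))
  refine ⟨V, hV, ?_⟩
  by_contra hcon
  push Not at hcon
  obtain ⟨x, hx⟩ := hcon
  have hxU : x ∈ unc W V := mem_unc.mpr hx
  have h1 : Nat.card V ≤ (unc W V).card := by
    classical
    rw [Nat.card_eq_fintype_card, Fintype.card_subtype]
    refine Finset.card_le_card_of_injOn (fun y => x + y) ?_ ?_
    · intro y hy
      exact unc_add hxU (by simpa using hy)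
    · intro a _ b _ hab; exact add_left_cancel hab
  have h2 : (2:ℝ)^k ≤ (unc W V).card := by
    rw [hV] at h1; exact_mod_cast h1
  have hEr : (Fintype.card E : ℝ) = 2^m * 2^k := by rw [hE]; push_cast; rw [pow_add]
  have hWE : (W.card : ℝ) ≤ Fintype.card E := by exact_mod_cast Finset.card_le_univ W
  have h2m : (0:ℝ) < 2^m := by positivity
  have h2k : (0:ℝ) < 2^k := by positivity
  have hp : 0 ≤ 1 - (W.card : ℝ)/Fintype.card E := by
    rw [sub_nonneg, div_le_one (by rw [hEr]; positivity)]; exact hWE
  have h3 : (1 - (W.card : ℝ)/Fintype.card E)^(2^k) ≤ Real.exp (-((W.card:ℝ)/2^m)) := by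
    have h4 : 1 - (W.card : ℝ)/Fintype.card E ≤ Real.exp (-((W.card : ℝ)/Fintype.card E)) := by
      have := Real.add_one_le_exp (-((W.card : ℝ)/Fintype.card E))
      linarith
    refine (pow_le_pow_left₀ hp h4 _).trans (le_of_eq ?_)
    rw [← Real.exp_nat_mul]
    congr 1
    rw [hEr]; push_cast; field_simp
  have h5 : Real.exp (-((W.card:ℝ)/2^m)) < 1/2^m := by
    have h6 : (m:ℝ) * Real.log 2 < W.card/2^m := by rw [lt_div_iff₀ h2m]; exact h
    have h7 : Real.exp (-((W.card:ℝ)/2^m)) < Real.exp (-((m:ℝ) * Real.log 2)) :=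
      Real.exp_lt_exp.mpr (by linarith)
    refine h7.trans_le (le_of_eq ?_)
    rw [Real.exp_neg, mul_comm, Real.exp_mul, Real.exp_log (by norm_num), Real.rpow_natCast,
      one_div]
  have h8 : (2:ℝ)^k < 2^k := by
    calc (2:ℝ)^k ≤ (unc W V).card := h2
      _ ≤ Fintype.card E * (1 - (W.card : ℝ)/Fintype.card E)^(2^k) := hU
      _ ≤ Fintype.card E * Real.exp (-((W.card:ℝ)/2^m)) := by
          apply mul_le_mul_of_nonneg_left h3; rw [hEr]; positivity
      _ < Fintype.card E * (1/2^m) := by
          apply mul_lt_mul_of_pos_left h5; rw [hEr]; positivity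
      _ = 2^k := by rw [hEr]; field_simp
  exact lt_irrefl _ h8

end greedy

end Pool.Agent.Lib.MP_f8d60a_co
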