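import Mathlib
import Pool.Prelude.Def_F_7905cbea
import Pool.Agent.Lib.MP_f8d60a_co.Greedy

/-! From an exact covering of a small space to covering subspaces of long length. -/

open Finset N8b55e67f
open scoped ENNReal Pointwise

namespace Pool.Agent.Lib.MP_f8d60a_co

/-- a linear map whose values on words of weight `≤ r` exhaust the target gives a covering
subspace -/
lemma minDensity_le_of_map {n r : ℕ} {ι Z : Type*} [Fintype ι] [DecidableEq ι]
    [AddCommGroup Z] [Module (ZMod 2) Z] [Finite Z] (e : Fin n ≃ ι)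
    (φ : (ι → ZMod 2) →ₗ[ZMod 2] Z) (h : ∀ z, ∃ w : ι → ZMod 2, hammingNorm w ≤ r ∧ φ w = z) :
    minDensity n r ≤ (Nat.card (hammingBall n r) : ℝ≥0∞) / (Nat.card Z : ℝ≥0∞) := by
  classical
  set L : (ι → ZMod 2) ≃ₗ[ZMod 2] (Fin n → ZMod 2) := LinearEquiv.funCongrLeft (ZMod 2) (ZMod 2) e
  set ψ : (Fin n → ZMod 2) →ₗ[ZMod 2] Z := φ.comp (L.symm : (Fin n → ZMod 2) →ₗ[ZMod 2] (ι → ZMod 2))
  have hψ : ∀ z, ∃ w : Fin n → ZMod 2, hammingNorm w ≤ r ∧ ψ w = z := by
    intro z
    obtain ⟨w, hw, hz⟩ := h z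
    refine ⟨L w, ?_, ?_⟩
    · refine le_trans (le_of_eq ?_) hw
      rw [hammingNorm, hammingNorm]
      refine Finset.card_bij (fun i _ => e i) ?_ ?_ ?_
      · intro i hi
        simp only [mem_filter, mem_univ, true_and] at hi ⊢
        exact hi
      · intro a _ b _ hab; exact e.injective hab
      · intro i hi
        refine ⟨e.symm i, ?_, by simp⟩
        simp only [mem_filter, mem_univ, true_and] at hi ⊢
        change w (e (e.symm i)) ≠ 0
        rwa [Equiv.apply_symm_apply]
    · simp [ψ, hz]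
  have hsurj : Function.Surjective ψ := fun z => by
    obtain ⟨w, _, hw⟩ := hψ z; exact ⟨w, hw⟩
  have hcov : IsCoveringSubspace n r (LinearMap.ker ψ) := by
    rw [IsCoveringSubspace, Set.eq_univ_iff_forall]
    intro x
    obtain ⟨w, hw, hx⟩ := hψ (ψ x)
    refine ⟨x - w, ?_, w, hw, by simp⟩
    simp only [SetLike.mem_coe, LinearMap.mem_ker, map_sub, hx, sub_self]
  have hcard : Nat.card (LinearMap.ker ψ) * Nat.card Z = 2^n := by
    have h1 := Submodule.card_eq_card_quotient_mul_card (LinearMap.ker ψ)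
    have h2 : Nat.card ((Fin n → ZMod 2) ⧸ LinearMap.ker ψ) = Nat.card Z :=
      Nat.card_congr (LinearMap.quotKerEquivOfSurjective ψ hsurj).toEquiv
    rw [h2] at h1
    have h3 : Nat.card (Fin n → ZMod 2) = 2^n := by simp
    rw [h3] at h1
    rw [h1]
  refine (iInf₂_le (LinearMap.ker ψ) hcov).trans ?_
  have hk : (Nat.card (LinearMap.ker ψ) : ℝ≥0∞) ≠ 0 := by
    have : Nat.card (LinearMap.ker ψ) ≠ 0 := Nat.card_pos.ne'
    exact_mod_cast this
  have e3 : (2^n : ℝ≥0∞) = (Nat.card (LinearMap.ker ψ) : ℝ≥0∞) * (Nat.card Z : ℝ≥0∞) := by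
    rw [← Nat.cast_mul, hcard]; push_cast; rfl
  rw [e3, ENNReal.mul_div_mul_left _ _ hk (ENNReal.natCast_ne_top _)]

/-- `Z` is exactly covered by `r`-fold sums of the `a i`. -/
def ExactCover {Z : Type*} [AddCommMonoid Z] {N : ℕ} (r : ℕ) (a : Fin N → Z) : Prop :=
  ∀ g, ∃ T : Finset (Fin N), T.card = r ∧ ∑ i ∈ T, a i = g

/-- the blow-up construction -/
theorem blow {Q : Type*} [AddCommGroup Q] [Module (ZMod 2) Q] [Finite Q] {N r : ℕ}
    (a : Fin N → Q) (ha : ExactCover r a) {F : Type*} [Field F] [Fintype F] [Algebra (ZMod 2) F]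
    (b : Fin N → F) (hb : Function.Injective b) :
    minDensity (N * Fintype.card F) r
      ≤ (Nat.card (hammingBall (N * Fintype.card F) r) : ℝ≥0∞)
        / ((Nat.card Q * (Fintype.card F)^r : ℕ) : ℝ≥0∞) := by
  classical
  have hZ : Nat.card (Q × (Fin r → F)) = Nat.card Q * (Fintype.card F)^r := by
    rw [Nat.card_prod, Nat.card_fun]; simp
  rw [← hZ]
  set v : Fin N × F → Q × (Fin r → F) := fun p => (a p.1, fun j => p.2 * b p.1 ^ (j:ℕ)) with hv
  have e : Fin (N * Fintype.card F) ≃ Fin N × F :=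
    finProdFinEquiv.symm.trans (Equiv.prodCongr (Equiv.refl _) (Fintype.equivFin F).symm)
  refine minDensity_le_of_map e (Fintype.linearCombination (ZMod 2) v) ?_
  rintro ⟨g, y⟩
  obtain ⟨T, hT, hg⟩ := ha g
  set σ : Fin r ≃ T := (T.orderIsoOfFin hT).toEquiv
  set M : Matrix (Fin r) (Fin r) F := Matrix.vandermonde (fun k => b (σ k)) with hM
  have hdet : IsUnit M.det := by
    rw [isUnit_iff_ne_zero, hM, Matrix.det_vandermonde_ne_zero_iff]
    intro i j hij
    exact σ.injective (Subtype.ext (hb hij))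
  set x : Fin r → F := Matrix.vecMul y M⁻¹ with hx
  have hxM : Matrix.vecMul x M = y := by
    rw [hx, Matrix.vecMul_vecMul, Matrix.nonsing_inv_mul M hdet, Matrix.vecMul_one]
  refine ⟨∑ k, Pi.single ((σ k : Fin N), x k) 1, ?_, ?_⟩
  · rw [hammingNorm]
    refine le_trans (Finset.card_le_card (t := univ.image fun k : Fin r => ((σ k : Fin N), x k)) ?_)
      (Finset.card_image_le.trans (by simp))
    intro i hi
    simp only [mem_filter, mem_univ, true_and, Finset.sum_apply] at hi
    obtain ⟨k, _, hk⟩ := Finset.exists_ne_zero_of_sum_ne_zero hi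
    rw [mem_image]
    refine ⟨k, mem_univ _, ?_⟩
    by_contra hne
    apply hk
    rw [Pi.single_apply, if_neg (Ne.symm hne)]
  · rw [map_sum]
    have h1 : ∀ k ∈ (univ : Finset (Fin r)), Fintype.linearCombination (ZMod 2) v
        (Pi.single ((σ k : Fin N), x k) 1) = v ((σ k : Fin N), x k) := by
      intro k _
      rw [Fintype.linearCombination_apply_single, one_smul]
    rw [Finset.sum_congr rfl h1]
    simp only [hv]
    rw [Prod.ext_iff]
    constructor
    · rw [Prod.fst_sum]
      simp only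
      rw [← hg, ← Finset.sum_coe_sort T]
      exact Equiv.sum_comp σ (fun i => a i)
    · rw [Prod.snd_sum]
      funext j
      rw [Finset.sum_apply]
      have := congrFun hxM j
      change _ = y j
      rw [← this, Matrix.vecMul, dotProduct]
      rfl

end Pool.Agent.Lib.MP_f8d60a_co
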