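import Mathlib
import Pool.Agent.Lib.MP_f8d60a_co.Blow

/-! The master inequality `f r ≤ N^r / (r! 2^m)` whenever `m 2^m ln 2 < C(N,r)`. -/

open Finset N8b55e67f Filter
open scoped ENNReal Pointwise Topology

namespace Pool.Agent.Lib.MP_f8d60a_co

lemma zmod2_cases (c : ZMod 2) : c = 0 ∨ c = 1 := by
  fin_cases c
  · left; rfl
  · right; rfl

lemma card_ball_le (n r : ℕ) : Nat.card (hammingBall n r) ≤ ∑ i ∈ range (r+1), n.choose i := by
  classical
  have h1 : Nat.card (hammingBall n r)
      = (univ.filter fun x : Fin n → ZMod 2 => hammingNorm x ≤ r).card := by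
    rw [Nat.card_eq_fintype_card, Fintype.card_subtype]
    congr 1
    ext x
    rw [mem_filter, mem_filter]
    exact Iff.rfl
  rw [h1]
  set S : Finset (Finset (Fin n)) := (range (r+1)).biUnion fun i => powersetCard i univ
  have h2 : S.card ≤ ∑ i ∈ range (r+1), n.choose i := by
    refine Finset.card_biUnion_le.trans (le_of_eq ?_)
    refine Finset.sum_congr rfl fun i _ => ?_
    rw [card_powersetCard, card_univ, Fintype.card_fin]
  refine le_trans (Finset.card_le_card_of_injOn (fun x => univ.filter fun i => x i ≠ 0) ?_ ?_) h2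
  · intro x hx
    simp only [coe_filter, mem_univ, true_and, Set.mem_ofPred_eq] at hx
    simp only [S, coe_biUnion, Set.mem_iUnion, mem_coe, mem_powersetCard]
    refine ⟨(univ.filter fun i => x i ≠ 0).card, ?_, Finset.subset_univ _, rfl⟩
    rw [mem_range]
    have : (univ.filter fun i => x i ≠ 0).card ≤ r := hx
    omega
  · intro x _ y _ hxy
    funext i
    have h3 := Finset.ext_iff.mp hxy i
    simp only [mem_filter, mem_univ, true_and] at h3
    rcases zmod2_cases (x i) with hx | hx <;> rcases zmod2_cases (y i) with hy | hy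
    · rw [hx, hy]
    · rw [hx, hy] at h3; simp at h3
    · rw [hx, hy] at h3; simp at h3
    · rw [hx, hy]

lemma sum_choose_le {n r : ℕ} (hn : 1 ≤ n) (hr : 1 ≤ r) :
    ((∑ i ∈ range (r+1), n.choose i : ℕ) : ℝ) ≤ (n:ℝ)^r / r.factorial + r * (n:ℝ)^(r-1) := by
  rw [Finset.sum_range_succ]
  push_cast
  have h1 : (n.choose r : ℝ) ≤ (n:ℝ)^r / r.factorial := Nat.choose_le_pow_div r n
  have h2 : ∑ i ∈ range r, (n.choose i : ℝ) ≤ r * (n:ℝ)^(r-1) := by
    have h3 : ∀ i ∈ range r, (n.choose i : ℝ) ≤ (n:ℝ)^(r-1) := by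
      intro i hi
      rw [mem_range] at hi
      have h4 : (n.choose i : ℝ) ≤ (n:ℝ)^i := by
        refine (Nat.choose_le_pow_div i n).trans ?_
        apply div_le_self (by positivity)
        exact_mod_cast Nat.succ_le_of_lt (Nat.factorial_pos i)
      refine h4.trans ?_
      apply pow_le_pow_right₀ (by exact_mod_cast hn)
      omega
    refine (Finset.sum_le_sum h3).trans (le_of_eq ?_)
    rw [Finset.sum_const, card_range, nsmul_eq_mul]
  linarith

/-- the set of words of weight `r` given by indicator vectors -/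
noncomputable def ind (N : ℕ) (T : Finset (Fin N)) : Fin N → ZMod 2 := ∑ i ∈ T, Pi.single i 1

lemma ind_apply (N : ℕ) (T : Finset (Fin N)) (j : Fin N) : ind N T j = if j ∈ T then 1 else 0 := by
  classical
  rw [ind, Finset.sum_apply]
  split_ifs with h
  · rw [Finset.sum_eq_single j]
    · simp
    · intro b _ hb; rw [Pi.single_apply, if_neg (Ne.symm hb)]
    · intro hn; exact absurd h hn
  · apply Finset.sum_eq_zero
    intro i hi
    rw [Pi.single_apply, if_neg]
    rintro rfl; exact h hi

lemma ind_inj (N : ℕ) : Function.Injective (ind N) := by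
  intro S T h
  ext j
  have := congrFun h j
  rw [ind_apply, ind_apply] at this
  by_cases h1 : j ∈ S <;> by_cases h2 : j ∈ T <;> simp_all

/-- master inequality -/
theorem master {r m N : ℕ} (hr : 1 ≤ r) (hm : m ≤ N)
    (h : (m:ℝ) * Real.log 2 * 2^m < N.choose r) :
    f r ≤ ENNReal.ofReal ((N:ℝ)^r / (r.factorial * 2^m)) := by
  classical
  -- the exact covering
  obtain ⟨k, rfl⟩ : ∃ k, N = m + k := ⟨N - m, by omega⟩
  set N := m + k with hN
  set W : Finset (Fin N → ZMod 2) := (powersetCard r univ).image (ind N)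
  have hW : W.card = N.choose r := by
    rw [Finset.card_image_of_injective _ (ind_inj N), card_powersetCard, card_univ,
      Fintype.card_fin]
  have hE : Fintype.card (Fin N → ZMod 2) = 2^(m+k) := by simp [hN]
  obtain ⟨V, hV, hcov⟩ := greedy W m k hE (by rw [hW]; exact h)
  set Q := (Fin N → ZMod 2) ⧸ V
  have hQ : Nat.card Q = 2^m := by
    have h1 := Submodule.card_eq_card_quotient_mul_card V
    have h3 : Nat.card (Fin N → ZMod 2) = 2^(m+k) := by rw [Nat.card_eq_fintype_card, hE]
    rw [h3, hV, pow_add] at h1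
    have h4 : 2^k * 2^m = 2^k * Nat.card Q := by rw [mul_comm, h1]
    exact (Nat.eq_of_mul_eq_mul_left (by positivity) h4).symm
  set a : Fin N → Q := fun i => V.mkQ (Pi.single i 1) with ha
  have hex : ExactCover r a := by
    intro g
    obtain ⟨x, rfl⟩ := V.mkQ_surjective g
    obtain ⟨w, hw, hxw⟩ := hcov x
    obtain ⟨T, hT, rfl⟩ := Finset.mem_image.mp hw
    rw [mem_powersetCard] at hT
    refine ⟨T, hT.2, ?_⟩
    rw [ha, ← map_sum, ← ind]
    symm
    rw [← sub_eq_zero, ← map_sub]
    exact (Submodule.Quotient.mk_eq_zero V).mpr hxw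
  -- positivity
  have hN1 : 1 ≤ N := by
    rcases Nat.eq_zero_or_pos N with h0 | h0
    · exfalso
      have h5 : N.choose r = 0 := by rw [h0]; exact Nat.choose_eq_zero_of_lt hr
      rw [h5] at h
      have : 0 ≤ (m:ℝ) * Real.log 2 * 2^m := by
        have := Real.log_nonneg (show (1:ℝ) ≤ 2 by norm_num)
        positivity
      simp only [Nat.cast_zero] at h
      linarith
    · exact h0
  set c : ℝ := (N:ℝ)^r / (r.factorial * 2^m) with hc
  set K : ℝ := r * (N:ℝ)^(r-1) / 2^m with hK
  -- density bound for each t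
  have hden : ∀ t : ℕ, t ≠ 0 → N ≤ 2^t →
      minDensity (N * 2^t) r ≤ ENNReal.ofReal (c + K / 2^t) := by
    intro t ht hNt
    have : Fintype (GaloisField 2 t) := Fintype.ofFinite _
    have hF : Fintype.card (GaloisField 2 t) = 2^t := by
      rw [← Nat.card_eq_fintype_card]; exact GaloisField.card 2 t ht
    obtain ⟨b⟩ : Nonempty (Fin N ↪ GaloisField 2 t) := by
      apply Function.Embedding.nonempty_of_card_le
      rw [hF, Fintype.card_fin]; exact hNt
    have h1 := blow a hex (F := GaloisField 2 t) b b.injective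
    rw [hF, hQ] at h1
    refine h1.trans ?_
    have h2 : (Nat.card (hammingBall (N * 2^t) r) : ℝ)
        ≤ ((N*2^t : ℕ):ℝ)^r / r.factorial + r * ((N*2^t : ℕ):ℝ)^(r-1) := by
      refine le_trans ?_ (sum_choose_le (n := N * 2^t) ?_ hr)
      · exact_mod_cast card_ball_le _ _
      · exact Nat.mul_pos hN1 (by positivity)
    have hq : (0:ℝ) < 2^t := by positivity
    have h2m : (0:ℝ) < 2^m := by positivity
    have h3 : (Nat.card (hammingBall (N * 2^t) r) : ℝ) / (2^m * (2^t)^r) ≤ c + K/2^t := by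
      rw [div_le_iff₀ (by positivity)]
      refine h2.trans (le_of_eq ?_)
      obtain ⟨s, rfl⟩ : ∃ s, r = s + 1 := ⟨r-1, by omega⟩
      rw [hc, hK]
      push_cast
      have hf : ((s+1).factorial : ℝ) ≠ 0 := by positivity
      field_simp
      rw [mul_pow, mul_pow]
      ring
    have h4 : (Nat.card (hammingBall (N * 2^t) r) : ℝ≥0∞) / ((2^m * (2^t)^r : ℕ) : ℝ≥0∞)
        = ENNReal.ofReal ((Nat.card (hammingBall (N * 2^t) r) : ℝ) / (2^m * (2^t)^r)) := by
      rw [ENNReal.ofReal_div_of_pos (by positivity), ENNReal.ofReal_natCast]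
      congr 1
      rw [← ENNReal.ofReal_natCast]
      congr 1
      push_cast; rfl
    rw [h4]
    exact ENNReal.ofReal_le_ofReal h3
  have hc0 : 0 ≤ c := by positivity
  have hK0 : 0 ≤ K := by positivity
  apply ENNReal.le_of_forall_pos_le_add
  intro ε hε _
  rw [f]
  apply Filter.liminf_le_of_frequently_le'
  rw [Filter.frequently_atTop]
  intro n0
  -- choose t
  obtain ⟨t, ht1, ht2, ht3, ht4⟩ : ∃ t : ℕ, t ≠ 0 ∧ N ≤ 2^t ∧ n0 ≤ N * 2^t ∧ K / 2^t ≤ ε := by
    have h1 : Tendsto (fun t : ℕ => (2:ℝ)^t) atTop atTop :=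
      tendsto_pow_atTop_atTop_of_one_lt (by norm_num)
    have h2 := h1.eventually_ge_atTop (K/ε)
    obtain ⟨t, hta, htb⟩ := (h2.and (eventually_ge_atTop (N + n0 + 1))).exists
    refine ⟨t, by omega, ?_, ?_, ?_⟩
    · have := Nat.lt_two_pow_self (n := t); omega
    · have := Nat.lt_two_pow_self (n := t)
      calc n0 ≤ 1 * 2^t := by omega
        _ ≤ N * 2^t := Nat.mul_le_mul_right _ hN1
    · rw [div_le_iff₀ (by positivity)]
      rw [div_le_iff₀ (by exact_mod_cast hε)] at hta
      linarith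
  refine ⟨N * 2^t, ht3, ?_⟩
  refine (hden t ht1 ht2).trans ?_
  rw [ENNReal.ofReal_add hc0 (by positivity)]
  refine add_le_add le_rfl ?_
  have : ENNReal.ofReal (K/2^t) ≤ ENNReal.ofReal (ε:ℝ) := ENNReal.ofReal_le_ofReal ht4
  rwa [ENNReal.ofReal_coe_nnreal] at this

end Pool.Agent.Lib.MP_f8d60a_co
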