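import Mathlib
import Pool.Agent.Lib.MP_f8d60a_co.Master

/-! Choice of parameters in the master inequality. -/

open Finset N8b55e67f Filter
open scoped ENNReal

namespace Pool.Agent.Lib.MP_f8d60a_co

lemma two_pow_descFactorial (n r : ℕ) :
    2^r * n.descFactorial r ≤ (2*n).descFactorial r := by
  induction r with
  | zero => simp
  | succ r ih =>
    rw [Nat.descFactorial_succ, Nat.descFactorial_succ]
    calc 2^(r+1) * ((n - r) * n.descFactorial r) = (2*(n-r)) * (2^r * n.descFactorial r) := by ring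
      _ ≤ (2*n - r) * (2*n).descFactorial r := Nat.mul_le_mul (by omega) ih

lemma four_choose_le {n r : ℕ} (hr : 2 ≤ r) : 4 * n.choose r ≤ (2*n).choose r := by
  have h := two_pow_descFactorial n r
  rw [Nat.descFactorial_eq_factorial_mul_choose, Nat.descFactorial_eq_factorial_mul_choose] at h
  have h4 : 4 ≤ 2^r := by
    calc 4 = 2^2 := by norm_num
      _ ≤ 2^r := Nat.pow_le_pow_right (by norm_num) hr
  have h5 : r.factorial * (4 * n.choose r) ≤ r.factorial * (2*n).choose r := by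
    refine le_trans ?_ h
    calc r.factorial * (4 * n.choose r) = 4 * (r.factorial * n.choose r) := by ring
      _ ≤ 2^r * (r.factorial * n.choose r) := Nat.mul_le_mul_right _ h4
  exact Nat.le_of_mul_le_mul_left h5 (Nat.factorial_pos r)

/-- **Main bound.** -/
theorem main_bound {r C : ℕ} (hr : 2 ≤ r) (hC : 2 ≤ C) :
    f r ≤ ENNReal.ofReal ((C:ℝ)/(C-1) * (r * Real.log (2 * Real.exp 1 * C * r))) := by
  have hl2 : (0.69:ℝ) < Real.log 2 := by have := Real.log_two_gt_d9; linarith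
  have hl2' : Real.log 2 < 0.7 := by have := Real.log_two_lt_d9; linarith
  have hrR : (2:ℝ) ≤ r := by exact_mod_cast hr
  have hCR : (2:ℝ) ≤ C := by exact_mod_cast hC
  set N0 := C * r^2 with hN0
  have hN0r : r ≤ N0 := by rw [hN0]; nlinarith
  have hN08 : 8 ≤ N0 := by rw [hN0]; nlinarith
  -- choice of m
  set P : ℕ → Prop := fun m => (m:ℝ) * Real.log 2 * 2^m < (2*N0).choose r with hP
  have hbigm : ∀ m : ℕ, 2 ≤ m → ∀ M : ℕ, (m:ℝ) * Real.log 2 * 2^m < M → (2:ℝ)^m < M := by
    intro m hm M h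
    refine lt_of_le_of_lt ?_ h
    have hm' : (2:ℝ) ≤ m := by exact_mod_cast hm
    have : (1:ℝ) ≤ m * Real.log 2 := by nlinarith
    have h2 : (0:ℝ) < 2^m := by positivity
    nlinarith
  have hex : ∃ j, ¬ P (j+1) := by
    refine ⟨2*N0, fun h => ?_⟩
    have h1 := hbigm (2*N0+1) (by omega) _ h
    have h2 : (2*N0).choose r ≤ 2^(2*N0) := Nat.choose_le_two_pow _ _
    have h3 : ((2*N0).choose r : ℝ) ≤ 2^(2*N0) := by exact_mod_cast h2
    rw [pow_succ] at h1
    have h4 : (0:ℝ) < 2^(2*N0) := by positivity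
    linarith
  classical
  set m := Nat.find hex with hm
  have hm1 : ¬ P (m+1) := Nat.find_spec hex
  have hP1 : P 1 := by
    have h2 := four_choose_le (n := N0) hr
    have h3 : 1 ≤ N0.choose r := Nat.choose_pos hN0r
    change ((1:ℕ):ℝ) * Real.log 2 * 2^1 < _
    have h4 : 4 ≤ (2*N0).choose r := by omega
    have h5 : (4:ℝ) ≤ ((2*N0).choose r : ℝ) := by exact_mod_cast h4
    norm_num
    linarith
  have hm0 : 1 ≤ m := by
    by_contra h
    have h0 : m = 0 := by omega
    rw [h0] at hm1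
    exact hm1 hP1
  have hPm : P m := by
    have := Nat.find_min hex (m := m-1) (by omega)
    rw [not_not] at this
    rwa [Nat.sub_add_cancel hm0] at this
  -- choice of N
  have hexN : ∃ N : ℕ, (m:ℝ) * Real.log 2 * 2^m < N.choose r := ⟨2*N0, hPm⟩
  set N := Nat.find hexN with hNdef
  have hN1 : (m:ℝ) * Real.log 2 * 2^m < N.choose r := Nat.find_spec hexN
  have hN2 : N ≤ 2*N0 := Nat.find_min' hexN hPm
  have hNN0 : N0 < N := by
    by_contra hle
    push Not at hle
    have h1 : (N.choose r : ℝ) ≤ N0.choose r := by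
      exact_mod_cast Nat.choose_le_choose r hle
    have h2 : (4 * N0.choose r : ℝ) ≤ (2*N0).choose r := by exact_mod_cast four_choose_le hr
    have h3 : ((2*N0).choose r : ℝ) ≤ ((m+1:ℕ):ℝ) * Real.log 2 * 2^(m+1) := not_lt.mp hm1
    have hm0' : (1:ℝ) ≤ m := by exact_mod_cast hm0
    have h4 : ((m+1:ℕ):ℝ) * Real.log 2 * 2^(m+1) ≤ 4 * ((m:ℝ) * Real.log 2 * 2^m) := by
      rw [pow_succ]; push_cast
      have : 0 ≤ Real.log 2 * 2^m := by positivity
      nlinarith
    linarith
  have hN3 : ((N-1).choose r : ℝ) ≤ (m:ℝ) * Real.log 2 * 2^m := by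
    have := Nat.find_min hexN (m := N-1) (by omega)
    exact not_lt.mp this
  have hmN : m ≤ N := by
    rcases Nat.lt_or_ge m 2 with h | h
    · omega
    · have h1 := hbigm m h _ hN1
      have h2 : (N.choose r : ℝ) ≤ 2^N := by exact_mod_cast Nat.choose_le_two_pow N r
      have h3 : (2:ℝ)^m < 2^N := h1.trans_le h2
      exact (pow_lt_pow_iff_right₀ (by norm_num : (1:ℝ) < 2)).mp h3 |>.le
  have hmaster := master (r := r) (m := m) (N := N) (by omega) hmN hN1
  refine hmaster.trans (ENNReal.ofReal_le_ofReal ?_)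
  -- numerical estimates
  have hNR : (0:ℝ) < N := by
    have : 0 < N := by omega
    exact_mod_cast this
  have hdf : ((N:ℝ) - r)^r ≤ r.factorial * (N-1).choose r := by
    have h1 := Nat.pow_sub_le_descFactorial (N-1) r
    rw [Nat.descFactorial_eq_factorial_mul_choose] at h1
    have h2 : N - 1 + 1 - r = N - r := by omega
    rw [h2] at h1
    have h3 : (((N-r)^r : ℕ) : ℝ) ≤ ((r.factorial * (N-1).choose r : ℕ):ℝ) := by exact_mod_cast h1
    push_cast at h3
    rwa [Nat.cast_sub (by omega)] at h3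
  have hbern : 1 - 1/(C:ℝ) ≤ (((N:ℝ) - r)/N)^r := by
    have h1 := one_add_mul_le_pow (a := -((r:ℝ)/N)) (n := r) ?_
    · have h2 : (1 + -((r:ℝ)/N)) = ((N:ℝ) - r)/N := by field_simp; ring
      rw [h2] at h1
      refine le_trans ?_ h1
      have h3 : (r:ℝ) * (r/N) ≤ 1/C := by
        rw [← mul_div_assoc, div_le_div_iff₀ hNR (by linarith)]
        have : ((N0:ℕ):ℝ) ≤ N := by exact_mod_cast hNN0.le
        rw [hN0] at this
        push_cast at this
        nlinarith
      linarith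
    · have : (r:ℝ)/N ≤ 1 := by
        rw [div_le_one hNR]
        have : r ≤ N := by omega
        exact_mod_cast this
      linarith
  have hC1 : 0 < 1 - 1/(C:ℝ) := by
    rw [sub_pos, div_lt_one (by linarith)]; linarith
  have hfac : (N:ℝ)^r ≤ (C:ℝ)/(C-1) * ((N:ℝ) - r)^r := by
    have h1 : (1 - 1/(C:ℝ)) * (N:ℝ)^r ≤ ((N:ℝ)-r)^r := by
      rw [div_pow, le_div_iff₀ (by positivity)] at hbern
      exact hbern
    have h2 : (C:ℝ)/(C-1) * (1 - 1/(C:ℝ)) = 1 := by
      have : (C:ℝ) - 1 ≠ 0 := by linarith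
      have : (C:ℝ) ≠ 0 := by linarith
      field_simp
    have h3 : (0:ℝ) ≤ (C:ℝ)/(C-1) := by
      apply div_nonneg <;> linarith
    calc (N:ℝ)^r = (C:ℝ)/(C-1) * ((1 - 1/(C:ℝ)) * (N:ℝ)^r) := by rw [← mul_assoc, h2, one_mul]
      _ ≤ _ := mul_le_mul_of_nonneg_left h1 h3
  have h3 : (0:ℝ) ≤ (C:ℝ)/(C-1) := by
    apply div_nonneg <;> linarith
  have hfr : (0:ℝ) < r.factorial := by positivity
  have hstep1 : (N:ℝ)^r / (r.factorial * 2^m) ≤ (C:ℝ)/(C-1) * (m * Real.log 2) := by
    rw [div_le_iff₀ (by positivity)]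
    calc (N:ℝ)^r ≤ (C:ℝ)/(C-1) * ((N:ℝ) - r)^r := hfac
      _ ≤ (C:ℝ)/(C-1) * (r.factorial * (N-1).choose r) := mul_le_mul_of_nonneg_left hdf h3
      _ ≤ (C:ℝ)/(C-1) * (r.factorial * ((m:ℝ) * Real.log 2 * 2^m)) :=
          mul_le_mul_of_nonneg_left (mul_le_mul_of_nonneg_left hN3 hfr.le) h3
      _ = _ := by ring
  refine hstep1.trans (mul_le_mul_of_nonneg_left ?_ h3)
  -- m ln 2 ≤ r ln (2 e C r)
  have he : (2:ℝ) ≤ Real.exp 1 := by have := Real.add_one_le_exp (1:ℝ); linarith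
  have hbase : (2:ℝ) ≤ 2 * Real.exp 1 * C * r := by
    have h1 : (4:ℝ) ≤ C * r := by nlinarith
    nlinarith
  have hlogb : Real.log 2 ≤ Real.log (2 * Real.exp 1 * C * r) :=
    Real.log_le_log (by norm_num) hbase
  rcases Nat.lt_or_ge m 2 with h | h
  · have : m = 1 := by omega
    rw [this]; push_cast
    nlinarith
  · have h1 := hbigm m h _ hN1
    have h2 : (N.choose r : ℝ) ≤ (2*N0).choose r := by exact_mod_cast Nat.choose_le_choose r hN2
    have h4 : ((2*N0).choose r : ℝ) ≤ ((2*N0:ℕ):ℝ)^r / r.factorial := Nat.choose_le_pow_div r (2*N0)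
    have h5 : ((2*N0:ℕ):ℝ)^r / r.factorial ≤ (2 * Real.exp 1 * C * r)^r := by
      have h6 := Real.pow_div_factorial_le_exp (r:ℝ) (by positivity) r
      have e1 : ((2*N0:ℕ):ℝ)^r / r.factorial = (2*C*r)^r * ((r:ℝ)^r / r.factorial) := by
        rw [hN0]; push_cast; rw [← mul_div_assoc, ← mul_pow]; ring
      have e2 : (2 * Real.exp 1 * C * r)^r = (2*C*r)^r * Real.exp r := by
        have : Real.exp r = (Real.exp 1)^r := by rw [← Real.exp_nat_mul, mul_one]
        rw [this, ← mul_pow]; ring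
      rw [e1, e2]
      exact mul_le_mul_of_nonneg_left h6 (by positivity)
    have h7 : (2:ℝ)^m ≤ (2 * Real.exp 1 * C * r)^r := by linarith
    have h8 := Real.log_le_log (by positivity) h7
    rw [Real.log_pow, Real.log_pow] at h8
    exact h8

end Pool.Agent.Lib.MP_f8d60a_co
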