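import Mathlib

/-! The abstract criterion: a graph whose difference maps are affine and onto. -/

namespace Pool.Agent.Lib.MP_f8d60a_co.One

lemma add_self2 {M : Type*} [AddCommGroup M] [Module (ZMod 2) M] (x : M) : x + x = 0 := by
  have h : ((2 : ZMod 2)) • x = 0 := by
    rw [show (2 : ZMod 2) = 0 from rfl, zero_smul]
  rwa [two_smul] at h

variable {F U T : Type*} [AddCommGroup F] [Module (ZMod 2) F]
  [AddCommGroup U] [Module (ZMod 2) U] [Finite U] [AddCommGroup T] [Module (ZMod 2) T] [Finite T]

/-- the difference maps of `(x, e) ↦ N_e^* x + Q e` are affine and onto -/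
theorem onto (N : F →ₗ[ZMod 2] U →ₗ[ZMod 2] T) (Q : F → Module.Dual (ZMod 2) U)
    (P : F →ₗ[ZMod 2] F →ₗ[ZMod 2] Module.Dual (ZMod 2) U)
    (hQ : ∀ e d, Q (e + d) = Q e + Q d + P e d)
    (hN : ∀ b : U, b ≠ 0 → ∀ d : F, d ≠ 0 → N d b = 0 → ∃ e, N e b = 0 ∧ P e d b ≠ 0)
    (a : Module.Dual (ZMod 2) T) (d : F) (hd : d ≠ 0) (w : Module.Dual (ZMod 2) U) :
    ∃ x : Module.Dual (ZMod 2) T, ∃ e : F,
      ((N e).dualMap x + Q e) + ((N (e + d)).dualMap (x + a) + Q (e + d)) = w := by
  classical
  let L : (Module.Dual (ZMod 2) T × F) →ₗ[ZMod 2] Module.Dual (ZMod 2) U :=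
    { toFun := fun p => (N d).dualMap p.1 + (N p.2).dualMap a + P p.2 d
      map_add' := by
        intro p q
        ext b
        simp only [Prod.fst_add, Prod.snd_add, map_add, LinearMap.add_apply,
          LinearMap.dualMap_apply]
        abel
      map_smul' := by
        intro c p
        ext b
        simp only [Prod.smul_fst, Prod.smul_snd, map_smul, LinearMap.add_apply,
          LinearMap.dualMap_apply, LinearMap.smul_apply, RingHom.id_apply, smul_add] }
  have hL : ∀ p, L p = (N d).dualMap p.1 + (N p.2).dualMap a + P p.2 d := fun _ => rfl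
  have hsurj : LinearMap.range L = ⊤ := by
    by_contra hne
    obtain ⟨φ, hφ, hφL⟩ := Submodule.exists_le_ker_of_lt_top _ (lt_top_iff_ne_top.mpr hne)
    obtain ⟨b, hb⟩ := (Module.evalEquiv (ZMod 2) U).surjective φ
    have hφb : ∀ f : Module.Dual (ZMod 2) U, φ f = f b := by
      intro f
      rw [← hb]
      rfl
    have hb0 : b ≠ 0 := by
      rintro rfl
      apply hφ
      ext f
      rw [hφb f]; simp
    have h1 : ∀ x e, (N d).dualMap x b + (N e).dualMap a b + P e d b = 0 := by
      intro x e
      have h2 : L (x, e) ∈ LinearMap.ker φ := hφL (LinearMap.mem_range_self L (x, e))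
      rw [LinearMap.mem_ker, hφb, hL] at h2
      simpa using h2
    have h3 : N d b = 0 := by
      by_contra hne2
      obtain ⟨x, hx⟩ : ∃ x : Module.Dual (ZMod 2) T, x (N d b) ≠ 0 := by
        by_contra hcon
        push Not at hcon
        exact hne2 ((Module.forall_dual_apply_eq_zero_iff (ZMod 2) (N d b)).mp hcon)
      apply hx
      have := h1 x 0
      simpa [LinearMap.dualMap_apply] using this
    obtain ⟨e, he1, he2⟩ := hN b hb0 d hd h3
    apply he2
    have := h1 0 e
    simpa [LinearMap.dualMap_apply, he1] using this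
  obtain ⟨⟨x, e⟩, hx⟩ : ∃ p, L p = w + (N d).dualMap a + Q d := by
    have : w + (N d).dualMap a + Q d ∈ LinearMap.range L := by rw [hsurj]; trivial
    exact this
  refine ⟨x, e, ?_⟩
  rw [hL] at hx
  simp only at hx
  have e1 : (N (e + d)).dualMap (x + a) = (N e).dualMap x + (N e).dualMap a + (N d).dualMap x
      + (N d).dualMap a := by
    ext b
    simp only [map_add, LinearMap.add_apply, LinearMap.dualMap_apply]
    abel
  rw [e1, hQ]
  have e2 : ((N e).dualMap x + Q e) + ((N e).dualMap x + (N e).dualMap a + (N d).dualMap x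
      + (N d).dualMap a + (Q e + Q d + P e d))
      = ((N e).dualMap x + (N e).dualMap x) + (Q e + Q e)
        + ((N d).dualMap x + (N e).dualMap a + P e d) + (N d).dualMap a + Q d := by abel
  rw [e2, add_self2, add_self2, hx]
  have e3 : (0 : Module.Dual (ZMod 2) U) + 0 + (w + (N d).dualMap a + Q d) + (N d).dualMap a + Q d
      = w + ((N d).dualMap a + (N d).dualMap a) + (Q d + Q d) := by abel
  rw [e3, add_self2, add_self2, add_zero, add_zero]

end Pool.Agent.Lib.MP_f8d60a_co.One
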