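import Mathlib

/-! The iterated Frobenius maps and the tower of subfields inside a finite field of
characteristic two. -/

open Finset

namespace Pool.Agent.Lib.MP_f8d60a_co.One

variable {F : Type*} [Field F] [Fintype F] [Algebra (ZMod 2) F]

instance instCharP2 : CharP F 2 := charP_of_injective_algebraMap (algebraMap (ZMod 2) F).injective 2

/-- `x ↦ x ^ (2 ^ n)` as a linear map -/
noncomputable def fr (F : Type*) [Field F] [Fintype F] [Algebra (ZMod 2) F] (n : ℕ) :
    F →ₗ[ZMod 2] F :=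
  (iterateFrobenius F 2 n).toAddMonoidHom.toZModLinearMap 2

lemma fr_apply (n : ℕ) (x : F) : fr F n x = x ^ (2 ^ n) := rfl

lemma fr_mul (n : ℕ) (x y : F) : fr F n (x * y) = fr F n x * fr F n y := by
  simp only [fr_apply, mul_pow]

lemma fr_one (n : ℕ) : fr F n 1 = 1 := by simp [fr_apply]

lemma fr_inv (n : ℕ) (x : F) : fr F n x⁻¹ = (fr F n x)⁻¹ := by simp [fr_apply, inv_pow]

lemma fr_add_index (m n : ℕ) (x : F) : fr F (m + n) x = fr F n (fr F m x) := by
  simp only [fr_apply, ← pow_mul, pow_add]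

lemma fr_ne_zero {n : ℕ} {x : F} (hx : x ≠ 0) : fr F n x ≠ 0 := by
  rw [fr_apply]; exact pow_ne_zero _ hx

lemma fr_fix_double {n : ℕ} {x : F} (h : fr F n x = x) : fr F (n + n) x = x := by
  rw [fr_add_index, h, h]

lemma fr_fix_pow {a b : ℕ} (hab : a ≤ b) {x : F} (h : fr F (2 ^ a) x = x) :
    fr F (2 ^ b) x = x := by
  induction b, hab using Nat.le_induction with
  | base => exact h
  | succ b _ ih =>
    rw [pow_succ, mul_two]
    exact fr_fix_double ih

/-- the kernel of `x ↦ x ^ (2 ^ n) - x` -/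
noncomputable def K (F : Type*) [Field F] [Fintype F] [Algebra (ZMod 2) F] (n : ℕ) :
    Submodule (ZMod 2) F := LinearMap.ker (fr F n - LinearMap.id)

lemma mem_K {n : ℕ} {x : F} : x ∈ K F n ↔ fr F n x = x := by
  rw [K, LinearMap.mem_ker, LinearMap.sub_apply, LinearMap.id_apply, sub_eq_zero]

omit [Algebra (ZMod 2) F] in
/-- elements of every possible order -/
lemma exists_order {m : ℕ} (hm : m ∣ Fintype.card F - 1) :
    ∃ g : Fˣ, orderOf g = m := by
  classical
  obtain ⟨g, hg⟩ := IsCyclic.exists_ofOrder_eq_natCard (α := Fˣ)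
  have h1 : Nat.card Fˣ = Fintype.card F - 1 := by
    rw [Nat.card_eq_fintype_card, Fintype.card_units]
  rw [h1] at hg
  obtain ⟨l, hl⟩ := hm
  have hpos : 0 < Fintype.card F - 1 := by
    have := Fintype.one_lt_card (α := F)
    omega
  have hl0 : l ≠ 0 := by
    rintro rfl
    rw [mul_zero] at hl
    omega
  refine ⟨g ^ l, ?_⟩
  have h2 : l ∣ orderOf g := by rw [hg, hl]; exact Dvd.intro_left m rfl
  rw [orderOf_pow_of_dvd hl0 h2, hg, hl, Nat.mul_div_cancel _ (Nat.pos_of_ne_zero hl0)]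

lemma card_K_ge {n : ℕ} (hn : 2 ^ n - 1 ∣ Fintype.card F - 1) (hn0 : n ≠ 0) :
    2 ^ n ≤ Nat.card (K F n) := by
  classical
  have h2 : 2 ≤ 2 ^ n := by
    calc 2 = 2 ^ 1 := (pow_one 2).symm
      _ ≤ 2 ^ n := Nat.pow_le_pow_right (by norm_num) (Nat.one_le_iff_ne_zero.mpr hn0)
  obtain ⟨g, hg⟩ := exists_order (F := F) hn
  let s : Finset F := insert 0 ((range (2 ^ n - 1)).image fun j => ((g ^ j : Fˣ) : F))
  have hs : s.card = 2 ^ n := by
    rw [Finset.card_insert_of_notMem, Finset.card_image_of_injOn, card_range]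
    · omega
    · intro a ha b hb hab
      have h3 : g ^ a = g ^ b := Units.ext hab
      rw [mem_coe, mem_range] at ha hb
      exact pow_injOn_Iio_orderOf (by rw [Set.mem_Iio, hg]; exact ha)
        (by rw [Set.mem_Iio, hg]; exact hb) h3
    · rw [mem_image]
      rintro ⟨j, _, hj⟩
      exact Units.ne_zero _ hj
  have hsub : ∀ x ∈ s, x ∈ K F n := by
    intro x hx
    rw [mem_insert, mem_image] at hx
    rcases hx with rfl | ⟨j, _, rfl⟩
    · exact zero_mem _
    · rw [mem_K, fr_apply]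
      have h4 : (g ^ j) ^ (2 ^ n) = g ^ j := by
        have h5 : (2:ℕ) ^ n = (2 ^ n - 1) + 1 := by omega
        rw [h5, pow_succ, ← pow_mul, mul_comm j, pow_mul, ← hg, pow_orderOf_eq_one, one_pow,
          one_mul]
      rw [← Units.val_pow_eq_pow_val, h4]
  have : Fintype (K F n) := Fintype.ofFinite _
  rw [← hs, Nat.card_eq_fintype_card, ← Fintype.card_coe s]
  exact Fintype.card_le_of_injective (fun x : s => (⟨x.1, hsub x.1 x.2⟩ : K F n))
    (fun a b hab => Subtype.ext (congrArg (fun z : K F n => (z : F)) hab))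

lemma card_K {n : ℕ} (hn : 2 ^ n - 1 ∣ Fintype.card F - 1) (hn0 : n ≠ 0) :
    Nat.card (K F n) = 2 ^ n := by
  classical
  refine le_antisymm ?_ (card_K_ge hn hn0)
  have h1 : 1 < 2 ^ n := Nat.one_lt_two_pow hn0
  have : Fintype (K F n) := Fintype.ofFinite _
  set p : Polynomial F := Polynomial.X ^ (2 ^ n) - Polynomial.X with hp
  have hp0 : p ≠ 0 := FiniteField.X_pow_card_sub_X_ne_zero F h1
  have hsub : ∀ x ∈ K F n, x ∈ p.roots.toFinset := by
    intro x hx
    rw [Multiset.mem_toFinset, Polynomial.mem_roots hp0, Polynomial.IsRoot.def, hp]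
    rw [mem_K, fr_apply] at hx
    simp [hx]
  calc Nat.card (K F n) = Fintype.card (K F n) := Nat.card_eq_fintype_card
    _ ≤ Fintype.card p.roots.toFinset :=
      Fintype.card_le_of_injective (fun x : K F n => (⟨x.1, hsub x.1 x.2⟩ : p.roots.toFinset))
        (fun a b hab => Subtype.ext (congrArg (fun z : p.roots.toFinset => (z : F)) hab))
    _ = p.roots.toFinset.card := Fintype.card_coe _
    _ ≤ p.roots.card := Multiset.toFinset_card_le _
    _ ≤ p.natDegree := Polynomial.card_roots' _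
    _ = 2 ^ n := FiniteField.X_pow_card_sub_X_natDegree_eq F h1

/-- `l ↦ l + l ^ (2 ^ n)` maps the field with `2 ^ (2 n)` elements onto the field with `2 ^ n`
elements -/
lemma artin_onto {n : ℕ} (hn0 : n ≠ 0) (hn : 2 ^ (n + n) - 1 ∣ Fintype.card F - 1) {κ : F}
    (hκ : fr F n κ = κ) : ∃ l : F, fr F (n + n) l = l ∧ l + fr F n l = κ := by
  have h2 : 2 ≤ 2 ^ n := by
    calc 2 = 2 ^ 1 := (pow_one 2).symm
      _ ≤ 2 ^ n := Nat.pow_le_pow_right (by norm_num) (Nat.one_le_iff_ne_zero.mpr hn0)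
  have h22 : 2 ^ n < 2 ^ (n + n) := by
    rw [pow_add]; nlinarith
  obtain ⟨g, hg⟩ := exists_order (F := F) hn
  have hg1 : fr F (n + n) (g : F) = g := by
    rw [fr_apply]
    have h4 : g ^ (2 ^ (n + n)) = g := by
      have h5 : (2:ℕ) ^ (n + n) = (2 ^ (n + n) - 1) + 1 := by omega
      rw [h5, pow_succ, ← hg, pow_orderOf_eq_one, one_mul]
    rw [← Units.val_pow_eq_pow_val, h4]
  set c : F := (g : F) + fr F n g with hc
  have hc0 : c ≠ 0 := by
    intro h0
    have h3 : fr F n (g : F) = g := by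
      have := eq_neg_of_add_eq_zero_right h0
      rwa [CharTwo.neg_eq] at this
    rw [fr_apply, ← Units.val_pow_eq_pow_val] at h3
    have h4 : g ^ (2 ^ n) = g := Units.ext h3
    have h5 : g ^ (2 ^ n - 1) = 1 := by
      have h6 : (2:ℕ) ^ n = (2 ^ n - 1) + 1 := by omega
      rw [h6, pow_succ] at h4
      exact mul_eq_right.mp h4
    have h7 := orderOf_dvd_of_pow_eq_one h5
    rw [hg] at h7
    have := Nat.le_of_dvd (by omega) h7
    omega
  have hcf : fr F n c = c := by
    rw [hc, map_add, ← fr_add_index, hg1, add_comm]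
  refine ⟨κ * c⁻¹ * g, ?_, ?_⟩
  · rw [fr_mul, fr_mul, fr_inv, hg1, fr_fix_double hκ, fr_fix_double hcf]
  · rw [fr_mul, fr_mul, fr_inv, hκ, hcf, ← mul_add, ← hc, mul_assoc, inv_mul_cancel₀ hc0, mul_one]

/-- the coefficients of the quadratic forms -/
lemma exists_coeff {n : ℕ} (hn0 : n ≠ 0) (hn : 2 ^ (n + n) - 1 ∣ Fintype.card F - 1) :
    ∃ w : F → F, ∀ ρ d y : F, d ≠ 0 → fr F (n + n) d = ρ * d → y ≠ 0 → fr F n y = y →
      ∃ l : F, fr F (n + n) l = l ∧
        Algebra.trace (ZMod 2) F (y * w ρ * ((l + fr F n l) * (d * fr F n d))) ≠ 0 := by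
  classical
  obtain ⟨θ, hθ⟩ := Algebra.trace_surjective (ZMod 2) F 1
  have hex : ∀ ρ : F, ∃ z : F, ∀ d y : F, d ≠ 0 → fr F (n + n) d = ρ * d → y ≠ 0 → fr F n y = y →
      ∃ l : F, fr F (n + n) l = l ∧
        Algebra.trace (ZMod 2) F (y * z * ((l + fr F n l) * (d * fr F n d))) ≠ 0 := by
    intro ρ
    by_cases h : ∃ d0 : F, d0 ≠ 0 ∧ fr F (n + n) d0 = ρ * d0
    · obtain ⟨d0, hd0, hρ⟩ := h
      have hN0 : d0 * fr F n d0 ≠ 0 := mul_ne_zero hd0 (fr_ne_zero hd0)
      refine ⟨θ * (d0 * fr F n d0)⁻¹, ?_⟩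
      intro d y hd hdρ hy hyK
      set g : F := d * d0⁻¹ with hg
      have hg0 : g ≠ 0 := mul_ne_zero hd (inv_ne_zero hd0)
      have hdg : d = g * d0 := by rw [hg, mul_assoc, inv_mul_cancel₀ hd0, mul_one]
      have hρ0 : ρ ≠ 0 := by
        rintro rfl
        rw [zero_mul] at hρ
        exact fr_ne_zero hd0 hρ
      have hgK : fr F (n + n) g = g := by
        rw [hg, fr_mul, fr_inv, hρ, hdρ]
        field_simp
      set ν : F := g * fr F n g with hν
      have hν0 : ν ≠ 0 := mul_ne_zero hg0 (fr_ne_zero hg0)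
      have hνK : fr F n ν = ν := by
        rw [hν, fr_mul, ← fr_add_index, hgK, mul_comm]
      obtain ⟨l, hl1, hl2⟩ := artin_onto (F := F) hn0 hn (κ := (y * ν)⁻¹)
        (by rw [fr_inv, fr_mul, hyK, hνK])
      refine ⟨l, hl1, ?_⟩
      have e1 : y * (θ * (d0 * fr F n d0)⁻¹) * ((l + fr F n l) * (d * fr F n d)) = θ := by
        rw [hl2]
        have e2 : d * fr F n d = ν * (d0 * fr F n d0) := by
          rw [hν, hdg, fr_mul]; ring
        rw [e2]
        have hz : fr F n d0 ≠ 0 := fr_ne_zero hd0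
        field_simp
      rw [e1, hθ]
      exact one_ne_zero
    · refine ⟨0, ?_⟩
      intro d y hd hdρ
      exact absurd ⟨d, hd, hdρ⟩ h
  choose w hw using hex
  exact ⟨w, fun ρ d y h1 h2 h3 h4 => hw ρ d y h1 h2 h3 h4⟩

end Pool.Agent.Lib.MP_f8d60a_co.One
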