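import Mathlib
import Pool.Agent.Lib.MP_f8d60a_co.OneAbs
import Pool.Agent.Lib.MP_f8d60a_co.OneField

/-! The data `N`, `Q`, `P` built from the tower of subfields of the field with `2 ^ (2 ^ k)`
elements. -/

open Finset

namespace Pool.Agent.Lib.MP_f8d60a_co.One

variable (F : Type*) [Field F] [Fintype F] [Algebra (ZMod 2) F] (k : ℕ)

/-- half of the degree of the `i`-th field of the tower -/
def hd (i : Fin k) : ℕ := 2 ^ (k - 1 - (i : ℕ))

/-- the space of parameters -/
abbrev U : Type _ := (i : Fin k) → (K F (hd k i)) × (F → F)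

/-- the target space -/
abbrev T : Type _ := Fin k → F → F

/-- the bilinear map -/
noncomputable def N : F →ₗ[ZMod 2] U F k →ₗ[ZMod 2] T F k :=
  LinearMap.mk₂ (ZMod 2)
    (fun d b i ρ => d * (((b i).1 : F) + ∑ ρ', (b i).2 ρ')
      + (fr F (hd k i + hd k i) d + ρ * d) * (b i).2 ρ)
    (by
      intro d d' b
      funext i ρ
      simp only [map_add, Pi.add_apply]
      ring)
    (by
      intro c d b
      funext i ρ
      simp only [map_smul, Pi.smul_apply, smul_mul_assoc, mul_smul_comm, ← smul_add])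
    (by
      intro d b b'
      funext i ρ
      simp only [Pi.add_apply, Prod.fst_add, Prod.snd_add, Submodule.coe_add,
        Finset.sum_add_distrib]
      ring)
    (by
      intro c d b
      funext i ρ
      simp only [Pi.smul_apply, Prod.smul_fst, Prod.smul_snd, Submodule.coe_smul,
        ← Finset.smul_sum, smul_add, mul_smul_comm, mul_add])

lemma N_apply (d : F) (b : U F k) (i : Fin k) (ρ : F) :
    N F k d b i ρ = d * (((b i).1 : F) + ∑ ρ', (b i).2 ρ')
      + (fr F (hd k i + hd k i) d + ρ * d) * (b i).2 ρ := rfl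

/-- the evaluation form -/
noncomputable def E (w : Fin k → F → F) : (Fin k → F) →ₗ[ZMod 2] Module.Dual (ZMod 2) (U F k) :=
  LinearMap.mk₂ (ZMod 2)
    (fun g b => Algebra.trace (ZMod 2) F (∑ i, ∑ ρ, (b i).2 ρ * w i ρ * g i))
    (by
      intro g g' b
      simp only [Pi.add_apply, mul_add, Finset.sum_add_distrib, map_add])
    (by
      intro c g b
      simp only [Pi.smul_apply, mul_smul_comm, ← Finset.smul_sum, map_smul])
    (by
      intro g b b'
      simp only [Pi.add_apply, Prod.snd_add, add_mul, Finset.sum_add_distrib, map_add])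
    (by
      intro c g b
      simp only [Pi.smul_apply, Prod.smul_snd, smul_mul_assoc, ← Finset.smul_sum, map_smul])

lemma E_apply (w : Fin k → F → F) (g : Fin k → F) (b : U F k) :
    E F k w g b = Algebra.trace (ZMod 2) F (∑ i, ∑ ρ, (b i).2 ρ * w i ρ * g i) := rfl

/-- the quadratic map -/
noncomputable def Q (w : Fin k → F → F) (e : F) : Module.Dual (ZMod 2) (U F k) :=
  E F k w (fun i => e * fr F (hd k i) e)

/-- its polar form -/
noncomputable def P (w : Fin k → F → F) :
    F →ₗ[ZMod 2] F →ₗ[ZMod 2] Module.Dual (ZMod 2) (U F k) :=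
  LinearMap.mk₂ (ZMod 2)
    (fun e d => E F k w (fun i => e * fr F (hd k i) d + fr F (hd k i) e * d))
    (by
      intro e e' d
      rw [← map_add]
      congr 1
      funext i
      simp only [map_add, Pi.add_apply]
      ring)
    (by
      intro c e d
      rw [← map_smul]
      congr 1
      funext i
      simp only [map_smul, Pi.smul_apply, smul_add, smul_mul_assoc])
    (by
      intro e d d'
      rw [← map_add]
      congr 1
      funext i
      simp only [map_add, Pi.add_apply]
      ring)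
    (by
      intro c e d
      rw [← map_smul]
      congr 1
      funext i
      simp only [map_smul, Pi.smul_apply, smul_add, mul_smul_comm])

lemma P_apply (w : Fin k → F → F) (e d : F) :
    P F k w e d = E F k w (fun i => e * fr F (hd k i) d + fr F (hd k i) e * d) := rfl

lemma Q_add (w : Fin k → F → F) (e d : F) :
    Q F k w (e + d) = Q F k w e + Q F k w d + P F k w e d := by
  rw [Q, Q, Q, P_apply, ← map_add, ← map_add]
  congr 1
  funext i
  simp only [map_add, Pi.add_apply]
  ring

lemma hd_double (i : Fin k) : hd k i + hd k i = 2 ^ (k - (i : ℕ)) := by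
  have := i.2
  rw [hd, ← mul_two, ← pow_succ]
  congr 1
  omega

lemma hd_dvd {F : Type*} [Fintype F] {k : ℕ} (hF : Fintype.card F = 2 ^ 2 ^ k) (i : Fin k) :
    2 ^ (hd k i + hd k i) - 1 ∣ Fintype.card F - 1 := by
  rw [hF, hd_double]
  obtain ⟨l, hl⟩ : 2 ^ (k - (i : ℕ)) ∣ 2 ^ k := pow_dvd_pow 2 (by omega)
  rw [hl, pow_mul]
  have := Nat.sub_dvd_pow_sub_pow (2 ^ 2 ^ (k - (i : ℕ))) 1 l
  rwa [one_pow] at this

lemma hd_dvd' {F : Type*} [Fintype F] {k : ℕ} (hF : Fintype.card F = 2 ^ 2 ^ k) (i : Fin k) :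
    2 ^ (hd k i) - 1 ∣ Fintype.card F - 1 := by
  refine dvd_trans ?_ (hd_dvd hF i)
  have := Nat.sub_dvd_pow_sub_pow (2 ^ hd k i) 1 2
  rwa [one_pow, ← pow_mul, mul_two] at this

/-- the nondegeneracy of the quadratic data -/
theorem key (hF : Fintype.card F = 2 ^ 2 ^ k) :
    ∃ w : Fin k → F → F, ∀ b : U F k, b ≠ 0 → ∀ d : F, d ≠ 0 → N F k d b = 0 →
      ∃ e, N F k e b = 0 ∧ P F k w e d b ≠ 0 := by
  classical
  have hhd0 : ∀ i : Fin k, hd k i ≠ 0 := fun i => by rw [hd]; positivity
  choose w hw using fun i : Fin k => exists_coeff (F := F) (hhd0 i) (hd_dvd hF i)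
  refine ⟨w, ?_⟩
  intro b hb d hd0 hN
  set ρ0 : Fin k → F := fun i => fr F (hd k i + hd k i) d * d⁻¹ with hρ0
  have hρd : ∀ i, ρ0 i * d = fr F (hd k i + hd k i) d := by
    intro i
    rw [hρ0]
    simp only
    rw [mul_assoc, inv_mul_cancel₀ hd0, mul_one]
  have hNi : ∀ i ρ, d * (((b i).1 : F) + ∑ ρ', (b i).2 ρ')
      + (fr F (hd k i + hd k i) d + ρ * d) * (b i).2 ρ = 0 := by
    intro i ρ
    rw [← N_apply, hN]
    rfl
  have hsum : ∀ i, ((b i).1 : F) + ∑ ρ', (b i).2 ρ' = 0 := by
    intro i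
    have h1 := hNi i (ρ0 i)
    rw [hρd, CharTwo.add_self_eq_zero, zero_mul, add_zero] at h1
    exact (mul_eq_zero.mp h1).resolve_left hd0
  have hoff : ∀ i ρ, ρ ≠ ρ0 i → (b i).2 ρ = 0 := by
    intro i ρ hρ
    have h1 := hNi i ρ
    rw [hsum, mul_zero, zero_add] at h1
    refine (mul_eq_zero.mp h1).resolve_left ?_
    intro h2
    apply hρ
    have h3 : ρ * d = ρ0 i * d := by
      rw [hρd]
      have := eq_neg_of_add_eq_zero_right h2
      rwa [CharTwo.neg_eq] at this
    exact mul_right_cancel₀ hd0 h3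
  have hon : ∀ i, (b i).2 (ρ0 i) = ((b i).1 : F) := by
    intro i
    have h1 := hsum i
    rw [Finset.sum_eq_single (ρ0 i) (fun ρ _ h => hoff i ρ h)
      (fun h => absurd (mem_univ _) h)] at h1
    have := eq_neg_of_add_eq_zero_right h1
    rwa [CharTwo.neg_eq] at this
  have hzero : ∀ i, ((b i).1 : F) = 0 → ∀ ρ, (b i).2 ρ = 0 := by
    intro i hi ρ
    by_cases h : ρ = ρ0 i
    · rw [h, hon, hi]
    · exact hoff i ρ h
  -- some `y_i` is nonzero
  have hex : ∃ i, ((b i).1 : F) ≠ 0 := by
    by_contra hcon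
    push Not at hcon
    apply hb
    funext i
    refine Prod.ext ?_ ?_
    · exact Subtype.ext (hcon i)
    · funext ρ
      exact hzero i (hcon i) ρ
  -- the largest index
  obtain ⟨m, hm, hmax⟩ : ∃ m : Fin k, ((b m).1 : F) ≠ 0 ∧ ∀ i, m < i → ((b i).1 : F) = 0 := by
    set s : Finset (Fin k) := univ.filter fun i => ((b i).1 : F) ≠ 0
    have hs : s.Nonempty := by
      obtain ⟨i, hi⟩ := hex
      exact ⟨i, mem_filter.mpr ⟨mem_univ _, hi⟩⟩
    refine ⟨s.max' hs, (mem_filter.mp (s.max'_mem hs)).2, ?_⟩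
    intro i hi
    by_contra hne
    exact absurd (s.le_max' i (mem_filter.mpr ⟨mem_univ _, hne⟩)) (not_le.mpr hi)
  have hym : fr F (hd k m) ((b m).1 : F) = ((b m).1 : F) := mem_K.mp (b m).1.2
  obtain ⟨l, hl1, hl2⟩ := hw m (ρ0 m) d ((b m).1 : F) hd0 (hρd m).symm hm hym
  have hl1' : fr F (2 ^ (k - (m : ℕ))) l = l := by rw [← hd_double]; exact hl1
  refine ⟨l * d, ?_, ?_⟩
  · funext i ρ
    rw [N_apply, hsum i, mul_zero, zero_add]
    change _ = (0 : F)
    by_cases him : m < i
    · rw [hzero i (hmax i him) ρ, mul_zero]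
    · by_cases hρ : ρ = ρ0 i
      · have h3 : fr F (hd k i + hd k i) l = l := by
          rw [hd_double]
          exact fr_fix_pow (by have := not_lt.mp him; have : (i : ℕ) ≤ m := this; omega) hl1'
        have h4 : ρ * (l * d) = l * fr F (hd k i + hd k i) d := by
          rw [hρ, ← hρd i]; ring
        rw [fr_mul, h3, h4, CharTwo.add_self_eq_zero, zero_mul]
      · rw [hoff i ρ hρ, mul_zero]
  · rw [P_apply, E_apply]
    have h5 : ∑ i, ∑ ρ, (b i).2 ρ * w i ρ * (l * d * fr F (hd k i) d + fr F (hd k i) (l * d) * d)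
        = ((b m).1 : F) * w m (ρ0 m) * ((l + fr F (hd k m) l) * (d * fr F (hd k m) d)) := by
      rw [Finset.sum_eq_single m]
      · rw [Finset.sum_eq_single (ρ0 m)]
        · rw [hon m, fr_mul]; ring
        · intro ρ _ hρ
          rw [hoff m ρ hρ, zero_mul, zero_mul]
        · intro h; exact absurd (mem_univ _) h
      · intro i _ him
        apply Finset.sum_eq_zero
        intro ρ _
        rcases lt_or_gt_of_ne him with h | h
        · have h6 : fr F (hd k i) l = l := by
            rw [hd]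
            refine fr_fix_pow ?_ hl1'
            have : (i : ℕ) < m := h
            omega
          rw [fr_mul, h6]
          have h7 : l * d * fr F (hd k i) d + l * fr F (hd k i) d * d = 0 := by
            have : l * fr F (hd k i) d * d = l * d * fr F (hd k i) d := by ring
            rw [this, CharTwo.add_self_eq_zero]
          rw [h7, mul_zero]
        · rw [hzero i (hmax i h) ρ, zero_mul, zero_mul]
      · intro h; exact absurd (mem_univ _) h
    rw [h5]
    exact hl2

end Pool.Agent.Lib.MP_f8d60a_co.One
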