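import Mathlib
import Pool.Agent.Lib.MP_f8d60a_co.Master
import Pool.Agent.Lib.MP_f8d60a_co.OneTower

/-! `f 2 = 1`. -/

open Finset N8b55e67f Filter
open scoped ENNReal Pointwise Topology

namespace Pool.Agent.Lib.MP_f8d60a_co.One

/-- every element is a sum of two members of a family: density bound -/
lemma density_of_pairs {ι Z : Type*} [Fintype ι] [DecidableEq ι]
    [AddCommGroup Z] [Module (ZMod 2) Z] [Finite Z] (p : ι → Z)
    (h : ∀ z, ∃ i j, i ≠ j ∧ p i + p j = z) :
    minDensity (Fintype.card ι) 2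
      ≤ (Nat.card (hammingBall (Fintype.card ι) 2) : ℝ≥0∞) / (Nat.card Z : ℝ≥0∞) := by
  refine minDensity_le_of_map (Fintype.equivFin ι).symm (Fintype.linearCombination (ZMod 2) p) ?_
  intro z
  obtain ⟨i, j, _, hp⟩ := h z
  refine ⟨Pi.single i 1 + Pi.single j 1, ?_, ?_⟩
  · rw [hammingNorm]
    refine le_trans (Finset.card_le_card (t := {i, j}) ?_) Finset.card_le_two
    intro k hk
    simp only [mem_filter, mem_univ, true_and, Pi.add_apply] at hk
    rw [mem_insert, mem_singleton]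
    by_contra hne
    rw [not_or] at hne
    apply hk
    rw [Pi.single_apply, Pi.single_apply, if_neg hne.1, if_neg hne.2, add_zero]
  · rw [map_add, Fintype.linearCombination_apply_single,
      Fintype.linearCombination_apply_single, one_smul, one_smul, hp]

lemma finrank_of_card {M : Type*} [AddCommGroup M] [Module (ZMod 2) M] [Finite M] {n : ℕ}
    (h : Nat.card M = 2 ^ n) : Module.finrank (ZMod 2) M = n := by
  have : Fintype M := Fintype.ofFinite _
  have h1 := Module.card_eq_pow_finrank (K := ZMod 2) (V := M)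
  rw [← Nat.card_eq_fintype_card, h, ZMod.card] at h1
  exact (Nat.pow_right_injective (le_refl 2) h1).symm

lemma card_of_finrank {M : Type*} [AddCommGroup M] [Module (ZMod 2) M] [Finite M] {n : ℕ}
    (h : Module.finrank (ZMod 2) M = n) : Nat.card M = 2 ^ n := by
  have : Fintype M := Fintype.ofFinite _
  have h1 := Module.card_eq_pow_finrank (K := ZMod 2) (V := M)
  rw [← Nat.card_eq_fintype_card, h, ZMod.card] at h1
  exact h1

lemma sum_hd (k : ℕ) : ∑ i : Fin k, hd k i = 2 ^ k - 1 := by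
  have h1 : ∑ i : Fin k, hd k i = ∑ i ∈ range k, 2 ^ (k - 1 - i) := by
    rw [← Fin.sum_univ_eq_sum_range (fun i => 2 ^ (k - 1 - i)) k]
    rfl
  rw [h1, Finset.sum_range_reflect (fun i => 2 ^ i) k]
  have := Nat.geomSum_eq (m := 2) (le_refl 2) k
  simpa using this

section counts

variable (F : Type*) [Field F] [Fintype F] [Algebra (ZMod 2) F] (k : ℕ)

/-- dimension of the target space -/
def sdim (k : ℕ) : ℕ := k * (2 ^ k * 2 ^ 2 ^ k)

omit [Field F] [Algebra (ZMod 2) F] in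
lemma card_T (hF : Fintype.card F = 2 ^ 2 ^ k) : Nat.card (T F k) = 2 ^ sdim k := by
  rw [Nat.card_fun, Nat.card_fun, Nat.card_eq_fintype_card (α := F), hF,
    Nat.card_eq_fintype_card (α := Fin k), Fintype.card_fin, sdim, ← pow_mul, ← pow_mul]
  congr 1
  ring

lemma card_U (hF : Fintype.card F = 2 ^ 2 ^ k) :
    Nat.card (U F k) = 2 ^ (sdim k + (2 ^ k - 1)) := by
  rw [Nat.card_pi]
  have h1 : ∀ i : Fin k, Nat.card ((K F (hd k i)) × (F → F))
      = 2 ^ (hd k i) * 2 ^ (2 ^ k * 2 ^ 2 ^ k) := by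
    intro i
    rw [Nat.card_prod, card_K (hd_dvd' hF i) (by rw [hd]; positivity), Nat.card_fun,
      Nat.card_eq_fintype_card (α := F), hF, ← pow_mul]
  rw [Finset.prod_congr rfl (fun i _ => h1 i), Finset.prod_mul_distrib, Finset.prod_pow_eq_pow_sum,
    sum_hd, Finset.prod_const, card_univ, Fintype.card_fin, ← pow_mul, ← pow_add, sdim]
  congr 1
  ring

end counts

/-- the covering family -/
theorem exists_family (k : ℕ) (hk : 1 ≤ k) :
    ∃ (ι Z : Type) (_ : Fintype ι) (_ : DecidableEq ι) (_ : AddCommGroup Z)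
      (_ : Module (ZMod 2) Z) (_ : Finite Z) (p : ι → Z),
      Fintype.card ι = 2 ^ (sdim k + 2 ^ k) + (2 ^ (sdim k + 2 ^ (k - 1))
        + 2 ^ (sdim k + 2 ^ (k - 1) - 1)) ∧
      Nat.card Z = 2 ^ (2 * sdim k + 2 * 2 ^ k - 1) ∧
      ∀ z, ∃ i j, i ≠ j ∧ p i + p j = z := by
  classical
  have hk2 : 2 ^ k = 2 * 2 ^ (k - 1) := by
    rw [← pow_succ']; congr 1; omega
  have hk3 : 1 ≤ 2 ^ (k - 1) := Nat.one_le_two_pow
  let F := GaloisField 2 (2 ^ k)
  have : Fintype F := Fintype.ofFinite _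
  have hF : Fintype.card F = 2 ^ 2 ^ k := by
    rw [← Nat.card_eq_fintype_card]
    exact GaloisField.card 2 (2 ^ k) (by positivity)
  obtain ⟨w, hw⟩ := key F k hF
  let DT := Module.Dual (ZMod 2) (T F k)
  let DU := Module.Dual (ZMod 2) (U F k)
  have : Finite DT := Module.finite_of_finite (ZMod 2)
  have : Finite DU := Module.finite_of_finite (ZMod 2)
  have fT : Module.finrank (ZMod 2) DT = sdim k := by
    rw [Subspace.dual_finrank_eq]; exact finrank_of_card (card_T F k hF)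
  have fU : Module.finrank (ZMod 2) DU = sdim k + (2 ^ k - 1) := by
    rw [Subspace.dual_finrank_eq]; exact finrank_of_card (card_U F k hF)
  have fF : Module.finrank (ZMod 2) F = 2 ^ k :=
    finrank_of_card (by rw [Nat.card_eq_fintype_card, hF])
  set a := sdim k + 2 ^ (k - 1) with ha
  have hfr : Module.finrank (ZMod 2) (DT × DU)
      = Module.finrank (ZMod 2) ((Fin a → ZMod 2) × (Fin (a - 1) → ZMod 2)) := by
    rw [Module.finrank_prod, Module.finrank_prod, fT, fU, Module.finrank_fin_fun,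
      Module.finrank_fin_fun]
    omega
  let Φ : (DT × DU) ≃ₗ[ZMod 2] ((Fin a → ZMod 2) × (Fin (a - 1) → ZMod 2)) :=
    LinearEquiv.ofFinrankEq _ _ hfr
  have : Fintype (DT × F) := Fintype.ofFinite _
  let ι : Type := (DT × F) ⊕ ((Fin a → ZMod 2) ⊕ (Fin (a - 1) → ZMod 2))
  let Z : Type := (DT × F) × DU
  let emb : DT × DU → Z := fun h => ((h.1, 0), h.2)
  let p : ι → Z := Sum.elim
    (fun v => (v, (N F k v.2).dualMap v.1 + Q F k w v.2))
    (Sum.elim (fun u => emb (Φ.symm (u, 0))) (fun u => emb (Φ.symm (0, u))))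
  refine ⟨ι, Z, inferInstance, Classical.decEq _, inferInstance, inferInstance, inferInstance, p,
    ?_, ?_, ?_⟩
  · have h1 : Fintype.card (DT × F) = 2 ^ (sdim k + 2 ^ k) := by
      rw [← Nat.card_eq_fintype_card]
      apply card_of_finrank
      rw [Module.finrank_prod, fT, fF]
    rw [Fintype.card_sum, Fintype.card_sum, h1]
    simp
  · apply card_of_finrank
    rw [Module.finrank_prod, Module.finrank_prod, fT, fF, fU]
    have : 1 ≤ 2 ^ k := Nat.one_le_two_pow
    omega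
  · rintro ⟨⟨α, d⟩, z⟩
    by_cases hd : d = 0
    · subst hd
      refine ⟨Sum.inr (Sum.inl (Φ (α, z)).1), Sum.inr (Sum.inr (Φ (α, z)).2), ?_, ?_⟩
      · intro h
        exact absurd (Sum.inr.inj h) (by simp)
      · have h1 : Φ.symm ((Φ (α, z)).1, 0) + Φ.symm (0, (Φ (α, z)).2) = (α, z) := by
          rw [← map_add, Prod.mk_add_mk, add_zero, zero_add, Prod.mk.eta, Φ.symm_apply_apply]
        have h2 := Prod.ext_iff.mp h1
        refine Prod.ext (Prod.ext ?_ ?_) ?_
        · exact h2.1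
        · exact add_zero 0
        · exact h2.2
    · obtain ⟨x, e, hxe⟩ := onto (N F k) (Q F k w) (P F k w) (Q_add F k w) hw α d hd z
      refine ⟨Sum.inl (x, e), Sum.inl (x + α, e + d), ?_, ?_⟩
      · intro h
        have h1 := congrArg Prod.snd (Sum.inl.inj h)
        apply hd
        have h2 : e = e + d := h1
        exact left_eq_add.mp h2
      · refine Prod.ext (Prod.ext ?_ ?_) ?_
        · change x + (x + α) = α
          rw [← add_assoc, add_self2, zero_add]
        · change e + (e + d) = d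
          rw [← add_assoc, add_self2, zero_add]
        · exact hxe

/-- the density along the constructed family -/
lemma density_k (k : ℕ) (hk : 1 ≤ k) :
    ∃ n : ℕ, k ≤ n ∧ minDensity n 2 ≤ ENNReal.ofReal (1 + 16 / 2 ^ k) := by
  obtain ⟨ι, Z, _, _, _, _, _, p, hι, hZ, hp⟩ := exists_family k hk
  have h1 := density_of_pairs p hp
  set n := Fintype.card ι with hn
  rw [hZ] at h1
  set s := sdim k
  set M : ℝ := 2 ^ s with hM
  have hM1 : 1 ≤ M := one_le_pow₀ (by norm_num)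
  set q : ℝ := 2 ^ 2 ^ (k - 1) with hq
  have hk1 : 1 ≤ 2 ^ (k - 1) := Nat.one_le_two_pow
  have hk2 : 2 ^ k = 2 * 2 ^ (k - 1) := by
    rw [← pow_succ']; congr 1; omega
  have hq2 : 2 ≤ q := by
    calc (2:ℝ) = 2 ^ 1 := (pow_one 2).symm
      _ ≤ q := pow_le_pow_right₀ (by norm_num) hk1
  have hqk : (2:ℝ) ^ k ≤ 2 * q := by
    have h2 : k ≤ 1 + 2 ^ (k - 1) := by
      have := Nat.lt_two_pow_self (n := k - 1)
      omega
    calc (2:ℝ) ^ k ≤ 2 ^ (1 + 2 ^ (k - 1)) := pow_le_pow_right₀ (by norm_num) h2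
      _ = 2 * q := by rw [pow_add, pow_one]
  have hnR : (n : ℝ) = M * q ^ 2 + M * q + M * q / 2 := by
    rw [hι]
    push_cast
    have e1 : (2:ℝ) ^ (s + 2 ^ k) = M * q ^ 2 := by
      rw [pow_add, hk2, hq, ← pow_mul, mul_comm 2]
    have e2 : (2:ℝ) ^ (s + 2 ^ (k - 1)) = M * q := by rw [pow_add]
    have e3 : (2:ℝ) ^ (s + 2 ^ (k - 1) - 1) = M * q / 2 := by
      rw [eq_div_iff (by norm_num), ← pow_succ, ← e2]
      congr 1
      omega
    rw [e1, e2, e3]
    ring
  have hZR : (2:ℝ) ^ (2 * s + 2 * 2 ^ k - 1) = M ^ 2 * q ^ 4 / 2 := by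
    rw [eq_div_iff (by norm_num), ← pow_succ]
    have e1 : 2 * s + 2 * 2 ^ k - 1 + 1 = s * 2 + 2 ^ (k - 1) * 4 := by omega
    rw [e1, pow_add, pow_mul, pow_mul]
  have hn1 : 1 ≤ n := by
    have : (0:ℝ) < n := by rw [hnR]; positivity
    exact_mod_cast this
  have hkn : k ≤ n := by
    have h2 : k ≤ 2 ^ (s + 2 ^ k) := by
      have h3 := Nat.lt_two_pow_self (n := k)
      have h4 := Nat.lt_two_pow_self (n := s + 2 ^ k)
      omega
    rw [hι]
    exact h2.trans (Nat.le_add_right _ _)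
  refine ⟨n, hkn, h1.trans ?_⟩
  have h2 : (Nat.card (hammingBall n 2) : ℝ)
      ≤ (n:ℝ)^2 / (2:ℕ).factorial + (2:ℕ) * (n:ℝ)^(2-1) := by
    refine le_trans ?_ (sum_choose_le (n := n) (r := 2) hn1 (by norm_num))
    exact_mod_cast card_ball_le _ _
  have h3 : (Nat.card (hammingBall n 2) : ℝ) / (2:ℝ) ^ (2 * s + 2 * 2 ^ k - 1) ≤ 1 + 16 / 2 ^ k := by
    rw [div_le_iff₀ (by positivity)]
    refine h2.trans ?_
    have h5 : ((2:ℕ).factorial : ℝ) = 2 := by norm_num
    rw [h5, hZR]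
    have h6 : (8:ℝ) / q ≤ 16 / 2 ^ k := by
      rw [div_le_div_iff₀ (by positivity) (by positivity)]
      linarith
    have h7 : (n:ℝ) ^ 2 / 2 + (2:ℕ) * (n:ℝ) ^ (2 - 1) ≤ (1 + 8 / q) * (M ^ 2 * q ^ 4 / 2) := by
      have e1 : (1 + 8 / q) * (M ^ 2 * q ^ 4 / 2) = M ^ 2 * q ^ 4 / 2 + 4 * (M ^ 2 * q ^ 3) := by
        field_simp
        ring
      rw [e1, hnR]
      push_cast
      have e2 : (M * q ^ 2 + M * q + M * q / 2) ^ 2 / 2
          = M ^ 2 * q ^ 4 / 2 + 3 / 2 * (M ^ 2 * q ^ 3) + 9 / 8 * (M ^ 2 * q ^ 2) := by ring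
      rw [e2]
      have e3 : M ^ 2 * q ^ 2 ≤ M ^ 2 * q ^ 3 / 2 := by
        have : M ^ 2 * q ^ 3 / 2 = M ^ 2 * q ^ 2 * (q / 2) := by ring
        rw [this]
        apply le_mul_of_one_le_right (by positivity)
        linarith
      have e4 : M * q ^ 2 ≤ M ^ 2 * q ^ 3 / 2 := by
        refine le_trans ?_ e3
        have : M ^ 2 * q ^ 2 = M * q ^ 2 * M := by ring
        rw [this]
        exact le_mul_of_one_le_right (by positivity) hM1
      have e5 : M * q ≤ M ^ 2 * q ^ 3 / 4 := by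
        have e6 : M * q ≤ M * q ^ 2 / 2 := by
          have : M * q ^ 2 / 2 = M * q * (q / 2) := by ring
          rw [this]
          apply le_mul_of_one_le_right (by positivity)
          linarith
        linarith
      have e7 : (2:ℝ) * (M * q ^ 2 + M * q + M * q / 2) ^ (2 - 1)
          = 2 * (M * q ^ 2) + 3 * (M * q) := by
        norm_num
        ring
      rw [e7]
      have h0 : 0 ≤ M ^ 2 * q ^ 3 := by positivity
      linarith
    refine h7.trans ?_
    apply mul_le_mul_of_nonneg_right _ (by positivity)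
    linarith
  have h4 : (Nat.card (hammingBall n 2) : ℝ≥0∞) / ((2 ^ (2 * s + 2 * 2 ^ k - 1) : ℕ) : ℝ≥0∞)
      = ENNReal.ofReal ((Nat.card (hammingBall n 2) : ℝ) / (2:ℝ) ^ (2 * s + 2 * 2 ^ k - 1)) := by
    rw [ENNReal.ofReal_div_of_pos (by positivity), ENNReal.ofReal_natCast]
    congr 1
    rw [← ENNReal.ofReal_natCast]
    congr 1
    push_cast; rfl
  rw [h4]
  exact ENNReal.ofReal_le_ofReal h3

theorem f_two_le : f 2 ≤ 1 := by
  apply ENNReal.le_of_forall_pos_le_add
  intro ε hε _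
  rw [f]
  apply Filter.liminf_le_of_frequently_le'
  rw [Filter.frequently_atTop]
  intro n0
  have hεR : (0:ℝ) < ε := by exact_mod_cast hε
  obtain ⟨k, hk0, hkε⟩ : ∃ k : ℕ, n0 + 1 ≤ k ∧ 16 / ε ≤ (2:ℝ) ^ k := by
    have h1 : Tendsto (fun t : ℕ => (2:ℝ)^t) atTop atTop :=
      tendsto_pow_atTop_atTop_of_one_lt (by norm_num)
    have h2 := h1.eventually_ge_atTop (16 / (ε:ℝ))
    obtain ⟨t, hta, htb⟩ := (h2.and (eventually_ge_atTop (n0 + 1))).exists
    exact ⟨t, htb, hta⟩
  obtain ⟨n, hn, hd⟩ := density_k k (by omega)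
  refine ⟨n, by omega, hd.trans ?_⟩
  have h3 : (16:ℝ) / 2 ^ k ≤ ε := by
    rw [div_le_iff₀ hεR] at hkε
    rw [div_le_iff₀ (by positivity)]
    linarith
  refine (ENNReal.ofReal_le_ofReal (add_le_add_right h3 1)).trans (le_of_eq ?_)
  rw [ENNReal.ofReal_add (by norm_num) hεR.le, ENNReal.ofReal_coe_nnreal, ENNReal.ofReal_one]

lemma one_le_minDensity (n r : ℕ) : 1 ≤ minDensity n r := by
  rw [minDensity]
  refine le_iInf₂ ?_
  intro V hV
  rw [ENNReal.le_div_iff_mul_le (Or.inl (by positivity)) (Or.inl (by simp)), one_mul]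
  have h1 : Nat.card (Fin n → ZMod 2) ≤ Nat.card V * Nat.card (hammingBall n r) := by
    rw [← Nat.card_prod]
    refine Nat.card_le_card_of_surjective (fun x : V × hammingBall n r => (x.1 : Fin n → ZMod 2) + x.2)
      ?_
    intro z
    have hz : z ∈ (V : Set (𝔽₂ n)) + hammingBall n r := by
      rw [hV]; trivial
    obtain ⟨v, hv, h, hh, rfl⟩ := Set.mem_add.mp hz
    exact ⟨(⟨v, hv⟩, ⟨h, hh⟩), rfl⟩
  have h2 : Nat.card (Fin n → ZMod 2) = 2 ^ n := by simp
  rw [h2] at h1
  exact_mod_cast h1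

lemma one_le_f (r : ℕ) : 1 ≤ f r := by
  rw [f]
  exact Filter.le_liminf_of_le (by isBoundedDefault)
    (Filter.Eventually.of_forall fun n => one_le_minDensity n r)

theorem f_two : f 2 = 1 := le_antisymm f_two_le (one_le_f 2)

end Pool.Agent.Lib.MP_f8d60a_co.One
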