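import Mathlib
import Pool.Agent.Lib.MP_f8d60a_co.OneFinal

/-! Direct sums of covering families. -/

open Finset N8b55e67f Filter
open scoped ENNReal Pointwise Topology

namespace Pool.Agent.Lib.MP_f8d60a_co.Small

/-- there are `n` vectors in an `F_2`-space with `z` elements such that every element is a sum of
at most `r` of them -/
def HasCov (r n z : ℕ) : Prop :=
  ∃ (ι Z : Type) (_ : Fintype ι) (_ : DecidableEq ι) (_ : AddCommGroup Z)
    (_ : Module (ZMod 2) Z) (_ : Finite Z) (p : ι → Z),
    Fintype.card ι = n ∧ Nat.card Z = z ∧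
      ∀ x : Z, ∃ w : ι → ZMod 2, hammingNorm w ≤ r ∧ Fintype.linearCombination (ZMod 2) p w = x

lemma HasCov.density {r n z : ℕ} (h : HasCov r n z) :
    minDensity n r ≤ (Nat.card (hammingBall n r) : ℝ≥0∞) / (z : ℝ≥0∞) := by
  obtain ⟨ι, Z, _, _, _, _, _, p, rfl, rfl, hp⟩ := h
  exact minDensity_le_of_map (Fintype.equivFin ι).symm (Fintype.linearCombination (ZMod 2) p) hp

lemma hammingNorm_elim {ι κ : Type} [Fintype ι] [Fintype κ] (w : ι → ZMod 2) (v : κ → ZMod 2) :
    hammingNorm (Sum.elim w v : ι ⊕ κ → ZMod 2) = hammingNorm w + hammingNorm v := by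
  classical
  rw [hammingNorm, hammingNorm, hammingNorm]
  have h1 : (univ.filter fun i : ι ⊕ κ => (Sum.elim w v : ι ⊕ κ → ZMod 2) i ≠ 0)
      = ((univ.filter fun i => w i ≠ 0).disjSum (univ.filter fun j => v j ≠ 0)) := by
    ext x
    rcases x with x | x
    · simp
    · simp
  rw [h1, Finset.card_disjSum]

lemma HasCov.add {r n z r' n' z' : ℕ} (h : HasCov r n z) (h' : HasCov r' n' z') :
    HasCov (r + r') (n + n') (z * z') := by
  classical
  obtain ⟨ι, Z, _, _, _, _, _, p, rfl, rfl, hp⟩ := h
  obtain ⟨κ, Y, _, _, _, _, _, q, rfl, rfl, hq⟩ := h'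
  refine ⟨ι ⊕ κ, Z × Y, inferInstance, inferInstance, inferInstance, inferInstance, inferInstance,
    Sum.elim (fun i => (p i, 0)) (fun j => (0, q j)), by simp, by simp, ?_⟩
  rintro ⟨x, y⟩
  obtain ⟨w, hw, hx⟩ := hp x
  obtain ⟨v, hv, hy⟩ := hq y
  refine ⟨Sum.elim w v, ?_, ?_⟩
  · rw [hammingNorm_elim]; omega
  · rw [Fintype.linearCombination_apply, Fintype.sum_sum_type]
    rw [Fintype.linearCombination_apply] at hx hy
    simp only [Sum.elim_inl, Sum.elim_inr]
    refine Prod.ext ?_ ?_
    · simp [Prod.fst_add, Prod.fst_sum, hx]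
    · simp [Prod.snd_add, Prod.snd_sum, hy]

lemma hasCov_zero : HasCov 0 0 1 := by
  refine ⟨Fin 0, PUnit, inferInstance, inferInstance, inferInstance, inferInstance, inferInstance,
    fun i => i.elim0, by simp, by simp, ?_⟩
  intro x
  exact ⟨0, by simp, Subsingleton.elim _ _⟩

lemma norm_add_le' {ι : Type} [Fintype ι] (v w : ι → ZMod 2) :
    hammingNorm (v + w) ≤ hammingNorm v + hammingNorm w := by
  classical
  rw [hammingNorm, hammingNorm, hammingNorm]
  refine (Finset.card_le_card (t := (univ.filter fun i => v i ≠ 0) ∪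
    (univ.filter fun i => w i ≠ 0)) ?_).trans (Finset.card_union_le _ _)
  intro i hi
  simp only [mem_filter, mem_univ, true_and, mem_union, Pi.add_apply] at hi ⊢
  by_contra hne
  push Not at hne
  apply hi
  rw [hne.1, hne.2, add_zero]

lemma hammingNorm_single_le {ι : Type} [Fintype ι] [DecidableEq ι] (i : ι) :
    hammingNorm (Pi.single i 1 : ι → ZMod 2) ≤ 1 := by
  rw [hammingNorm]
  refine le_trans (Finset.card_le_card (t := {i}) ?_) (by simp)
  intro k hk
  simp only [mem_filter, mem_univ, true_and] at hk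
  rw [mem_singleton]
  by_contra hne
  apply hk
  rw [Pi.single_apply, if_neg hne]

lemma hasCov_one {ν : ℕ} (hν : ν ≠ 0) : HasCov 1 (2 ^ ν) (2 ^ ν) := by
  classical
  let F := GaloisField 2 ν
  have : Fintype F := Fintype.ofFinite _
  have hF : Nat.card F = 2 ^ ν := GaloisField.card 2 ν hν
  refine ⟨F, F, inferInstance, inferInstance, inferInstance, inferInstance, inferInstance,
    id, by rw [← Nat.card_eq_fintype_card]; exact hF, hF, ?_⟩
  intro x
  exact ⟨Pi.single x 1, hammingNorm_single_le x, by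
    rw [Fintype.linearCombination_apply_single, one_smul]; rfl⟩

lemma hasCov_of_sums {ι Z : Type} [Fintype ι] [DecidableEq ι] [AddCommGroup Z]
    [Module (ZMod 2) Z] [Finite Z] (p : ι → Z) (h : ∀ z, ∃ i j, p i + p j = z) :
    HasCov 2 (Fintype.card ι) (Nat.card Z) := by
  refine ⟨ι, Z, inferInstance, inferInstance, inferInstance, inferInstance, inferInstance,
    p, rfl, rfl, ?_⟩
  intro z
  obtain ⟨i, j, hij⟩ := h z
  refine ⟨Pi.single i 1 + Pi.single j 1, ?_, ?_⟩
  · exact (norm_add_le' _ _).trans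
      (Nat.add_le_add (hammingNorm_single_le i) (hammingNorm_single_le j))
  · rw [map_add, Fintype.linearCombination_apply_single,
      Fintype.linearCombination_apply_single, one_smul, one_smul, hij]

lemma hasCov_of_sums3 {ι Z : Type} [Fintype ι] [DecidableEq ι] [AddCommGroup Z]
    [Module (ZMod 2) Z] [Finite Z] (p : ι → Z) (h : ∀ z, ∃ i j k, p i + p j + p k = z) :
    HasCov 3 (Fintype.card ι) (Nat.card Z) := by
  refine ⟨ι, Z, inferInstance, inferInstance, inferInstance, inferInstance, inferInstance,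
    p, rfl, rfl, ?_⟩
  intro z
  obtain ⟨i, j, k, hij⟩ := h z
  refine ⟨Pi.single i 1 + Pi.single j 1 + Pi.single k 1, ?_, ?_⟩
  · refine (norm_add_le' _ _).trans ?_
    refine Nat.add_le_add ((norm_add_le' _ _).trans
      (Nat.add_le_add (hammingNorm_single_le i) (hammingNorm_single_le j)))
      (hammingNorm_single_le k)
  · rw [map_add, map_add, Fintype.linearCombination_apply_single,
      Fintype.linearCombination_apply_single, Fintype.linearCombination_apply_single,
      one_smul, one_smul, one_smul, hij]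

end Pool.Agent.Lib.MP_f8d60a_co.Small
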