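import Mathlib
import Pool.Agent.Lib.MP_f8d60a_co.SmallCov

/-! The exact covering `{(l, l v, v ^ 3)}` of radius three. -/

open Finset

namespace Pool.Agent.Lib.MP_f8d60a_co.Small

section field

variable {F : Type} [Field F] [Fintype F] [Algebra (ZMod 2) F]

open Pool.Agent.Lib.MP_f8d60a_co.One

omit [Field F] [Algebra (ZMod 2) F] in
lemma card_odd_pow {ν : ℕ} (hF : Fintype.card F = 2 ^ ν) (hν : Odd ν) :
    Nat.Coprime (Fintype.card F - 1) 3 := by
  rw [Nat.coprime_comm, Nat.Prime.coprime_iff_not_dvd Nat.prime_three, hF]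
  obtain ⟨j, rfl⟩ := hν
  have h1 : (2:ℕ) ^ (2 * j + 1) % 3 = 2 := by
    rw [pow_succ, pow_mul]
    have : (2 ^ 2 : ℕ) ^ j % 3 = 1 := by
      rw [Nat.pow_mod]; norm_num
    rw [Nat.mul_mod, this]
  have h2 : 1 ≤ (2:ℕ) ^ (2 * j + 1) := Nat.one_le_two_pow
  generalize (2:ℕ) ^ (2 * j + 1) = x at h1 h2
  intro h3
  omega

omit [Algebra (ZMod 2) F] in
/-- cubing is onto -/
lemma cube_onto {ν : ℕ} (hF : Fintype.card F = 2 ^ ν) (hν : Odd ν) (c : F) :
    ∃ x : F, x ^ 3 = c := by
  classical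
  by_cases hc : c = 0
  · exact ⟨0, by rw [hc]; ring⟩
  · have h1 : Nat.Coprime (Nat.card Fˣ) 3 := by
      rw [Nat.card_eq_fintype_card, Fintype.card_units]
      exact card_odd_pow hF hν
    obtain ⟨u, hu⟩ := (powCoprime h1).surjective (Units.mk0 c hc)
    refine ⟨u, ?_⟩
    have h2 : u ^ 3 = Units.mk0 c hc := hu
    rw [← Units.val_pow_eq_pow_val, h2]
    rfl

lemma trace_one {ν : ℕ} (hF : Fintype.card F = 2 ^ ν) (hν : Odd ν) :
    Algebra.trace (ZMod 2) F (1 : F) = 1 := by
  have h1 : Module.finrank (ZMod 2) F = ν := finrank_of_card (by rw [Nat.card_eq_fintype_card, hF])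
  have h2 := Algebra.trace_algebraMap (S := F) (1 : ZMod 2)
  rw [map_one, h1] at h2
  rw [h2]
  obtain ⟨j, rfl⟩ := hν
  rw [nsmul_eq_mul, mul_one]
  push_cast
  rw [show (2 : ZMod 2) = 0 from rfl]
  ring

/-- Artin-Schreier: elements of trace zero are of the form `t ^ 2 + t` -/
lemma artin_schreier (c : F) (hc : Algebra.trace (ZMod 2) F c = 0) : ∃ t : F, t ^ 2 + t = c := by
  classical
  -- the linear map `t ↦ t ^ 2 + t`
  set L : F →ₗ[ZMod 2] F := fr F 1 + LinearMap.id with hL
  have hLa : ∀ t, L t = t ^ 2 + t := by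
    intro t
    rw [hL, LinearMap.add_apply, LinearMap.id_apply, fr_apply]
    norm_num
  have hker : ∀ t, L t = 0 → t = 0 ∨ t = 1 := by
    intro t ht
    rw [hLa] at ht
    have h1 : t * (t + 1) = 0 := by rw [← ht]; ring
    rcases mul_eq_zero.mp h1 with h | h
    · exact Or.inl h
    · right
      have := eq_neg_of_add_eq_zero_left h
      rwa [CharTwo.neg_eq] at this
  have hfk : Module.finrank (ZMod 2) (LinearMap.ker L) ≤ 1 := by
    have h1 : LinearMap.ker L ≤ Submodule.span (ZMod 2) {(1 : F)} := by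
      intro t ht
      rcases hker t (LinearMap.mem_ker.mp ht) with h | h
      · rw [h]; exact zero_mem _
      · rw [h]; exact Submodule.mem_span_singleton_self _
    refine (Submodule.finrank_mono h1).trans ?_
    exact (finrank_span_le_card {(1 : F)}).trans (by simp)
  have hsub : LinearMap.range L ≤ LinearMap.ker (Algebra.trace (ZMod 2) F) := by
    rintro _ ⟨t, rfl⟩
    rw [LinearMap.mem_ker, hLa, map_add]
    have h1 : Algebra.trace (ZMod 2) F (t ^ 2) = Algebra.trace (ZMod 2) F t := by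
      have h2 := Algebra.trace_eq_of_algEquiv (FiniteField.frobeniusAlgEquivOfAlgebraic (ZMod 2) F) t
      rw [← h2]
      congr 1
    rw [h1, CharTwo.add_self_eq_zero]
  have hrt : Module.finrank (ZMod 2) (LinearMap.ker (Algebra.trace (ZMod 2) F))
      + 1 = Module.finrank (ZMod 2) F := by
    have h1 := LinearMap.finrank_range_add_finrank_ker (Algebra.trace (ZMod 2) F)
    have h2 : LinearMap.range (Algebra.trace (ZMod 2) F) = ⊤ :=
      LinearMap.range_eq_top.mpr (Algebra.trace_surjective (ZMod 2) F)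
    rw [h2, finrank_top, Module.finrank_self] at h1
    omega
  have hrL := LinearMap.finrank_range_add_finrank_ker L
  have heq : LinearMap.range L = LinearMap.ker (Algebra.trace (ZMod 2) F) := by
    apply Submodule.eq_of_le_of_finrank_le hsub
    omega
  have hmem : c ∈ LinearMap.range L := by
    rw [heq]; exact LinearMap.mem_ker.mpr hc
  obtain ⟨t, ht⟩ := hmem
  exact ⟨t, by rw [← hLa]; exact ht⟩

/-- sums of two cubes with given sum `a ≠ 0` -/
lemma two_cubes {ν : ℕ} (hF : Fintype.card F = 2 ^ ν) (hν : Odd ν) {a w : F} (ha : a ≠ 0)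
    (hw : Algebra.trace (ZMod 2) F (w * (a ^ 3)⁻¹) = 1) :
    ∃ x : F, x ^ 3 + (x + a) ^ 3 = w := by
  obtain ⟨t, ht⟩ := artin_schreier (w * (a ^ 3)⁻¹ + 1) (by
    rw [map_add, hw, trace_one hF hν]; rfl)
  refine ⟨a * t, ?_⟩
  have ha3 : a ^ 3 ≠ 0 := pow_ne_zero 3 ha
  have h2 : (2 : F) = 0 := CharTwo.two_eq_zero
  have h1 : w = a ^ 3 * (t ^ 2 + t + 1) := by
    have h3 : w * (a ^ 3)⁻¹ = t ^ 2 + t + 1 := by
      rw [ht, add_assoc, CharTwo.add_self_eq_zero, add_zero]
    rw [← h3]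
    field_simp
  rw [h1]
  linear_combination (a ^ 3 * t ^ 3 + a ^ 3 * t ^ 2 + a ^ 3 * t) * h2

omit [Fintype F] in
/-- the case of one fixed element of trace zero or one -/
lemma dichotomy (c : F) : Algebra.trace (ZMod 2) F c = 0 ∨ Algebra.trace (ZMod 2) F c = 1 :=
  zmod2_cases _

/-- sums of three cubes with given sum -/
lemma three_cubes {ν : ℕ} (hF : Fintype.card F = 2 ^ ν) (hν : Odd ν) (hν3 : 3 ≤ ν) (b w : F) :
    ∃ x y : F, x ^ 3 + y ^ 3 + (x + y + b) ^ 3 = w := by
  classical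
  have h2 : (2 : F) = 0 := CharTwo.two_eq_zero
  -- an element different from `0` and `1`
  obtain ⟨t, ht0, ht1⟩ : ∃ t : F, t ≠ 0 ∧ t ≠ 1 := by
    by_contra hcon
    push Not at hcon
    have h3 : (univ : Finset F) ⊆ {0, 1} := by
      intro t _
      rw [mem_insert, mem_singleton]
      by_cases h : t = 0
      · exact Or.inl h
      · exact Or.inr (hcon t h)
    have h4 := Finset.card_le_card h3
    rw [card_univ, hF] at h4
    have h5 : (2:ℕ) ^ 3 ≤ 2 ^ ν := Nat.pow_le_pow_right (by norm_num) hν3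
    have h6 := Finset.card_le_two (a := (0 : F)) (b := 1)
    omega
  have ht : t * (1 + t) ≠ 0 := by
    refine mul_ne_zero ht0 ?_
    intro h
    apply ht1
    have := eq_neg_of_add_eq_zero_right h
    rwa [CharTwo.neg_eq] at this
  obtain ⟨X, hX⟩ := cube_onto hF hν ((w + b ^ 3) * (t * (1 + t))⁻¹)
  refine ⟨X + b, t * X + b, ?_⟩
  have h3 : X ^ 3 * (t * (1 + t)) = w + b ^ 3 := by
    rw [hX, mul_assoc, inv_mul_cancel₀ ht, mul_one]
  have h4 : w = X ^ 3 * (t * (1 + t)) + b ^ 3 := by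
    rw [h3, add_assoc, CharTwo.add_self_eq_zero, add_zero]
  rw [h4]
  linear_combination (X ^ 3 * (1 + t + t ^ 2 + t ^ 3) + X ^ 2 * b * (6 + 9 * t + 6 * t ^ 2)
    + X * b ^ 2 * (15 + 15 * t) + 14 * b ^ 3) * h2

lemma either {ν : ℕ} (hF : Fintype.card F = 2 ^ ν) (hν : Odd ν) {a : F} (ha : a ≠ 0) (b w : F) :
    (∃ x : F, x ^ 3 + (x + a) ^ 3 + b ^ 3 = w) ∨
      (∃ x : F, x ^ 3 + (x + a) ^ 3 + (b + a) ^ 3 = w) := by
  have h2 : (2 : F) = 0 := CharTwo.two_eq_zero
  have ha3 : a ^ 3 ≠ 0 := pow_ne_zero 3 ha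
  rcases dichotomy ((w + b ^ 3) * (a ^ 3)⁻¹) with h | h
  · right
    have h1 : Algebra.trace (ZMod 2) F ((w + (b + a) ^ 3) * (a ^ 3)⁻¹) = 1 := by
      have e1 : (w + (b + a) ^ 3) * (a ^ 3)⁻¹
          = (w + b ^ 3) * (a ^ 3)⁻¹ + ((b * a⁻¹) ^ 2 + b * a⁻¹) + 1 := by
        field_simp
        linear_combination (a * b * (a + b)) * h2
      have h3 : Algebra.trace (ZMod 2) F ((b * a⁻¹) ^ 2 + b * a⁻¹) = 0 := by
        have h4 := Algebra.trace_eq_of_algEquiv
          (FiniteField.frobeniusAlgEquivOfAlgebraic (ZMod 2) F) (b * a⁻¹)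
        have h5 : Algebra.trace (ZMod 2) F ((b * a⁻¹) ^ 2)
            = Algebra.trace (ZMod 2) F (b * a⁻¹) := by
          rw [← h4]
          congr 1
        rw [map_add, h5, CharTwo.add_self_eq_zero]
      rw [e1, map_add, map_add, h, h3, trace_one hF hν, add_zero, zero_add]
    obtain ⟨x, hx⟩ := two_cubes hF hν ha h1
    exact ⟨x, by rw [hx, add_assoc, CharTwo.add_self_eq_zero, add_zero]⟩
  · left
    obtain ⟨x, hx⟩ := two_cubes hF hν ha h
    exact ⟨x, by rw [hx, add_assoc, CharTwo.add_self_eq_zero, add_zero]⟩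

end field

/-- the three families of vectors -/
def vec {F : Type} [Field F] (i : Fin 3 × F) : (ZMod 2 × ZMod 2) × (F × F) × F :=
  match i.1 with
  | 0 => ((1, 0), (i.2, 0), i.2 ^ 3)
  | 1 => ((0, 1), (0, i.2), i.2 ^ 3)
  | 2 => ((1, 1), (i.2, i.2), i.2 ^ 3)

lemma vec_cover {F : Type} [Field F] [Fintype F] [Algebra (ZMod 2) F] {ν : ℕ}
    (hF : Fintype.card F = 2 ^ ν) (hν : Odd ν) (hν3 : 3 ≤ ν)
    (z : (ZMod 2 × ZMod 2) × (F × F) × F) :
    ∃ i j k : Fin 3 × F, vec i + vec j + vec k = z := by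
  have h2 : (2 : F) = 0 := CharTwo.two_eq_zero
  obtain ⟨⟨l1, l2⟩, ⟨u1, u2⟩, w⟩ := z
  rcases zmod2_cases l1 with rfl | rfl <;> rcases zmod2_cases l2 with rfl | rfl
  · -- label `(0, 0)`
    obtain ⟨X, hX⟩ := cube_onto hF hν (w + (u1 + u2) ^ 3 + u1 ^ 3 + u2 ^ 3)
    refine ⟨(0, u1 + (X + (u1 + u2))), (1, u2 + (X + (u1 + u2))), (2, X + (u1 + u2)), ?_⟩
    simp only [vec, Prod.mk_add_mk]
    refine Prod.ext (Prod.ext rfl rfl) (Prod.ext (Prod.ext ?_ ?_) ?_)
    · simp only
      linear_combination (X + u1 + u2) * h2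
    · simp only
      linear_combination (X + u1 + u2) * h2
    · simp only
      linear_combination hX + (6 * u2 ^ 3 + 12 * u1 ^ 1 * u2 ^ 2 + 12 * u1 ^ 2 * u2 ^ 1 + 6 * u1 ^ 3
         + 9 * X ^ 1 * u2 ^ 2 + 15 * X ^ 1 * u1 ^ 1 * u2 ^ 1 + 9 * X ^ 1 * u1 ^ 2
         + 6 * X ^ 2 * u2 ^ 1 + 6 * X ^ 2 * u1 ^ 1 + 1 * X ^ 3) * h2
  · -- label `(0, 1)`
    by_cases ha : u1 = 0
    · obtain ⟨x, y, hxy⟩ := three_cubes hF hν hν3 u2 w
      refine ⟨(1, x), (1, y), (1, x + y + u2), ?_⟩
      simp only [vec, Prod.mk_add_mk]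
      refine Prod.ext (Prod.ext rfl rfl) (Prod.ext (Prod.ext ?_ ?_) ?_)
      · simp only [ha, add_zero]
      · simp only
        linear_combination (x + y) * h2
      · exact hxy
    · rcases either hF hν ha u2 w with ⟨x, hx⟩ | ⟨x, hx⟩
      · refine ⟨(0, x), (0, x + u1), (1, u2), ?_⟩
        simp only [vec, Prod.mk_add_mk]
        refine Prod.ext (Prod.ext rfl rfl) (Prod.ext (Prod.ext ?_ ?_) ?_)
        · simp only
          linear_combination x * h2
        · simp only [add_zero, zero_add]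
        · exact hx
      · refine ⟨(2, x), (2, x + u1), (1, u2 + u1), ?_⟩
        simp only [vec, Prod.mk_add_mk]
        refine Prod.ext (Prod.ext rfl rfl) (Prod.ext (Prod.ext ?_ ?_) ?_)
        · simp only
          linear_combination x * h2
        · simp only
          linear_combination (x + u1) * h2
        · exact hx
  · -- label `(1, 0)`
    by_cases ha : u2 = 0
    · obtain ⟨x, y, hxy⟩ := three_cubes hF hν hν3 u1 w
      refine ⟨(0, x), (0, y), (0, x + y + u1), ?_⟩
      simp only [vec, Prod.mk_add_mk]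
      refine Prod.ext (Prod.ext rfl rfl) (Prod.ext (Prod.ext ?_ ?_) ?_)
      · simp only
        linear_combination (x + y) * h2
      · simp only [ha, add_zero]
      · exact hxy
    · rcases either hF hν ha u1 w with ⟨x, hx⟩ | ⟨x, hx⟩
      · refine ⟨(1, x), (1, x + u2), (0, u1), ?_⟩
        simp only [vec, Prod.mk_add_mk]
        refine Prod.ext (Prod.ext rfl rfl) (Prod.ext (Prod.ext ?_ ?_) ?_)
        · simp only [add_zero, zero_add]
        · simp only
          linear_combination x * h2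
        · exact hx
      · refine ⟨(2, x), (2, x + u2), (0, u1 + u2), ?_⟩
        simp only [vec, Prod.mk_add_mk]
        refine Prod.ext (Prod.ext rfl rfl) (Prod.ext (Prod.ext ?_ ?_) ?_)
        · simp only
          linear_combination (x + u2) * h2
        · simp only
          linear_combination x * h2
        · exact hx
  · -- label `(1, 1)`
    by_cases ha : u1 + u2 = 0
    · have hu : u1 = u2 := by
        have := eq_neg_of_add_eq_zero_left ha
        rwa [CharTwo.neg_eq] at this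
      obtain ⟨x, y, hxy⟩ := three_cubes hF hν hν3 u1 w
      refine ⟨(2, x), (2, y), (2, x + y + u1), ?_⟩
      simp only [vec, Prod.mk_add_mk]
      refine Prod.ext (Prod.ext rfl rfl) (Prod.ext (Prod.ext ?_ ?_) ?_)
      · simp only
        linear_combination (x + y) * h2
      · simp only
        rw [← hu]
        linear_combination (x + y) * h2
      · exact hxy
    · rcases either hF hν ha u2 w with ⟨x, hx⟩ | ⟨x, hx⟩
      · refine ⟨(0, x), (0, x + (u1 + u2)), (2, u2), ?_⟩
        simp only [vec, Prod.mk_add_mk]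
        refine Prod.ext (Prod.ext rfl rfl) (Prod.ext (Prod.ext ?_ ?_) ?_)
        · simp only
          linear_combination (x + u2) * h2
        · simp only [add_zero, zero_add]
        · exact hx
      · refine ⟨(1, x), (1, x + (u1 + u2)), (2, u2 + (u1 + u2)), ?_⟩
        simp only [vec, Prod.mk_add_mk]
        refine Prod.ext (Prod.ext rfl rfl) (Prod.ext (Prod.ext ?_ ?_) ?_)
        · simp only
          linear_combination u2 * h2
        · simp only
          linear_combination (x + u1 + u2) * h2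
        · exact hx


end Pool.Agent.Lib.MP_f8d60a_co.Small
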