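import Mathlib
import Pool.Agent.Lib.MP_f8d60a_co.SmallThree

/-! `f r ≤ r ^ r / (r! 2 ^ ⌊2 r / 3⌋)`. -/

open Finset N8b55e67f Filter
open scoped ENNReal Pointwise Topology

namespace Pool.Agent.Lib.MP_f8d60a_co.Small

open Pool.Agent.Lib.MP_f8d60a_co.One

lemma hasCov_three {ν : ℕ} (hν : Odd ν) (hν3 : 3 ≤ ν) :
    HasCov 3 (3 * 2 ^ ν) (4 * (2 ^ ν) ^ 3) := by
  classical
  let F := GaloisField 2 ν
  have : Fintype F := Fintype.ofFinite _
  have hF : Fintype.card F = 2 ^ ν := by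
    rw [← Nat.card_eq_fintype_card]
    exact GaloisField.card 2 ν (by omega)
  have h := hasCov_of_sums3 (vec (F := F)) (vec_cover hF hν hν3)
  have h1 : Fintype.card (Fin 3 × F) = 3 * 2 ^ ν := by
    rw [Fintype.card_prod, hF, Fintype.card_fin]
  have h2 : Nat.card ((ZMod 2 × ZMod 2) × (F × F) × F) = 4 * (2 ^ ν) ^ 3 := by
    rw [Nat.card_prod, Nat.card_prod, Nat.card_prod, Nat.card_prod,
      Nat.card_eq_fintype_card (α := F), hF, Nat.card_zmod]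
    ring
  rwa [h1, h2] at h

/-- the common exponent -/
def tt (k : ℕ) : ℕ := sdim k + (2 ^ k - 1)

lemma tt_odd {k : ℕ} (hk : 1 ≤ k) : Odd (tt k) := by
  have h1 : Even (sdim k) := by
    rw [sdim]
    obtain ⟨j, rfl⟩ : ∃ j, k = j + 1 := ⟨k - 1, by omega⟩
    rw [pow_succ]
    exact ⟨(j + 1) * (2 ^ j * 2 ^ (2 ^ j * 2)), by ring⟩
  have h2 : Odd (2 ^ k - 1) := by
    obtain ⟨j, rfl⟩ : ∃ j, k = j + 1 := ⟨k - 1, by omega⟩
    have h3 : 1 ≤ 2 ^ j := Nat.one_le_two_pow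
    exact ⟨2 ^ j - 1, by rw [pow_succ]; omega⟩
  exact h1.add_odd h2

lemma tt_ge {k : ℕ} (hk : 1 ≤ k) : 3 ≤ tt k ∧ k ≤ tt k := by
  have h1 : k * (2 ^ 1 * 2 ^ 2 ^ 1) ≤ sdim k := by
    rw [sdim]
    have h2 : 2 ^ 1 ≤ 2 ^ k := Nat.pow_le_pow_right (by norm_num) hk
    exact Nat.mul_le_mul_left _ (Nat.mul_le_mul h2 (Nat.pow_le_pow_right (by norm_num) h2))
  have h3 : k * (2 ^ 1 * 2 ^ 2 ^ 1) = 8 * k := by norm_num; ring
  rw [tt]
  omega

lemma hasCov_two {k : ℕ} (hk : 1 ≤ k) : ∃ n, HasCov 2 n (2 * (2 ^ tt k) ^ 2) ∧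
    (n : ℝ) ≤ 2 * 2 ^ tt k * (1 + 3 / 2 ^ k) ∧ 2 * 2 ^ tt k ≤ n := by
  obtain ⟨ι, Z, _, _, _, _, _, p, hι, hZ, hp⟩ := exists_family k hk
  have h := hasCov_of_sums p (fun z => by
    obtain ⟨i, j, _, h⟩ := hp z
    exact ⟨i, j, h⟩)
  have h1 : 1 ≤ 2 ^ k := Nat.one_le_two_pow
  have hZ' : Nat.card Z = 2 * (2 ^ tt k) ^ 2 := by
    have e : 2 * (2 ^ tt k) ^ 2 = 2 ^ (tt k * 2 + 1) := by
      rw [← pow_mul, pow_succ 2 (tt k * 2), mul_comm]
    rw [hZ, e]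
    congr 1
    rw [tt]
    omega
  rw [hZ'] at h
  have hk1 : 1 ≤ 2 ^ (k - 1) := Nat.one_le_two_pow
  have hk2 : 2 ^ k = 2 * 2 ^ (k - 1) := by
    rw [← pow_succ']; congr 1; omega
  have hN : 2 ^ (sdim k + 2 ^ k) = 2 * 2 ^ tt k := by
    rw [← pow_succ']
    congr 1
    rw [tt]
    omega
  refine ⟨_, h, ?_, ?_⟩
  · rw [hι, hN]
    push_cast
    set N : ℝ := 2 ^ tt k with hNd
    have hNpos : 0 < N := by positivity
    set q : ℝ := 2 ^ 2 ^ (k - 1) with hq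
    have hqpos : 0 < q := by positivity
    have e1 : (2:ℝ) ^ (sdim k + 2 ^ (k - 1)) = 2 * N / q := by
      rw [eq_div_iff hqpos.ne', hNd, hq, ← pow_add, ← pow_succ']
      congr 1
      rw [tt]
      omega
    have e2 : (2:ℝ) ^ (sdim k + 2 ^ (k - 1) - 1) = N / q := by
      rw [eq_div_iff hqpos.ne', hNd, hq, ← pow_add]
      congr 1
      rw [tt]
      omega
    rw [e1, e2]
    have hqk : (2:ℝ) ^ k ≤ 2 * q := by
      have h2 : k ≤ 1 + 2 ^ (k - 1) := by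
        have := Nat.lt_two_pow_self (n := k - 1)
        omega
      calc (2:ℝ) ^ k ≤ 2 ^ (1 + 2 ^ (k - 1)) := pow_le_pow_right₀ (by norm_num) h2
        _ = 2 * q := by rw [pow_add, pow_one]
    have h6 : (3:ℝ) / q ≤ 6 / 2 ^ k := by
      rw [div_le_div_iff₀ hqpos (by positivity)]
      linarith
    have e3 : 2 * N + (2 * N / q + N / q) = 2 * N + N * (3 / q) := by ring
    have e4 : 2 * N * (1 + 3 / 2 ^ k) = 2 * N + N * (6 / 2 ^ k) := by ring
    rw [e3, e4]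
    have := mul_le_mul_of_nonneg_left h6 hNpos.le
    linarith
  · rw [hι, hN]
    exact Nat.le_add_right _ _

lemma hasCov_mul {k : ℕ} (hk : 1 ≤ k) (a : ℕ) :
    HasCov (3 * a) (3 * a * 2 ^ tt k) ((4 * (2 ^ tt k) ^ 3) ^ a) := by
  induction a with
  | zero => simpa using hasCov_zero
  | succ a ih =>
    have h := ih.add (hasCov_three (tt_odd hk) (tt_ge hk).1)
    have e1 : 3 * a + 3 = 3 * (a + 1) := by ring
    have e2 : 3 * a * 2 ^ tt k + 3 * 2 ^ tt k = 3 * (a + 1) * 2 ^ tt k := by ring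
    rw [e1, e2, ← pow_succ] at h
    exact h

lemma exists_cov {k : ℕ} (hk : 1 ≤ k) (r : ℕ) :
    ∃ n, HasCov r n (2 ^ (2 * r / 3) * (2 ^ tt k) ^ r) ∧
      (n : ℝ) ≤ r * 2 ^ tt k * (1 + 3 / 2 ^ k) ∧ r * 2 ^ tt k ≤ n := by
  obtain ⟨a, b, hb, rfl⟩ : ∃ a b, b < 3 ∧ r = 3 * a + b :=
    ⟨r / 3, r % 3, Nat.mod_lt _ (by norm_num), (Nat.div_add_mod r 3).symm⟩
  have ha := hasCov_mul hk a
  set N := 2 ^ tt k with hN
  have h0 : (0:ℝ) ≤ 3 / 2 ^ k := by positivity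
  have hNR : ((N : ℕ) : ℝ) = 2 ^ tt k := by rw [hN]; push_cast; rfl
  interval_cases b
  · refine ⟨3 * a * N, ?_, ?_, by simp⟩
    · have e1 : 2 * (3 * a + 0) / 3 = 2 * a := by omega
      have e2 : 2 ^ (2 * a) * N ^ (3 * a + 0) = (4 * N ^ 3) ^ a := by
        rw [add_zero, pow_mul N 3 a, pow_mul 2 2 a, ← mul_pow]; norm_num
      rw [e1, e2, add_zero]
      exact ha
    · push_cast
      rw [hNR]
      have : (0:ℝ) ≤ 3 * a * 2 ^ tt k := by positivity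
      nlinarith
  · refine ⟨3 * a * N + N, ?_, ?_, by rw [add_mul, one_mul]⟩
    · have h := ha.add (hasCov_one (ν := tt k) (by have := (tt_ge hk).1; omega))
      have e1 : 2 * (3 * a + 1) / 3 = 2 * a := by omega
      have e2 : 2 ^ (2 * a) * N ^ (3 * a + 1) = (4 * N ^ 3) ^ a * N := by
        rw [pow_succ N, pow_mul N 3 a, pow_mul 2 2 a, ← mul_assoc, ← mul_pow]; norm_num
      rw [e1, e2]
      exact h
    · push_cast
      rw [hNR]
      have : (0:ℝ) ≤ (3 * a + 1) * 2 ^ tt k := by positivity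
      nlinarith
  · obtain ⟨n, hn, hn1, hn2⟩ := hasCov_two hk
    refine ⟨3 * a * N + n, ?_, ?_, ?_⟩
    · have h := ha.add hn
      have e1 : 2 * (3 * a + 2) / 3 = 2 * a + 1 := by omega
      have e2 : 2 ^ (2 * a + 1) * N ^ (3 * a + 2) = (4 * N ^ 3) ^ a * (2 * N ^ 2) := by
        have e3 : (4 * N ^ 3) ^ a = (2 ^ 2) ^ a * (N ^ 3) ^ a := by rw [← mul_pow]; norm_num
        have e4 : 2 ^ (2 * a + 1) = (2 ^ 2) ^ a * 2 := by rw [pow_succ, pow_mul]
        rw [e3, e4, pow_add N, pow_mul N 3 a]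
        ring
      rw [e1, e2]
      exact h
    · push_cast
      rw [hNR]
      have : (0:ℝ) ≤ 3 * a * 2 ^ tt k := by positivity
      nlinarith
    · rw [add_mul]
      omega

/-- a criterion for upper bounds of `f` -/
lemma f_le_of {r : ℕ} {D : ℝ}
    (h : ∀ ε : ℝ, 0 < ε → ∀ n0 : ℕ, ∃ n, n0 ≤ n ∧ minDensity n r ≤ ENNReal.ofReal (D + ε)) :
    f r ≤ ENNReal.ofReal D := by
  apply ENNReal.le_of_forall_pos_le_add
  intro ε hε _
  rw [f]
  apply Filter.liminf_le_of_frequently_le'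
  rw [Filter.frequently_atTop]
  intro n0
  have hεR : (0:ℝ) < ε := by exact_mod_cast hε
  obtain ⟨n, hn, hd⟩ := h ε hεR n0
  refine ⟨n, hn, hd.trans ?_⟩
  refine ENNReal.ofReal_add_le.trans ?_
  rw [ENNReal.ofReal_coe_nnreal]

/-- the limiting function -/
noncomputable def phi (r : ℕ) (x : ℝ) : ℝ :=
  (((r : ℝ) * (1 + 3 * x)) ^ r / r.factorial
    + r * ((r : ℝ) * (1 + 3 * x)) ^ (r - 1) * x) / 2 ^ (2 * r / 3)

theorem small_bound {r : ℕ} (hr : 1 ≤ r) :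
    f r ≤ ENNReal.ofReal ((r : ℝ) ^ r / (r.factorial * 2 ^ (2 * r / 3))) := by
  apply f_le_of
  intro ε hε n0
  have hcont : Tendsto (fun k : ℕ => phi r ((1 / 2) ^ k)) atTop
      (𝓝 ((r : ℝ) ^ r / (r.factorial * 2 ^ (2 * r / 3)))) := by
    have h1 : Continuous (phi r) := by
      unfold phi
      fun_prop
    have h2 : Tendsto (fun k : ℕ => ((1 : ℝ) / 2) ^ k) atTop (𝓝 0) :=
      tendsto_pow_atTop_nhds_zero_of_lt_one (by norm_num) (by norm_num)
    have h3 := (h1.tendsto 0).comp h2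
    have h4 : phi r 0 = (r : ℝ) ^ r / (r.factorial * 2 ^ (2 * r / 3)) := by
      unfold phi
      rw [mul_zero, add_zero, mul_one, mul_zero, add_zero, div_div]
    rw [h4] at h3
    exact h3
  have hev := hcont.eventually (ge_mem_nhds (lt_add_of_pos_right _ hε))
  obtain ⟨k, hk1, hk2⟩ := (hev.and (eventually_ge_atTop (n0 + 1))).exists
  obtain ⟨n, hcov, hn1, hn2⟩ := exists_cov (k := k) (by omega) r
  have htk := tt_ge (k := k) (by omega)
  set N : ℝ := 2 ^ tt k with hN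
  have hNpos : 0 < N := by positivity
  have hNn : k ≤ n := by
    have h1 := Nat.lt_two_pow_self (n := tt k)
    have h2 : 2 ^ tt k ≤ r * 2 ^ tt k := Nat.le_mul_of_pos_left _ hr
    omega
  refine ⟨n, by omega, hcov.density.trans ?_⟩
  have hn0 : 1 ≤ n := by omega
  have h2 : (Nat.card (hammingBall n r) : ℝ) ≤ (n:ℝ)^r / r.factorial + r * (n:ℝ)^(r-1) := by
    refine le_trans ?_ (sum_choose_le hn0 hr)
    exact_mod_cast card_ball_le _ _
  have hx : (3:ℝ) / 2 ^ k = 3 * (1 / 2) ^ k := by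
    rw [one_div, inv_pow, div_eq_mul_inv]
  have hNk : 1 / N ≤ (1 / 2) ^ k := by
    rw [one_div, one_div, inv_pow]
    apply inv_anti₀ (by positivity)
    exact pow_le_pow_right₀ (by norm_num) htk.2
  have hm : (n:ℝ) ≤ N * (r * (1 + 3 * (1 / 2) ^ k)) := by
    refine hn1.trans (le_of_eq ?_)
    rw [hx]; ring
  have h3 : (Nat.card (hammingBall n r) : ℝ) / (2 ^ (2 * r / 3) * N ^ r)
      ≤ phi r ((1 / 2) ^ k) := by
    rw [div_le_iff₀ (by positivity)]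
    refine h2.trans ?_
    unfold phi
    set y : ℝ := (r : ℝ) * (1 + 3 * (1 / 2) ^ k) with hy
    have hy0 : 0 ≤ y := by positivity
    have e1 : (y ^ r / r.factorial + r * y ^ (r - 1) * (1 / 2) ^ k) / 2 ^ (2 * r / 3)
        * (2 ^ (2 * r / 3) * N ^ r)
        = (N * y) ^ r / r.factorial + r * (N * y) ^ (r - 1) * ((1 / 2) ^ k * N) := by
      obtain ⟨s, rfl⟩ : ∃ s, r = s + 1 := ⟨r - 1, by omega⟩
      rw [Nat.add_sub_cancel]
      have hp : (2:ℝ) ^ (2 * (s + 1) / 3) ≠ 0 := by positivity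
      have hf : ((s + 1).factorial : ℝ) ≠ 0 := by positivity
      field_simp
      ring_nf
    rw [e1]
    have h5 : (n:ℝ) ^ r ≤ (N * y) ^ r := pow_le_pow_left₀ (by positivity) hm r
    have h6 : (n:ℝ) ^ (r - 1) ≤ (N * y) ^ (r - 1) * ((1 / 2) ^ k * N) := by
      refine (pow_le_pow_left₀ (by positivity) hm (r - 1)).trans ?_
      apply le_mul_of_one_le_right (by positivity)
      rw [← div_le_iff₀ hNpos]
      exact hNk
    have h7 : (n:ℝ) ^ r / r.factorial ≤ (N * y) ^ r / r.factorial := by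
      apply div_le_div_of_nonneg_right h5 (by positivity)
    have h8 : (r:ℝ) * (n:ℝ) ^ (r - 1) ≤ r * (N * y) ^ (r - 1) * ((1 / 2) ^ k * N) := by
      rw [mul_assoc]
      exact mul_le_mul_of_nonneg_left h6 (by positivity)
    linarith
  have h4 : (Nat.card (hammingBall n r) : ℝ≥0∞) / ((2 ^ (2 * r / 3) * (2 ^ tt k) ^ r : ℕ) : ℝ≥0∞)
      = ENNReal.ofReal ((Nat.card (hammingBall n r) : ℝ) / (2 ^ (2 * r / 3) * N ^ r)) := by
    rw [ENNReal.ofReal_div_of_pos (by positivity), ENNReal.ofReal_natCast]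
    congr 1
    rw [← ENNReal.ofReal_natCast]
    congr 1
    push_cast; rfl
  rw [h4]
  exact ENNReal.ofReal_le_ofReal (h3.trans hk1)

end Pool.Agent.Lib.MP_f8d60a_co.Small
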