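import Mathlib
import Pool.Agent.Lib.MP_f8d60a_co.SmallFinal

/-! The final reduction: near perfect `r`-fold sum sets give `f r = 1`. -/

open Finset N8b55e67f Filter
open scoped ENNReal Pointwise Topology

namespace Pool.Agent.Lib.MP_f8d60a_co.F8

open Pool.Agent.Lib.MP_f8d60a_co.Small Pool.Agent.Lib.MP_f8d60a_co.One

lemma hammingNorm_sum_single_le {ι : Type} [Fintype ι] [DecidableEq ι] {r : ℕ} (s : Fin r → ι) :
    hammingNorm (∑ j, Pi.single (s j) 1 : ι → ZMod 2) ≤ r := by
  classical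
  rw [hammingNorm]
  refine (Finset.card_le_card (t := univ.image s) ?_).trans
    (Finset.card_image_le.trans (by simp))
  intro i hi
  simp only [mem_filter, mem_univ, true_and, Finset.sum_apply] at hi
  obtain ⟨j, _, hj⟩ := Finset.exists_ne_zero_of_sum_ne_zero hi
  rw [mem_image]
  refine ⟨j, mem_univ _, ?_⟩
  by_contra hne
  apply hj
  rw [Pi.single_apply, if_neg (Ne.symm hne)]

/-- an `r`-fold sum statement (with repetitions allowed) gives a covering -/
theorem hasCov_of_fin_sums {ι Z : Type} [Fintype ι] [AddCommGroup Z]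
    [Module (ZMod 2) Z] [Finite Z] {r : ℕ} (p : ι → Z)
    (h : ∀ z, ∃ s : Fin r → ι, ∑ j, p (s j) = z) :
    HasCov r (Fintype.card ι) (Nat.card Z) := by
  classical
  refine ⟨ι, Z, inferInstance, inferInstance, inferInstance, inferInstance, inferInstance,
    p, rfl, rfl, ?_⟩
  intro z
  obtain ⟨s, hs⟩ := h z
  refine ⟨∑ j, Pi.single (s j) 1, hammingNorm_sum_single_le s, ?_⟩
  rw [map_sum, ← hs]
  refine Finset.sum_congr rfl fun j _ => ?_
  rw [Fintype.linearCombination_apply_single, one_smul]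

/-- `f 0 = 1` -/
lemma f_zero : f 0 = 1 := by
  refine le_antisymm ?_ (one_le_f 0)
  have h1 : ∀ n, minDensity n 0 ≤ 1 := by
    intro n
    have hball : Nat.card (hammingBall n 0) = 1 := by
      rw [Nat.card_eq_one_iff_unique]
      constructor
      · constructor
        rintro ⟨x, hx⟩ ⟨y, hy⟩
        have hx0 : x = 0 := by
          have : hammingNorm x ≤ 0 := hx
          exact hammingNorm_eq_zero.mp (by omega)
        have hy0 : y = 0 := by
          have : hammingNorm y ≤ 0 := hy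
          exact hammingNorm_eq_zero.mp (by omega)
        exact Subtype.ext (hx0.trans hy0.symm)
      · exact ⟨⟨0, by
          change hammingNorm (0 : Fin n → ZMod 2) ≤ 0
          rw [hammingNorm_zero]⟩⟩
    have hcov : IsCoveringSubspace n 0 (⊤ : Submodule (ZMod 2) (𝔽₂ n)) := by
      rw [IsCoveringSubspace, Set.eq_univ_iff_forall]
      intro x
      refine ⟨x, trivial, 0, ?_, add_zero x⟩
      change hammingNorm (0 : Fin n → ZMod 2) ≤ 0
      rw [hammingNorm_zero]
    refine (iInf₂_le (⊤ : Submodule (ZMod 2) (𝔽₂ n)) hcov).trans ?_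
    have htop : Nat.card (⊤ : Submodule (ZMod 2) (𝔽₂ n)) = 2 ^ n := by
      rw [Nat.card_congr (Submodule.topEquiv (R := ZMod 2) (M := 𝔽₂ n)).toEquiv]
      simp
    rw [hball, htop, Nat.cast_one, mul_one]
    push_cast
    exact ENNReal.div_self_le_one
  rw [f]
  exact (Filter.liminf_le_liminf (Filter.Eventually.of_forall h1)).trans
    (le_of_eq (Filter.liminf_const 1))

/-- the final reduction -/
theorem all_one
    (H : ∀ r : ℕ, 1 ≤ r → ∀ ε : ℝ, 0 < ε → ∀ n0 : ℕ, ∃ n z : ℕ, n0 ≤ n ∧ HasCov r n z ∧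
      (n : ℝ) ^ r ≤ r.factorial * z * (1 + ε)) :
    ∀ r, f r = 1 := by
  intro r
  rcases Nat.eq_zero_or_pos r with h0 | hr
  · rw [h0]; exact f_zero
  refine le_antisymm ?_ (one_le_f r)
  rw [← ENNReal.ofReal_one]
  apply f_le_of
  intro ε hε n0
  -- choose the parameters
  set K : ℝ := r.factorial * r with hK
  have hfac : (1:ℝ) ≤ r.factorial := by exact_mod_cast Nat.succ_le_of_lt (Nat.factorial_pos r)
  have hrR : (1:ℝ) ≤ r := by exact_mod_cast hr
  have hK1 : 1 ≤ K := by rw [hK]; nlinarith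
  set δ : ℝ := min (ε / 2) 1 with hδ
  have hδpos : 0 < δ := lt_min (by positivity) one_pos
  have hδ1 : δ ≤ 1 := min_le_right _ _
  have hδ2 : δ ≤ ε / 2 := min_le_left _ _
  obtain ⟨m, hm⟩ := exists_nat_ge (4 * K / ε)
  obtain ⟨n, z, hn, hcov, hden⟩ := H r hr δ hδpos (max n0 (m + 1))
  have hn0 : n0 ≤ n := (le_max_left _ _).trans hn
  have hnm : m + 1 ≤ n := (le_max_right _ _).trans hn
  refine ⟨n, hn0, hcov.density.trans ?_⟩
  have hn1 : 1 ≤ n := by omega
  have hnpos : (0:ℝ) < n := by exact_mod_cast hn1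
  have hz : (0:ℝ) < z := by
    have h1 : (0:ℝ) < (n:ℝ) ^ r := by positivity
    have h2 : (0:ℝ) < r.factorial * z * (1 + δ) := h1.trans_le hden
    by_contra hcon
    push Not at hcon
    have : (z:ℝ) = 0 := le_antisymm hcon (Nat.cast_nonneg z)
    rw [this] at h2
    simp at h2
  have h2 : (Nat.card (hammingBall n r) : ℝ) ≤ (n:ℝ)^r / r.factorial + r * (n:ℝ)^(r-1) := by
    refine le_trans ?_ (sum_choose_le hn1 hr)
    exact_mod_cast card_ball_le _ _
  have h3 : (Nat.card (hammingBall n r) : ℝ) / z ≤ 1 + ε := by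
    rw [div_le_iff₀ hz]
    refine h2.trans ?_
    have h4 : (n:ℝ) ^ r / r.factorial ≤ z * (1 + δ) := by
      rw [div_le_iff₀ (by positivity)]
      refine hden.trans (le_of_eq ?_)
      ring
    have h5 : (r:ℝ) * (n:ℝ) ^ (r - 1) ≤ z * (ε / 2) := by
      have h6 : (n:ℝ) ^ (r - 1) * n = (n:ℝ) ^ r := by
        rw [← pow_succ]
        congr 1
        omega
      have h7 : (n:ℝ) ^ (r - 1) ≤ r.factorial * z * (1 + δ) / n := by
        rw [le_div_iff₀ hnpos, h6]
        exact hden
      have h8 : (r:ℝ) * (n:ℝ) ^ (r - 1) ≤ 2 * K * z / n := by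
        refine (mul_le_mul_of_nonneg_left h7 (by positivity)).trans ?_
        rw [mul_div_assoc']
        apply div_le_div_of_nonneg_right _ hnpos.le
        rw [hK]
        have h9 : 0 ≤ (r:ℝ) * r.factorial * z := by positivity
        nlinarith
      refine h8.trans ?_
      rw [div_le_iff₀ hnpos]
      have h10 : 4 * K ≤ ε * n := by
        rw [div_le_iff₀ hε] at hm
        have h11 : (m:ℝ) ≤ n := by
          have : m ≤ n := by omega
          exact_mod_cast this
        nlinarith
      nlinarith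
    have h12 : (z:ℝ) * δ ≤ z * (ε / 2) := mul_le_mul_of_nonneg_left hδ2 hz.le
    nlinarith
  have h4 : (Nat.card (hammingBall n r) : ℝ≥0∞) / (z : ℝ≥0∞)
      = ENNReal.ofReal ((Nat.card (hammingBall n r) : ℝ) / z) := by
    rw [ENNReal.ofReal_div_of_pos hz, ENNReal.ofReal_natCast, ENNReal.ofReal_natCast]
  rw [h4]
  exact ENNReal.ofReal_le_ofReal h3

end Pool.Agent.Lib.MP_f8d60a_co.F8
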