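import Mathlib
import Pool.Agent.Lib.MP_f8d60a_co.F8Final
import Pool.Agent.Lib.MP_f8d60a_co_h11.Sys

/-! Cost bookkeeping and the induction for `f r = 1`. -/

set_option autoImplicit false

open Finset

namespace Pool.Agent.Lib.MP_f8d60a_co.F8

open Pool.Agent.Lib.MP_f8d60a_co.Small Pool.Agent.Lib.MP_f8d60a_co.One
open Pool.Agent.Lib.MP_f8d60a_co_h11 (Sys)

/-- A matching family of `2 r`-subsets. -/
structure Match (r : ℕ) {K E : Type} [AddCommGroup E] (κ : K → E) (L : Set E)
    (CC : Set (Finset K)) : Prop where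
  card : ∀ C ∈ CC, C.card = 2 * r
  sum : ∀ C ∈ CC, ∑ s ∈ C, κ s = 0
  uniq : ∀ d ∈ L, ∀ D : Finset K, D.card = r → ∑ s ∈ D, κ s = d → ∃! C, C ∈ CC ∧ D ⊆ C

/-- all elements outside `L` are `r`-fold sums of elements of `Y` -/
def Cost (r : ℕ) {E : Type} [AddCommGroup E] (L : Set E) (Y : Finset E) : Prop :=
  ∀ e, e ∉ L → ∃ y : Fin r → E, (∀ j, y j ∈ Y) ∧ ∑ j, y j = e

/-- every finite elementary abelian `2`-group is the `r`-fold sum set of a small set -/
theorem exists_sum_cover (r : ℕ) (hr : 1 ≤ r) (G : Type) [AddCommGroup G] [Module (ZMod 2) G]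
    [Finite G] : ∃ (Y : Finset G) (M : ℕ), Y.card ≤ r * M ∧ M ^ r ≤ 2 ^ r * Nat.card G ∧
      ∀ g, ∃ y : Fin r → G, (∀ j, y j ∈ Y) ∧ ∑ j, y j = g := by
  classical
  have : Fintype G := Fintype.ofFinite G
  have : Module.Finite (ZMod 2) G := Module.Finite.of_finite
  set β := Module.finrank (ZMod 2) G with hβ
  have hcard : Nat.card G = 2 ^ β := by
    rw [Nat.card_eq_fintype_card, Module.card_eq_pow_finrank (K := ZMod 2), ZMod.card]
  set m := (β + r - 1) / r with hm
  have hm1 : β ≤ r * m := by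
    have h1 : (β + r - 1) % r < r := Nat.mod_lt _ (by omega)
    have h2 := Nat.div_add_mod (β + r - 1) r
    rw [← hm] at h2
    omega
  have hm2 : r * m ≤ β + r - 1 := by
    have h2 := Nat.div_add_mod (β + r - 1) r
    rw [← hm] at h2
    omega
  let b := Module.finBasis (ZMod 2) G
  -- a linear surjection from `Fin r → Fin m → ZMod 2`
  let idx : Fin r × Fin m → ℕ := fun p => p.1.1 * m + p.2.1
  let v : Fin r × Fin m → G := fun p => if h : idx p < β then b ⟨idx p, h⟩ else 0
  let Yj : Fin r → Finset G := fun j =>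
    univ.image fun c : Fin m → ZMod 2 => ∑ t, c t • v (j, t)
  refine ⟨univ.biUnion Yj, 2 ^ m, ?_, ?_, ?_⟩
  · refine card_biUnion_le.trans ?_
    calc ∑ j, (Yj j).card ≤ ∑ _j : Fin r, 2 ^ m := sum_le_sum fun j _ => by
          refine card_image_le.trans ?_
          simp [ZMod.card]
      _ = r * 2 ^ m := by simp
  · rw [hcard, ← pow_mul, ← pow_add]
    apply Nat.pow_le_pow_right (by norm_num)
    rw [mul_comm]
    omega
  · intro g
    let c : Fin r → Fin m → ZMod 2 := fun j t =>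
      if h : idx (j, t) < β then b.repr g ⟨idx (j, t), h⟩ else 0
    refine ⟨fun j => ∑ t, c j t • v (j, t), ?_, ?_⟩
    · intro j
      rw [mem_biUnion]
      exact ⟨j, mem_univ _, mem_image_of_mem _ (mem_univ _)⟩
    · rw [← b.sum_repr g]
      rw [← Fintype.sum_prod_type' (f := fun j t => c j t • v (j, t))]
      have hinj : ∀ p q : Fin r × Fin m, idx p = idx q → p = q := by
        rintro ⟨j, t⟩ ⟨j', t'⟩ h
        simp only [idx] at h
        have hmpos : 0 < m := t.pos
        have h1 : j.1 = j'.1 := by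
          have e1 : (j.1 * m + t.1) / m = j.1 := by
            rw [mul_comm, Nat.mul_add_div hmpos, Nat.div_eq_of_lt t.2, add_zero]
          have e2 : (j'.1 * m + t'.1) / m = j'.1 := by
            rw [mul_comm, Nat.mul_add_div hmpos, Nat.div_eq_of_lt t'.2, add_zero]
          rw [← e1, ← e2, h]
        have h2 : t.1 = t'.1 := by
          rw [h1] at h
          omega
        rw [Prod.mk.injEq]
        exact ⟨Fin.ext h1, Fin.ext h2⟩
      have hsurj : ∀ i : Fin β, ∃ p : Fin r × Fin m, idx p = i.1 := by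
        intro i
        have hi : i.1 < r * m := lt_of_lt_of_le i.2 hm1
        have hmpos : 0 < m := by
          rcases Nat.eq_zero_or_pos m with h | h
          · rw [h] at hi; omega
          · exact h
        refine ⟨(⟨i.1 / m, ?_⟩, ⟨i.1 % m, Nat.mod_lt _ hmpos⟩), ?_⟩
        · rw [Nat.div_lt_iff_lt_mul hmpos]; exact hi
        · simp only [idx]
          rw [mul_comm]
          exact Nat.div_add_mod _ _
      -- the sum over pairs restricts to those with index `< β`
      have h1 : ∑ p : Fin r × Fin m, c p.1 p.2 • v (p.1, p.2) =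
          ∑ p ∈ univ.filter (fun p : Fin r × Fin m => idx p < β), c p.1 p.2 • v (p.1, p.2) := by
        symm
        apply sum_subset (filter_subset _ _)
        intro p _ hp
        simp only [mem_filter, mem_univ, true_and] at hp
        simp only [c, v, hp, dif_neg, not_false_eq_true, smul_zero]
      rw [h1]
      refine sum_bij (fun p hp => (⟨idx p, (mem_filter.1 hp).2⟩ : Fin β)) ?_ ?_ ?_ ?_
      · intro p hp; exact mem_univ _
      · intro p hp q hq h
        exact hinj p q (Fin.mk.inj_iff.1 h)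
      · intro i _
        obtain ⟨p, hp⟩ := hsurj i
        exact ⟨p, mem_filter.2 ⟨mem_univ _, by rw [hp]; exact i.2⟩, Fin.ext hp⟩
      · intro p hp
        have hp' := (mem_filter.1 hp).2
        simp only [c, v]
        rw [dif_pos hp', dif_pos hp']

/-- the induction predicate -/
def P (r N : ℕ) (c : ℝ) : Prop :=
  ∀ η : ℝ, 0 < η → ∀ n0 : ℕ, ∃ (K E : Type) (_ : Fintype K) (_ : AddCommGroup E)
    (_ : Module (ZMod 2) E) (_ : Finite E) (κ : K → E) (L : Set E) (Y : Finset E),
    Sys r κ L N ∧ Cost r L Y ∧ n0 ≤ Fintype.card K ∧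
    ((Fintype.card K : ℝ)) ^ r ≤ c * Nat.card E ∧ (Y.card : ℝ) ≤ η * Fintype.card K

/-- Lift I as a statement -/
def LiftI (r : ℕ) : Prop :=
  ∀ (K E : Type) [Fintype K] [AddCommGroup E] [Module (ZMod 2) E] [Finite E] (κ : K → E)
    (L : Set E) (N i : ℕ), Sys r κ L N → 1 ≤ i → 2 ^ i ≤ N →
    ∃ C0 : ℕ, ∀ q0 : ℕ, ∃ (V H : Type) (_ : Fintype V) (_ : Nonempty V) (_ : AddCommGroup H)
      (_ : Module (ZMod 2) H) (_ : Finite H) (p : K → V → H) (B : Fin C0 → AddSubgroup H)
      (CC : Set (Finset (K × V))),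
      Nat.card H = Fintype.card V ^ r ∧ (∀ b, Nat.card (B b) * q0 ≤ Nat.card H) ∧
      Sys r (fun x : K × V => (κ x.1, p x.1 x.2)) {x : E × H | x.1 ∈ L ∧ ∀ b, x.2 ∉ B b} (2 ^ i) ∧
      Match r (fun x : K × V => (κ x.1, p x.1 x.2)) {x : E × H | x.1 ∈ L ∧ ∀ b, x.2 ∉ B b} CC

/-- Lift II as a statement -/
def LiftII (r : ℕ) : Prop :=
  ∀ (K E : Type) [Fintype K] [AddCommGroup E] [Module (ZMod 2) E] [Finite E] (κ : K → E)
    (L : Set E) (N : ℕ) (CC : Set (Finset K)), Sys r κ L (2 * N) → Match r κ L CC →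
    ∃ (V H : Type) (_ : Fintype V) (_ : Nonempty V) (_ : AddCommGroup H)
      (_ : Module (ZMod 2) H) (_ : Finite H) (p : K → V → H) (τ : V → ZMod 2),
      Nat.card H = Fintype.card V ^ r ∧
      Sys r (fun x : K × V => ((κ x.1, p x.1 x.2), τ x.2)) {x : (E × H) × ZMod 2 | x.1.1 ∈ L} N

/-- the base as a statement -/
def Base (r : ℕ) : Prop := ∀ k : ℕ, r ≤ k → P r (k.choose r) ((k : ℝ) ^ r)

/-- the two lifts together -/
theorem P_step {r : ℕ} (hr : 1 ≤ r) (h1 : LiftI r) (h2 : LiftII r) {N i : ℕ} {c : ℝ}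
    (hP : P r N c) (hi : 2 ^ (i + 1) ≤ N) : P r (2 ^ i) (c / 2) := by
  classical
  intro η hη n0
  have hrR : (1 : ℝ) ≤ r := by exact_mod_cast hr
  -- the old system
  obtain ⟨K, E, _, _, _, _, κ, L, Y, hS, hY, hK, hden, hYc⟩ :=
    hP (η / (16 * r ^ 2)) (by positivity) (max n0 1)
  have hKn0 : n0 ≤ Fintype.card K := (le_max_left _ _).trans hK
  have hK1 : 1 ≤ Fintype.card K := (le_max_right _ _).trans hK
  have hKpos : (0 : ℝ) < Fintype.card K := by exact_mod_cast hK1
  have : Fintype E := Fintype.ofFinite E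
  obtain ⟨C0, hC0⟩ := h1 K E κ L N (i + 1) hS (by omega) hi
  obtain ⟨T, hT⟩ := exists_nat_ge (32 * r ^ 2 * (Fintype.card E * C0) / η : ℝ)
  obtain ⟨V, H, _, _, _, _, _, p, B, CC, hH, hB, hS1, hM1⟩ := hC0 ((T + 1) ^ r)
  have : Fintype H := Fintype.ofFinite H
  have hVpos : 1 ≤ Fintype.card V := Fintype.card_pos
  -- the covers
  obtain ⟨YH, MH, hYH1, hYH2, hYH3⟩ := exists_sum_cover r hr H
  have hBmod : ∀ b, ∃ (Z : Finset H) (M : ℕ), Z.card ≤ r * M ∧ M ^ r ≤ 2 ^ r * Nat.card (B b) ∧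
      ∀ g ∈ B b, ∃ y : Fin r → H, (∀ j, y j ∈ Z) ∧ ∑ j, y j = g := by
    intro b
    let B' : Submodule (ZMod 2) H := (B b).toZModSubmodule 2
    obtain ⟨Z, M, hZ1, hZ2, hZ3⟩ := exists_sum_cover r hr B'
    refine ⟨Z.image (fun x : B' => (x : H)), M, card_image_le.trans hZ1, ?_, ?_⟩
    · exact hZ2
    · intro g hg
      obtain ⟨y, hy1, hy2⟩ := hZ3 ⟨g, hg⟩
      refine ⟨fun j => (y j : H), fun j => mem_image_of_mem (fun x : B' => (x : H)) (hy1 j), ?_⟩
      have := congrArg (fun x : B' => (x : H)) hy2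
      simpa using this
  choose Z M hZ1 hZ2 hZ3 using hBmod
  have hMH : MH ≤ 2 * Fintype.card V := by
    rw [hH, ← mul_pow] at hYH2
    exact le_of_pow_le_pow_left₀ (by omega) (by omega) hYH2
  have hMb : ∀ b, M b * (T + 1) ≤ 2 * Fintype.card V := by
    intro b
    have h3 : (M b * (T + 1)) ^ r ≤ (2 * Fintype.card V) ^ r := by
      rw [mul_pow, mul_pow]
      calc M b ^ r * (T + 1) ^ r ≤ 2 ^ r * Nat.card (B b) * (T + 1) ^ r :=
            Nat.mul_le_mul_right _ (hZ2 b)
        _ = 2 ^ r * (Nat.card (B b) * (T + 1) ^ r) := by ring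
        _ ≤ 2 ^ r * Nat.card H := Nat.mul_le_mul_left _ (hB b)
        _ = 2 ^ r * Fintype.card V ^ r := by rw [hH]
    exact le_of_pow_le_pow_left₀ (by omega) (by omega) h3
  set Y1 : Finset (E × H) := (Y ×ˢ YH) ∪
    univ.biUnion (fun x : E × Fin C0 => (Z x.2).image (fun h => (x.1, h)) ∪
      (Z x.2).image (fun h => (0, h))) with hY1
  set L1 : Set (E × H) := {x | x.1 ∈ L ∧ ∀ b, x.2 ∉ B b} with hL1
  have hcost1 : Cost r L1 Y1 := by
    rintro ⟨e, A⟩ he
    by_cases heL : e ∈ L
    · have : ∃ b, A ∈ B b := by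
        by_contra hcon
        push Not at hcon
        exact he ⟨heL, hcon⟩
      obtain ⟨b, hb⟩ := this
      obtain ⟨y, hy1, hy2⟩ := hZ3 b A hb
      have : NeZero r := ⟨by omega⟩
      refine ⟨fun j => (if j = 0 then e else 0, y j), ?_, ?_⟩
      · intro j
        rw [hY1, mem_union]
        right
        rw [mem_biUnion]
        refine ⟨(e, b), mem_univ _, ?_⟩
        rw [mem_union]
        by_cases hj : j = 0
        · left
          simp only [if_pos hj]
          exact mem_image_of_mem _ (hy1 j)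
        · right
          simp only [if_neg hj]
          exact mem_image_of_mem _ (hy1 j)
      · rw [Prod.ext_iff]
        constructor
        · rw [Prod.fst_sum]
          simp
        · rw [Prod.snd_sum]
          exact hy2
    · obtain ⟨y, hy1, hy2⟩ := hY e heL
      obtain ⟨h, hh1, hh2⟩ := hYH3 A
      refine ⟨fun j => (y j, h j), ?_, ?_⟩
      · intro j
        rw [hY1, mem_union]
        left
        exact mem_product.2 ⟨hy1 j, hh1 j⟩
      · rw [Prod.ext_iff]
        constructor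
        · rw [Prod.fst_sum]; exact hy2
        · rw [Prod.snd_sum]; exact hh2
  have hY1c : (Y1.card : ℝ) ≤ η / (4 * r) * (Fintype.card K * Fintype.card V) := by
    have h3 : Y1.card ≤ Y.card * (r * MH) + ∑ x : E × Fin C0, (r * M x.2 + r * M x.2) := by
      refine (card_union_le _ _).trans (Nat.add_le_add ?_ ?_)
      · rw [card_product]
        exact Nat.mul_le_mul_left _ hYH1
      · refine card_biUnion_le.trans (sum_le_sum fun x _ => ?_)
        refine (card_union_le _ _).trans (Nat.add_le_add ?_ ?_)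
        · exact card_image_le.trans (hZ1 _)
        · exact card_image_le.trans (hZ1 _)
    have h4 : (MH : ℝ) ≤ 2 * Fintype.card V := by exact_mod_cast hMH
    have hT1 : (0 : ℝ) < T + 1 := by positivity
    have h5 : ∀ b, (M b : ℝ) ≤ 2 * Fintype.card V / (T + 1) := by
      intro b
      rw [le_div_iff₀ hT1]
      exact_mod_cast hMb b
    have h6 : (Y1.card : ℝ) ≤ (Y.card : ℝ) * (r * (2 * Fintype.card V)) +
        (Fintype.card E * C0 : ℝ) * (2 * r * (2 * Fintype.card V / (T + 1))) := by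
      have h7 : (Y1.card : ℝ) ≤ (Y.card : ℝ) * (r * MH) +
          ∑ x : E × Fin C0, ((r : ℝ) * M x.2 + r * M x.2) := by
        exact_mod_cast h3
      refine h7.trans (add_le_add ?_ ?_)
      · gcongr
      · calc ∑ x : E × Fin C0, ((r : ℝ) * M x.2 + r * M x.2)
            ≤ ∑ _x : E × Fin C0, (2 * r * (2 * Fintype.card V / (T + 1)) : ℝ) := by
              refine sum_le_sum fun x _ => ?_
              have := h5 x.2
              have h8 : (r : ℝ) * M x.2 ≤ r * (2 * Fintype.card V / (T + 1)) := by gcongr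
              linarith
          _ = _ := by simp
    refine h6.trans ?_
    have h9 : (Y.card : ℝ) * (r * (2 * Fintype.card V)) ≤
        η / (8 * r) * (Fintype.card K * Fintype.card V) := by
      calc (Y.card : ℝ) * (r * (2 * Fintype.card V))
          ≤ (η / (16 * r ^ 2) * Fintype.card K) * (r * (2 * Fintype.card V)) := by gcongr
        _ = η / (8 * r) * (Fintype.card K * Fintype.card V) := by
          field_simp
          ring
    have h10 : (Fintype.card E * C0 : ℝ) * (2 * r * (2 * Fintype.card V / (T + 1))) ≤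
        η / (8 * r) * (Fintype.card K * Fintype.card V) := by
      have h11 : 32 * (r:ℝ) ^ 2 * (Fintype.card E * C0) ≤ η * (T + 1) := by
        rw [div_le_iff₀ hη] at hT
        nlinarith
      have h12 : (Fintype.card E * C0 : ℝ) * (2 * r * (2 * Fintype.card V / (T + 1))) =
          (32 * (r:ℝ) ^ 2 * (Fintype.card E * C0)) / (T + 1) * (Fintype.card V / (8 * r)) := by
        field_simp
        ring
      rw [h12]
      have h13 : (32 * (r:ℝ) ^ 2 * (Fintype.card E * C0)) / (T + 1) ≤ η := by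
        rw [div_le_iff₀ hT1]; exact h11
      have h14 : (1 : ℝ) ≤ Fintype.card K := by exact_mod_cast hK1
      calc (32 * (r:ℝ) ^ 2 * (Fintype.card E * C0)) / (T + 1) * (Fintype.card V / (8 * r))
          ≤ η * (Fintype.card V / (8 * r)) := by gcongr
        _ ≤ η * (Fintype.card V / (8 * r)) * Fintype.card K :=
            le_mul_of_one_le_right (by positivity) h14
        _ = η / (8 * r) * (Fintype.card K * Fintype.card V) := by ring
    have h15 : η / (8 * r) * (Fintype.card K * Fintype.card V) +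
        η / (8 * r) * (Fintype.card K * Fintype.card V) =
        η / (4 * r) * (Fintype.card K * Fintype.card V) := by
      field_simp
      ring
    linarith
  -- the second lift
  have hpow : 2 ^ (i + 1) = 2 * 2 ^ i := by ring
  rw [hpow] at hS1
  obtain ⟨V2, H2, _, _, _, _, _, p2, τ, hH2, hS2⟩ := h2 (K × V) (E × H) _ L1 (2 ^ i) CC hS1 hM1
  have : Fintype H2 := Fintype.ofFinite H2
  have hV2pos : 1 ≤ Fintype.card V2 := Fintype.card_pos
  obtain ⟨YG, MG, hYG1, hYG2, hYG3⟩ := exists_sum_cover r hr (H2 × ZMod 2)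
  have hMG : MG ≤ 4 * Fintype.card V2 := by
    have hc2 : Nat.card (H2 × ZMod 2) = Fintype.card V2 ^ r * 2 := by
      rw [Nat.card_prod, hH2, Nat.card_eq_fintype_card, ZMod.card]
    rw [hc2] at hYG2
    have h3 : MG ^ r ≤ (4 * Fintype.card V2) ^ r := by
      refine hYG2.trans ?_
      have h4 : 2 ≤ 2 ^ r := by
        calc 2 = 2 ^ 1 := by norm_num
          _ ≤ 2 ^ r := Nat.pow_le_pow_right (by norm_num) hr
      have h5 : (4 : ℕ) ^ r = 2 ^ r * 2 ^ r := by
        rw [← mul_pow]; norm_num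
      rw [mul_pow, h5]
      calc 2 ^ r * (Fintype.card V2 ^ r * 2) = 2 ^ r * 2 * Fintype.card V2 ^ r := by ring
        _ ≤ 2 ^ r * 2 ^ r * Fintype.card V2 ^ r :=
          Nat.mul_le_mul_right _ (Nat.mul_le_mul_left _ h4)
    exact le_of_pow_le_pow_left₀ (by omega) (by omega) h3
  set Y2 : Finset ((E × H) × H2 × ZMod 2) := Y1 ×ˢ YG with hY2
  -- reassociate
  let as : (E × H) × H2 × ZMod 2 → ((E × H) × H2) × ZMod 2 := fun x => ((x.1, x.2.1), x.2.2)
  refine ⟨(K × V) × V2, ((E × H) × H2) × ZMod 2, inferInstance, inferInstance, inferInstance,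
    inferInstance, _, _, Y2.image as, hS2, ?_, ?_, ?_, ?_⟩
  · rintro ⟨⟨e, A⟩, β⟩ he
    have he' : e ∉ L1 := he
    obtain ⟨y, hy1, hy2⟩ := hcost1 e he'
    obtain ⟨g, hg1, hg2⟩ := hYG3 (A, β)
    refine ⟨fun j => ((y j, (g j).1), (g j).2), ?_, ?_⟩
    · intro j
      rw [mem_image]
      exact ⟨(y j, g j), mem_product.2 ⟨hy1 j, hg1 j⟩, rfl⟩
    · have e1 : ∑ j, (g j).1 = A := by
        have := congrArg Prod.fst hg2
        rwa [Prod.fst_sum] at this
      have e2 : ∑ j, (g j).2 = β := by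
        have := congrArg Prod.snd hg2
        rwa [Prod.snd_sum] at this
      rw [Prod.ext_iff, Prod.fst_sum, Prod.snd_sum]
      refine ⟨?_, e2⟩
      rw [Prod.ext_iff, Prod.fst_sum, Prod.snd_sum]
      exact ⟨hy2, e1⟩
  · rw [Fintype.card_prod, Fintype.card_prod]
    calc n0 ≤ Fintype.card K := hKn0
      _ = Fintype.card K * 1 * 1 := by ring
      _ ≤ Fintype.card K * Fintype.card V * Fintype.card V2 :=
        Nat.mul_le_mul (Nat.mul_le_mul_left _ hVpos) hV2pos
  · rw [Fintype.card_prod, Fintype.card_prod]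
    simp only [Nat.card_prod, hH, hH2]
    have hz : Nat.card (ZMod 2) = 2 := by rw [Nat.card_eq_fintype_card, ZMod.card]
    rw [hz]
    push_cast
    calc ((Fintype.card K : ℝ) * Fintype.card V * Fintype.card V2) ^ r
        = (Fintype.card K : ℝ) ^ r * (Fintype.card V ^ r * Fintype.card V2 ^ r) := by
          rw [mul_pow, mul_pow]; ring
      _ ≤ (c * Nat.card E) * (Fintype.card V ^ r * Fintype.card V2 ^ r) := by gcongr
      _ = _ := by ring
  · have h3 : (Y2.image as).card ≤ Y1.card * (r * MG) := by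
      refine card_image_le.trans ?_
      rw [hY2, card_product]
      exact Nat.mul_le_mul_left _ hYG1
    have h4 : ((Y2.image as).card : ℝ) ≤ (Y1.card : ℝ) * (r * MG) := by exact_mod_cast h3
    have h5 : (MG : ℝ) ≤ 4 * Fintype.card V2 := by exact_mod_cast hMG
    refine h4.trans ?_
    rw [Fintype.card_prod, Fintype.card_prod]
    push_cast
    calc (Y1.card : ℝ) * (r * MG)
        ≤ (η / (4 * r) * (Fintype.card K * Fintype.card V)) * (r * (4 * Fintype.card V2)) := by
          gcongr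
      _ = η * (Fintype.card K * Fintype.card V * Fintype.card V2) := by
          field_simp

/-- the induction -/
theorem P_one {r : ℕ} (hr : 1 ≤ r) (h1 : LiftI r) (h2 : LiftII r) :
    ∀ (i : ℕ) {N : ℕ} {c : ℝ}, P r N c → 2 ^ (i + 1) ≤ N → P r 1 (c / 2 ^ (i + 1)) := by
  intro i
  induction i with
  | zero =>
    intro N c hP hN
    have := P_step hr h1 h2 (i := 0) hP hN
    simpa using this
  | succ i ih =>
    intro N c hP hN
    have h3 := P_step hr h1 h2 (i := i + 1) hP hN
    have h4 := ih h3 le_rfl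
    have h5 : c / 2 / 2 ^ (i + 1) = c / 2 ^ (i + 1 + 1) := by
      rw [div_div, ← pow_succ']
    rwa [h5] at h4

/-- a good choice of `k` and `i` -/
theorem exists_k (r : ℕ) (hr : 1 ≤ r) (ε : ℝ) (hε : 0 < ε) :
    ∃ k i : ℕ, r ≤ k ∧ 2 ^ (i + 1) ≤ k.choose r ∧
      (k : ℝ) ^ r / 2 ^ (i + 1) ≤ (1 + ε) * r.factorial := by
  -- eventually `k ^ r ≤ (1 + ε) (k - r) ^ r`
  have hlim : Filter.Tendsto (fun k : ℕ => (1 + ε) * (1 - (r : ℝ) / k) ^ r) Filter.atTop
      (nhds ((1 + ε) * (1 - 0) ^ r)) := by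
    apply Filter.Tendsto.const_mul
    apply Filter.Tendsto.pow
    exact tendsto_const_nhds.sub (tendsto_const_div_atTop_nhds_zero_nat _)
  have hev := hlim.eventually (lt_mem_nhds (a := 1) (by simp; exact hε))
  obtain ⟨k0, hk0⟩ := Filter.eventually_atTop.1 hev
  -- the exponent
  obtain ⟨i, hi⟩ : ∃ i : ℕ, (k0 + r + 1) ^ r < 2 ^ (i + 1) :=
    ⟨(k0 + r + 1) ^ r, (Nat.lt_pow_self (by norm_num)).trans
      (Nat.pow_lt_pow_right (by norm_num) (Nat.lt_succ_self _))⟩
  have hex : ∃ k : ℕ, 2 ^ (i + 1) ≤ k.choose r := by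
    refine ⟨r.factorial * 2 ^ (i + 1) + r, ?_⟩
    have h1 : (r.factorial * 2 ^ (i + 1) + r + 1 - r) ^ r ≤
        r.factorial * (r.factorial * 2 ^ (i + 1) + r).choose r := by
      rw [← Nat.descFactorial_eq_factorial_mul_choose]
      exact Nat.pow_sub_le_descFactorial _ _
    have h2 : r.factorial * 2 ^ (i + 1) ≤ (r.factorial * 2 ^ (i + 1) + r + 1 - r) ^ r := by
      calc r.factorial * 2 ^ (i + 1) ≤ r.factorial * 2 ^ (i + 1) + r + 1 - r := by omega
        _ = (r.factorial * 2 ^ (i + 1) + r + 1 - r) ^ 1 := by rw [pow_one]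
        _ ≤ _ := Nat.pow_le_pow_right (by omega) hr
    exact Nat.le_of_mul_le_mul_left (h2.trans h1) (Nat.factorial_pos r)
  classical
  let k := Nat.find hex
  have hk : 2 ^ (i + 1) ≤ k.choose r := Nat.find_spec hex
  have hkr : r ≤ k := by
    by_contra hcon
    push Not at hcon
    rw [Nat.choose_eq_zero_of_lt hcon] at hk
    have : 0 < 2 ^ (i + 1) := by positivity
    omega
  have hkpow : k.choose r ≤ k ^ r := Nat.choose_le_pow k r
  have hkbig : k0 + r + 1 < k := by
    by_contra hcon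
    push Not at hcon
    have := Nat.pow_le_pow_left hcon r
    omega
  have hk1 : (k - 1).choose r < 2 ^ (i + 1) := by
    have := Nat.find_min hex (m := k - 1) (by change k - 1 < k; omega)
    omega
  have h3 : (k - r) ^ r ≤ r.factorial * (k - 1).choose r := by
    rw [← Nat.descFactorial_eq_factorial_mul_choose]
    have := Nat.pow_sub_le_descFactorial (k - 1) r
    have h4 : k - 1 + 1 - r = k - r := by omega
    rwa [h4] at this
  refine ⟨k, i, hkr, hk, ?_⟩
  rw [div_le_iff₀ (by positivity)]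
  have hkpos : (0 : ℝ) < k := by
    have : 0 < k := by omega
    exact_mod_cast this
  have h5 : ((k : ℝ) - r) ^ r ≤ r.factorial * 2 ^ (i + 1) := by
    have h6 : (k - r) ^ r ≤ r.factorial * 2 ^ (i + 1) :=
      h3.trans (Nat.mul_le_mul_left _ hk1.le)
    have h7 : (((k - r : ℕ) : ℝ)) ^ r ≤ r.factorial * 2 ^ (i + 1) := by exact_mod_cast h6
    rwa [Nat.cast_sub hkr] at h7
  have h8 := hk0 k (by omega)
  have h9 : (k : ℝ) ^ r ≤ (1 + ε) * ((k : ℝ) - r) ^ r := by
    have h10 : ((k : ℝ) - r) ^ r = (k : ℝ) ^ r * (1 - (r : ℝ) / k) ^ r := by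
      rw [← mul_pow]
      congr 1
      field_simp
    rw [h10]
    have h11 : (0 : ℝ) < (k : ℝ) ^ r := by positivity
    nlinarith
  calc (k : ℝ) ^ r ≤ (1 + ε) * ((k : ℝ) - r) ^ r := h9
    _ ≤ (1 + ε) * (r.factorial * 2 ^ (i + 1)) := by gcongr
    _ = (1 + ε) * r.factorial * 2 ^ (i + 1) := by ring

/-- everything together -/
theorem all_one_of (hB : ∀ r, 1 ≤ r → Base r) (h1 : ∀ r, 1 ≤ r → LiftI r)
    (h2 : ∀ r, 1 ≤ r → LiftII r) : ∀ r, N8b55e67f.f r = 1 := by
  apply all_one
  intro r hr ε hε n0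
  -- a small number
  obtain ⟨δ, hδ, hδ1⟩ : ∃ δ : ℝ, 0 < δ ∧ (1 + δ) ^ (r + 1) ≤ 1 + ε := by
    have hcont : Filter.Tendsto (fun δ : ℝ => (1 + δ) ^ (r + 1)) (nhdsWithin 0 (Set.Ioi 0))
        (nhds ((1 + 0) ^ (r + 1))) := by
      apply Filter.Tendsto.mono_left _ nhdsWithin_le_nhds
      exact ((continuous_const.add continuous_id).pow _).tendsto 0
    have h0 : ((1 : ℝ) + 0) ^ (r + 1) < 1 + ε := by
      rw [add_zero, one_pow]; linarith
    have hev := hcont.eventually (gt_mem_nhds h0)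
    obtain ⟨δ, hδ1, hδ2⟩ := (hev.and self_mem_nhdsWithin).exists
    exact ⟨δ, hδ2, hδ1.le⟩
  obtain ⟨k, i, hk, hki, hkc⟩ := exists_k r hr δ hδ
  have hP := P_one hr (h1 r hr) (h2 r hr) i (hB r hr k hk) hki
  obtain ⟨K, E, _, _, _, _, κ, L, Y, hS, hY, hK, hden, hYc⟩ := hP δ hδ (max n0 1)
  classical
  have : Fintype E := Fintype.ofFinite E
  refine ⟨Fintype.card (K ⊕ Y), Nat.card E, ?_, ?_, ?_⟩
  · rw [Fintype.card_sum]
    exact ((le_max_left _ _).trans hK).trans (Nat.le_add_right _ _)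
  · refine hasCov_of_fin_sums (Sum.elim κ (fun y : Y => (y : E))) ?_
    intro z
    by_cases hz : z ∈ L
    · have h3 := hS.card z hz
      rw [Set.ncard_eq_one] at h3
      obtain ⟨D, hD⟩ := h3
      have hD1 : D.card = r ∧ ∑ s ∈ D, κ s = z := by
        have : D ∈ ({D : Finset K | D.card = r ∧ ∑ s ∈ D, κ s = z} : Set (Finset K)) := by
          rw [hD]; exact Set.mem_singleton _
        exact this
      let e : Fin r ≃ D := (Finset.equivFinOfCardEq hD1.1).symm
      refine ⟨fun j => Sum.inl (e j : K), ?_⟩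
      simp only [Sum.elim_inl]
      rw [← hD1.2, ← Finset.sum_coe_sort D]
      exact Equiv.sum_comp e (fun s : D => κ s)
    · obtain ⟨y, hy1, hy2⟩ := hY z hz
      refine ⟨fun j => Sum.inr ⟨y j, hy1 j⟩, ?_⟩
      simpa using hy2
  · rw [Fintype.card_sum, Fintype.card_coe]
    push_cast
    have hKpos : (0:ℝ) ≤ Fintype.card K := by positivity
    have hEpos : (0:ℝ) ≤ Nat.card E := by positivity
    calc ((Fintype.card K : ℝ) + Y.card) ^ r ≤ ((1 + δ) * Fintype.card K) ^ r := by
          apply pow_le_pow_left₀ (by positivity)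
          linarith
      _ = (1 + δ) ^ r * (Fintype.card K : ℝ) ^ r := by rw [mul_pow]
      _ ≤ (1 + δ) ^ r * ((k : ℝ) ^ r / 2 ^ (i + 1) * Nat.card E) := by gcongr
      _ ≤ (1 + δ) ^ r * (((1 + δ) * r.factorial) * Nat.card E) := by gcongr
      _ = r.factorial * Nat.card E * (1 + δ) ^ (r + 1) := by ring
      _ ≤ r.factorial * Nat.card E * (1 + ε) := by gcongr

end Pool.Agent.Lib.MP_f8d60a_co.F8
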