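import Mathlib

/-! A set of 51 vectors of `F_2^10` whose pairwise sums exhaust the space, with a map onto 33
classes such that every nonzero vector is the sum of two members of different classes. -/

namespace Pool.Agent.Lib.MP_f8d60a_co.R2

/-- A finite family of `51 * 2^a` vectors of a binary space of dimension `10 + 2a`, with a map onto
`2^s + 1` classes, such that every nonzero vector is a sum of two members of different classes. -/
def Sys (a s : ℕ) : Prop :=
  ∃ (ι Z : Type) (_ : Fintype ι) (_ : AddCommGroup Z) (_ : Module (ZMod 2) Z) (_ : Finite Z)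
    (p : ι → Z) (c : ι → Fin (2^s + 1)),
    Fintype.card ι = 51 * 2^a ∧ Nat.card Z = 2^(10 + 2*a) ∧ Function.Surjective c ∧
    ∀ z : Z, z ≠ 0 → ∃ i j, c i ≠ c j ∧ p i + p j = z

def pts : List ℕ :=
  [0, 128, 256, 384, 512, 640, 768, 896, 1, 17, 33, 49, 65, 81, 97, 113, 2, 146, 290, 434, 578,
   722, 866, 1010, 660, 580, 900, 308, 852, 484, 244, 36, 824, 456, 520, 984, 744, 248, 296, 24,
   495, 335, 15, 607, 175, 671, 687, 831, 191, 511, 991]

def cls : List ℕ :=
  [0, 1, 2, 3, 4, 1, 2, 3, 5, 6, 7, 8, 9, 6, 7, 8, 10, 11, 12, 13, 11, 12, 13, 11, 14, 15, 16, 17,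
   15, 16, 17, 15, 18, 19, 20, 21, 19, 20, 21, 19, 22, 23, 24, 25, 26, 27, 28, 29, 30, 31, 32]

def wit : List ℕ :=
  [8, 16, 528, 474, 671, 1305, 2095, 290, 615, 1190, 1581, 1957, 1066, 554, 42, 521, 9, 81, 592,
   344, 735, 1179, 2538, 39, 551, 1063, 1643, 1766, 1323, 618, 365, 522, 10, 146, 656, 31, 543,
   1055, 2152, 166, 743, 1507, 2026, 1889, 1136, 682, 108, 523, 11, 211, 720, 155, 607, 1436,
   2161, 416, 679, 1380, 1582, 2023, 1132, 746, 112, 524, 12, 276, 784, 281, 927, 1368, 2350, 225,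
   871, 1314, 1968, 1634, 1265, 810, 169, 525, 13, 341, 848, 412, 991, 1245, 2219, 483, 807, 1440,
   1714, 1699, 1256, 874, 299, 526, 14, 406, 912, 221, 799, 1118, 2473, 356, 999, 1125, 1839,
   1824, 1193, 938, 232, 527, 15, 471, 976, 94, 863, 1498, 2349, 101, 935, 1249, 1769, 1572, 1390,
   1002, 241, 1, 72, 80, 593, 410, 990, 1243, 2153, 354, 997, 1127, 1842, 1827, 1387, 684, 106,
   1041, 73, 17, 529, 280, 926, 1369, 2221, 103, 933, 1254, 2032, 1570, 1130, 688, 301, 2601, 74,
   210, 721, 95, 862, 1500, 2222, 230, 869, 1316, 1897, 1636, 1068, 556, 44, 2673, 75, 147, 657,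
   219, 798, 1119, 2347, 480, 805, 1443, 1711, 1696, 1072, 560, 48, 2797, 76, 340, 849, 345, 734,
   1181, 2472, 161, 741, 1504, 1579, 1894, 1192, 940, 233, 1561, 77, 277, 785, 476, 670, 1304,
   2481, 419, 677, 1378, 1645, 2021, 1201, 944, 363, 2083, 78, 470, 977, 157, 606, 1434, 2098,
   292, 613, 1185, 1646, 1959, 1326, 812, 168, 2798, 79, 407, 913, 30, 542, 1054, 2410, 37, 549,
   1061, 1962, 1761, 1257, 816, 177, 2, 136, 144, 658, 346, 731, 1183, 2417, 418, 678, 1379, 1835,
   2022, 1264, 809, 170, 1562, 137, 209, 722, 472, 667, 1308, 2408, 167, 742, 1508, 1709, 1893,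
   1260, 873, 493, 1042, 138, 18, 530, 159, 603, 1433, 2474, 38, 550, 1062, 1710, 1767, 1194, 937,
   236, 2082, 139, 83, 594, 27, 539, 1051, 2223, 288, 614, 1191, 1770, 1953, 1451, 1001, 240,
   2604, 140, 404, 914, 409, 987, 1246, 2285, 97, 934, 1253, 1586, 1571, 1065, 553, 41, 2608, 141,
   469, 978, 284, 923, 1370, 2537, 355, 998, 1121, 1904, 1826, 1518, 617, 370, 2799, 142, 278,
   786, 93, 859, 1496, 2091, 484, 806, 1442, 2025, 1700, 1137, 681, 104, 2994, 143, 343, 850, 222,
   795, 1117, 2160, 229, 870, 1312, 1647, 1632, 1128, 745, 113, 3, 200, 208, 723, 282, 925, 1372,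
   2283, 482, 801, 1444, 1776, 1698, 1196, 936, 234, 2991, 201, 145, 659, 408, 989, 1247, 2094,
   231, 865, 1315, 1650, 1635, 1200, 945, 429, 2927, 202, 82, 595, 223, 797, 1115, 2093, 102, 929,
   1255, 1583, 1568, 1515, 808, 172, 1043, 203, 19, 531, 91, 861, 1497, 2409, 352, 993, 1126,
   1961, 1828, 1258, 817, 176, 1564, 204, 468, 979, 473, 669, 1306, 2154, 33, 545, 1057, 1837,
   1765, 1454, 680, 105, 2084, 205, 405, 915, 348, 733, 1182, 2226, 291, 609, 1189, 1707, 1958,
   1129, 689, 306, 2602, 206, 342, 851, 29, 541, 1053, 2545, 420, 673, 1376, 1898, 2017, 1064,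
   552, 40, 2672, 207, 279, 787, 158, 605, 1432, 2536, 165, 737, 1506, 1838, 1895, 1073, 561, 49,
   4, 264, 272, 788, 218, 793, 1112, 2218, 34, 546, 1058, 1775, 1760, 1133, 875, 298, 2086, 265,
   337, 852, 88, 857, 1501, 2162, 295, 610, 1184, 1833, 1956, 1199, 811, 109, 2928, 266, 402, 916,
   287, 921, 1374, 2289, 422, 674, 1381, 1584, 2018, 1449, 1003, 110, 2610, 267, 467, 980, 411,
   985, 1242, 2280, 160, 738, 1505, 1580, 1891, 1134, 939, 175, 1044, 268, 20, 532, 25, 537, 1049,
   2348, 481, 802, 1446, 1642, 1697, 1322, 619, 425, 2731, 269, 85, 596, 156, 601, 1435, 2352,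
   227, 866, 1319, 1966, 1639, 1067, 555, 43, 1566, 270, 150, 660, 477, 665, 1311, 2413, 100, 930,
   1251, 1704, 1573, 1266, 747, 488, 2671, 271, 215, 724, 350, 729, 1180, 2089, 357, 994, 1124,
   1713, 1830, 1388, 683, 497, 5, 328, 336, 853, 154, 600, 1437, 2541, 98, 932, 1248, 2030, 1575,
   1263, 621, 362, 2674, 329, 273, 789, 24, 536, 1048, 2281, 359, 996, 1122, 1578, 1825, 1069,
   557, 45, 2734, 330, 466, 981, 351, 728, 1178, 2220, 486, 804, 1441, 1841, 1702, 1070, 558, 46,
   1567, 331, 403, 917, 475, 664, 1310, 2224, 224, 868, 1317, 1832, 1637, 1513, 622, 239, 3057,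
   332, 84, 597, 89, 856, 1499, 2097, 417, 676, 1383, 1705, 2020, 1131, 877, 489, 1045, 333, 21,
   533, 220, 792, 1113, 2088, 163, 740, 1510, 1903, 1888, 1386, 813, 107, 2800, 334, 214, 725,
   413, 984, 1244, 2346, 36, 548, 1060, 1644, 1763, 1324, 814, 424, 2081, 335, 151, 661, 286, 920,
   1375, 2159, 293, 612, 1187, 1648, 1954, 1202, 878, 433, 6, 392, 400, 918, 90, 860, 1502, 2344,
   162, 736, 1509, 1641, 1892, 1321, 751, 426, 2667, 393, 465, 982, 216, 796, 1114, 2353, 423,
   672, 1377, 2031, 2016, 1262, 687, 237, 2087, 394, 274, 790, 415, 988, 1240, 2418, 294, 608,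
   1186, 1708, 1955, 1261, 623, 238, 2735, 395, 339, 854, 283, 924, 1373, 2090, 32, 544, 1056,
   1712, 1762, 1071, 559, 47, 2606, 396, 148, 662, 153, 604, 1439, 2217, 353, 992, 1123, 1902,
   1831, 1138, 1007, 297, 2993, 397, 213, 726, 28, 540, 1052, 2157, 99, 928, 1252, 1834, 1569,
   1516, 943, 114, 1046, 398, 22, 534, 349, 732, 1177, 2158, 228, 864, 1318, 1585, 1638, 1450,
   879, 360, 1565, 399, 87, 598, 478, 668, 1307, 2284, 485, 800, 1447, 1576, 1701, 1195, 815, 369,
   7, 456, 464, 983, 26, 538, 1050, 2096, 226, 867, 1313, 1706, 1633, 1198, 882, 490, 2863, 457,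
   401, 919, 152, 602, 1438, 2092, 487, 803, 1445, 1774, 1703, 1385, 818, 173, 1563, 458, 338,
   855, 479, 666, 1309, 2345, 358, 995, 1120, 1640, 1829, 1135, 1010, 174, 2603, 459, 275, 791,
   347, 730, 1176, 2477, 96, 931, 1250, 1649, 1574, 1197, 946, 111, 2085, 460, 212, 727, 217, 794,
   1116, 2415, 289, 611, 1188, 1967, 1952, 1452, 626, 361, 2669, 461, 149, 663, 92, 858, 1503,
   2282, 35, 547, 1059, 1577, 1764, 1074, 562, 50, 2670, 462, 86, 599, 285, 922, 1371, 2216, 164,
   739, 1511, 1840, 1890, 1259, 754, 296, 1047, 463, 23, 535, 414, 986, 1241, 2225, 421, 675,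
   1382, 1836, 2019, 1514, 690, 305]


/-- one verification: the code `w = 64 i + j` names a good pair for the vector with code `m` -/
def test (w m : ℕ) : Bool :=
  decide (w / 64 < 51) && decide (w % 64 < 51) &&
    decide (cls.getD (w / 64) 0 ≠ cls.getD (w % 64) 0) &&
    decide (Nat.xor (pts.getD (w / 64) 0) (pts.getD (w % 64) 0) = m)

/-- run the verification along a list -/
def check : List ℕ → ℕ → Bool
  | [], _ => true
  | w :: ws, m => test w m && check ws (m + 1)

lemma check_spec (ws : List ℕ) : ∀ m, check ws m = true →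
    ∀ i (h : i < ws.length), test ws[i] (m + i) = true := by
  induction ws with
  | nil => intro m _ i h; simp at h
  | cons w ws ih =>
    intro m hm i h
    rw [check, Bool.and_eq_true] at hm
    cases i with
    | zero => simpa using hm.1
    | succ i =>
      have := ih (m+1) hm.2 i (by simpa using h)
      rw [show m + 1 + i = m + (i + 1) by ring] at this
      simpa using this

lemma check_wit : check wit 1 = true := by decide +kernel

lemma wit_length : wit.length = 1023 := by decide +kernel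

lemma cls_lt : ∀ i : Fin 51, cls.getD i 0 < 33 := by decide +kernel

lemma cls_surj : ∀ k : Fin 33, ∃ i : Fin 51, cls.getD i 0 = k := by decide +kernel

/-- bits of a number as a vector -/
def vec (n : ℕ) : Fin 10 → ZMod 2 := fun j => if n.testBit j then 1 else 0

lemma vec_xor (m n : ℕ) : vec m + vec n = vec (m ^^^ n) := by
  funext j
  simp only [vec, Pi.add_apply, Nat.testBit_xor]
  cases m.testBit j <;> cases n.testBit j <;> decide

lemma vec_inj {m n : ℕ} (hm : m < 1024) (hn : n < 1024) (h : vec m = vec n) : m = n := by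
  apply Nat.eq_of_testBit_eq
  intro i
  rcases Nat.lt_or_ge i 10 with hi | hi
  · have h1 := congrFun h ⟨i, hi⟩
    simp only [vec] at h1
    cases hx : m.testBit i <;> cases hy : n.testBit i <;> simp [hx, hy] at h1 ⊢
  · have hp : (1024:ℕ) ≤ 2^i := by
      calc 1024 = 2^10 := by norm_num
        _ ≤ 2^i := Nat.pow_le_pow_right (by norm_num) hi
    rw [Nat.testBit_lt_two_pow (hm.trans_le hp), Nat.testBit_lt_two_pow (hn.trans_le hp)]

lemma vec_surj (z : Fin 10 → ZMod 2) : ∃ m < 1024, vec m = z := by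
  have hinj : Function.Injective fun m : Fin 1024 => vec m := fun a b h =>
    Fin.ext (vec_inj a.2 b.2 h)
  have hb : Function.Bijective fun m : Fin 1024 => vec m := by
    rw [Fintype.bijective_iff_injective_and_card]
    refine ⟨hinj, ?_⟩
    simp
  obtain ⟨m, hm⟩ := hb.2 z
  exact ⟨m, m.2, hm⟩

theorem base : Sys 0 5 := by
  refine ⟨Fin 51, Fin 10 → ZMod 2, inferInstance, inferInstance, inferInstance, inferInstance,
    fun i => vec (pts.getD i 0), fun i => ⟨cls.getD i 0, cls_lt i⟩, by simp, by simp, ?_, ?_⟩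
  · intro k
    obtain ⟨i, hi⟩ := cls_surj k
    exact ⟨i, Fin.ext hi⟩
  · intro z hz
    obtain ⟨m, hm, rfl⟩ := vec_surj z
    have hm0 : m ≠ 0 := by
      rintro rfl
      apply hz
      funext j
      simp [vec]
    have h1 := check_spec wit 1 check_wit (m - 1) (by rw [wit_length]; omega)
    rw [show 1 + (m - 1) = m by omega] at h1
    set w := wit[m-1]'(by rw [wit_length]; omega) with hw
    simp only [test, Bool.and_eq_true, decide_eq_true_eq] at h1
    obtain ⟨⟨⟨h2, h3⟩, h4⟩, h5⟩ := h1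
    refine ⟨⟨w / 64, h2⟩, ⟨w % 64, h3⟩, ?_, ?_⟩
    · intro h
      exact h4 (congrArg Fin.val h)
    · change vec _ + vec _ = _
      rw [vec_xor]
      congr 1

end Pool.Agent.Lib.MP_f8d60a_co.R2
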