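import Mathlib
import Pool.Agent.Lib.MP_f8d60a_co.R2Base

/-! The product step: lines of `F^2`, `F` a field with `2^s` elements, are distributed to the
classes. -/

open Finset

namespace Pool.Agent.Lib.MP_f8d60a_co.R2

/-- refining a surjection: a map onto `n` classes finer than a given surjection -/
lemma exists_refinement {A B : Type*} [Fintype A] [Fintype B] (h : A → B)
    (hs : Function.Surjective h) {n : ℕ} (h1 : Fintype.card B ≤ n) (h2 : n ≤ Fintype.card A) :
    ∃ g : A → Fin n, Function.Surjective g ∧ ∀ a a', g a = g a' → h a = h a' := by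
  classical
  set s : B → A := Function.surjInv hs with hsdef
  have hsb : ∀ b, h (s b) = b := Function.surjInv_eq hs
  have hinj : Function.Injective s := Function.injective_surjInv hs
  set R : Finset A := (univ.image s)ᶜ with hR
  have hRc : R.card = Fintype.card A - Fintype.card B := by
    rw [hR, card_compl, card_image_of_injective _ hinj, card_univ]
  obtain ⟨X, hX, hXc⟩ := Finset.exists_subset_card_eq (s := R) (n := n - Fintype.card B)
    (by rw [hRc]; omega)
  have hcard : Fintype.card (B ⊕ X) = Fintype.card (Fin n) := by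
    rw [Fintype.card_sum, Fintype.card_coe, hXc, Fintype.card_fin]; omega
  set e : B ⊕ X ≃ Fin n := Fintype.equivOfCardEq hcard
  set g : A → B ⊕ X := fun a => if hx : a ∈ X then Sum.inr ⟨a, hx⟩ else Sum.inl (h a) with hg
  refine ⟨fun a => e (g a), ?_, ?_⟩
  · apply e.surjective.comp
    rintro (b | ⟨x, hx⟩)
    · refine ⟨s b, ?_⟩
      have : s b ∉ X := by
        intro hb
        have := hX hb
        rw [hR, mem_compl] at this
        exact this (mem_image_of_mem _ (mem_univ _))
      simp only [hg, dif_neg this, hsb]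
    · exact ⟨x, by simp only [hg, dif_pos hx]⟩
  · intro a a' haa
    have h3 := e.injective haa
    simp only [hg] at h3
    by_cases ha : a ∈ X <;> by_cases ha' : a' ∈ X
    · rw [dif_pos ha, dif_pos ha'] at h3
      have := congrArg Subtype.val (Sum.inr_injective h3)
      rw [show a = a' from this]
    · rw [dif_pos ha, dif_neg ha'] at h3; cases h3
    · rw [dif_neg ha, dif_pos ha'] at h3; cases h3
    · rw [dif_neg ha, dif_neg ha'] at h3
      exact Sum.inl_injective h3

/-- the point with parameter `t` on the line of slope `l` (`none` is the vertical line) -/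
def pt {F : Type*} [Field F] : Option F → F → F × F
  | none, t => (0, t)
  | some a, t => (t, a * t)

lemma pt_zero {F : Type*} [Field F] (l : Option F) : pt l 0 = 0 := by
  cases l <;> simp [pt]

lemma pt_cover {F : Type*} [Field F] (v : F × F) : ∃ l t, pt l t = v := by
  obtain ⟨x, y⟩ := v
  by_cases hx : x = 0
  · exact ⟨none, y, by simp [pt, hx]⟩
  · exact ⟨some (y / x), x, by simp [pt, hx]⟩

lemma pt_add {F : Type*} [Field F] {l l' : Option F} (h : l ≠ l') (v : F × F) :
    ∃ t t', pt l t + pt l' t' = v := by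
  obtain ⟨x, y⟩ := v
  rcases l with _ | a <;> rcases l' with _ | b
  · exact absurd rfl h
  · refine ⟨y - b * x, x, ?_⟩
    simp [pt]
  · refine ⟨x, y - a * x, ?_⟩
    simp [pt]
  · have hab : a - b ≠ 0 := by
      intro h'
      apply h
      rw [sub_eq_zero.mp h']
    refine ⟨(y - b * x) / (a - b), x - (y - b * x) / (a - b), ?_⟩
    simp only [pt, Prod.mk_add_mk, Prod.mk.injEq]
    constructor
    · ring
    · field_simp
      ring

theorem step {a s : ℕ} (hs : 2 ≤ s) (h : Sys a s) : Sys (a + s) (a + 7) := by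
  classical
  obtain ⟨ι, Z, _, _, _, _, p, c, hι, hZ, hc, hcov⟩ := h
  haveI : Fact (Nat.Prime 2) := ⟨Nat.prime_two⟩
  set F := GaloisField 2 s
  have hF : Nat.card F = 2^s := GaloisField.card 2 s (by omega)
  letI : Fintype F := Fintype.ofFinite F
  have hF' : Fintype.card F = 2^s := by rw [← Nat.card_eq_fintype_card, hF]
  have hopt : Fintype.card (Fin (2^s+1)) = Fintype.card (Option F) := by
    rw [Fintype.card_fin, Fintype.card_option, hF']
  set e : Fin (2^s+1) ≃ Option F := Fintype.equivOfCardEq hopt
  -- the new classes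
  set hh : ι × F → ι × Bool := fun q => (q.1, decide (q.2 = 0)) with hhdef
  have hhs : Function.Surjective hh := by
    rintro ⟨i, b⟩
    cases b
    · exact ⟨(i, 1), by simp [hhdef]⟩
    · exact ⟨(i, 0), by simp [hhdef]⟩
  have hA : Fintype.card (ι × F) = 51 * 2^a * 2^s := by
    rw [Fintype.card_prod, hι, hF']
  have hB : Fintype.card (ι × Bool) = 51 * 2^a * 2 := by
    rw [Fintype.card_prod, hι, Fintype.card_bool]
  have hpow : (4:ℕ) ≤ 2^s := by
    calc 4 = 2^2 := by norm_num
      _ ≤ 2^s := Nat.pow_le_pow_right (by norm_num) hs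
  have hpa : 1 ≤ 2^a := Nat.one_le_two_pow
  have h1 : Fintype.card (ι × Bool) ≤ 2^(a+7) + 1 := by
    rw [hB, pow_add]; omega
  have h2 : 2^(a+7) + 1 ≤ Fintype.card (ι × F) := by
    rw [hA, pow_add]
    have : 51 * 2^a * 4 ≤ 51 * 2^a * 2^s := Nat.mul_le_mul_left _ hpow
    omega
  obtain ⟨g, hg, hgh⟩ := exists_refinement hh hhs h1 h2
  refine ⟨ι × F, Z × (F × F), inferInstance, inferInstance, inferInstance, inferInstance,
    fun q => (p q.1, pt (e (c q.1)) q.2), g, ?_, ?_, hg, ?_⟩
  · rw [hA, pow_add]; ring
  · rw [Nat.card_prod, Nat.card_prod, hZ, hF, ← pow_add, ← pow_add]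
    congr 1; ring
  · rintro ⟨z, v⟩ hzv
    by_cases hz : z = 0
    · subst hz
      obtain ⟨l, t, hlt⟩ := pt_cover v
      obtain ⟨i, hi⟩ := hc (e.symm l)
      have hv : v ≠ 0 := by
        rintro rfl
        exact hzv rfl
      have ht : t ≠ 0 := by
        rintro rfl
        rw [pt_zero] at hlt
        exact hv hlt.symm
      refine ⟨(i, 0), (i, t), ?_, ?_⟩
      · intro h3
        have h4 := congrArg Prod.snd (hgh _ _ h3)
        simp [hhdef, ht] at h4
      · have hl : e (c i) = l := by rw [hi]; simp
        simp only [hl, pt_zero, hlt, Prod.mk_add_mk, zero_add, ZModModule.add_self]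
    · obtain ⟨i, j, hij, hpz⟩ := hcov z hz
      have hne : e (c i) ≠ e (c j) := fun h3 => hij (e.injective h3)
      obtain ⟨t, t', htt⟩ := pt_add hne v
      refine ⟨(i, t), (j, t'), ?_, ?_⟩
      · intro h3
        have h4 : i = j := congrArg Prod.fst (hgh _ _ h3)
        exact hij (by rw [h4])
      · simp only [Prod.mk_add_mk, hpz, htt]

/-- there are systems of arbitrarily large size -/
theorem exists_sys (N : ℕ) : ∃ a ≥ N, ∃ s ≥ 2, Sys a s := by
  induction N with
  | zero => exact ⟨0, le_rfl, 5, by norm_num, base⟩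
  | succ N ih =>
    obtain ⟨a, ha, s, hs, h⟩ := ih
    exact ⟨a + s, by omega, a + 7, by omega, step hs h⟩

end Pool.Agent.Lib.MP_f8d60a_co.R2
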