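import Mathlib
import Pool.Agent.Lib.MP_f8d60a_co.Master
import Pool.Agent.Lib.MP_f8d60a_co.R2Step

/-! The bound `f 2 ≤ 2601/2048`. -/

open Finset N8b55e67f Filter
open scoped ENNReal Pointwise Topology

namespace Pool.Agent.Lib.MP_f8d60a_co.R2

lemma density_of_sys {a s : ℕ} (h : Sys a s) :
    minDensity (51 * 2^a) 2 ≤ (Nat.card (hammingBall (51 * 2^a) 2) : ℝ≥0∞)
      / ((2^(10+2*a) : ℕ) : ℝ≥0∞) := by
  classical
  obtain ⟨ι, Z, _, _, _, _, p, c, hι, hZ, hc, hcov⟩ := h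
  rw [← hZ]
  have e : Fin (51 * 2^a) ≃ ι := Fintype.equivOfCardEq (by rw [Fintype.card_fin, hι])
  refine minDensity_le_of_map e (Fintype.linearCombination (ZMod 2) p) ?_
  intro z
  by_cases hz : z = 0
  · exact ⟨0, by simp, by simp [hz]⟩
  · obtain ⟨i, j, hij, hp⟩ := hcov z hz
    refine ⟨Pi.single i 1 + Pi.single j 1, ?_, ?_⟩
    · rw [hammingNorm]
      refine le_trans (Finset.card_le_card (t := {i, j}) ?_) Finset.card_le_two
      intro k hk
      simp only [mem_filter, mem_univ, true_and, Pi.add_apply] at hk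
      rw [mem_insert, mem_singleton]
      by_contra hne
      rw [not_or] at hne
      apply hk
      rw [Pi.single_apply, Pi.single_apply, if_neg hne.1, if_neg hne.2, add_zero]
    · rw [map_add, Fintype.linearCombination_apply_single,
        Fintype.linearCombination_apply_single, one_smul, one_smul, hp]

theorem radius_two_bound : f 2 ≤ 2601 / 2048 := by
  have hC : (2601 / 2048 : ℝ≥0∞) = ENNReal.ofReal (2601/2048) := by
    rw [ENNReal.ofReal_div_of_pos (by norm_num)]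
    norm_num
  rw [hC]
  apply ENNReal.le_of_forall_pos_le_add
  intro ε hε _
  rw [f]
  apply Filter.liminf_le_of_frequently_le'
  rw [Filter.frequently_atTop]
  intro n0
  have hεR : (0:ℝ) < ε := by exact_mod_cast hε
  obtain ⟨N, hN1, hN2⟩ : ∃ N : ℕ, n0 ≤ N ∧ 102 / 1024 / ε ≤ (2:ℝ)^N := by
    have h1 : Tendsto (fun t : ℕ => (2:ℝ)^t) atTop atTop :=
      tendsto_pow_atTop_atTop_of_one_lt (by norm_num)
    have h2 := h1.eventually_ge_atTop ((102 / 1024) / (ε:ℝ))
    obtain ⟨t, hta, htb⟩ := (h2.and (eventually_ge_atTop n0)).exists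
    exact ⟨t, htb, hta⟩
  obtain ⟨a, ha, s, _, hsys⟩ := exists_sys N
  have hpa : (1:ℕ) ≤ 2^a := Nat.one_le_two_pow
  have hlt : a < 2^a := Nat.lt_two_pow_self
  refine ⟨51 * 2^a, by omega, ?_⟩
  refine (density_of_sys hsys).trans ?_
  have h2 : (Nat.card (hammingBall (51 * 2^a) 2) : ℝ)
      ≤ ((51*2^a : ℕ):ℝ)^2 / (2:ℕ).factorial + (2:ℕ) * ((51*2^a : ℕ):ℝ)^(2-1) := by
    refine le_trans ?_ (sum_choose_le (n := 51 * 2^a) (r := 2) (by omega) (by norm_num))
    exact_mod_cast card_ball_le _ _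
  have hq : (0:ℝ) < 2^a := by positivity
  have hq2 : (2:ℝ)^N ≤ 2^a := pow_le_pow_right₀ (by norm_num) ha
  have h3 : (Nat.card (hammingBall (51 * 2^a) 2) : ℝ) / (2^(10+2*a)) ≤ 2601/2048 + ε := by
    rw [div_le_iff₀ (by positivity)]
    refine h2.trans ?_
    push_cast
    have e1 : (2:ℝ)^(10+2*a) = 1024 * (2^a)^2 := by
      rw [pow_add, pow_mul']; norm_num
    rw [e1]
    have h4 : 102 / 1024 ≤ ε * (2:ℝ)^a := by
      rw [div_le_iff₀ hεR] at hN2
      nlinarith
    have h5 : ((2:ℕ).factorial : ℝ) = 2 := by norm_num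
    rw [h5]
    norm_num
    nlinarith
  have h4 : (Nat.card (hammingBall (51 * 2^a) 2) : ℝ≥0∞) / ((2^(10+2*a) : ℕ) : ℝ≥0∞)
      = ENNReal.ofReal ((Nat.card (hammingBall (51 * 2^a) 2) : ℝ) / (2^(10+2*a))) := by
    rw [ENNReal.ofReal_div_of_pos (by positivity), ENNReal.ofReal_natCast]
    congr 1
    rw [← ENNReal.ofReal_natCast]
    congr 1
    push_cast; rfl
  rw [h4]
  refine (ENNReal.ofReal_le_ofReal h3).trans (le_of_eq ?_)
  rw [ENNReal.ofReal_add (by norm_num) hεR.le, ENNReal.ofReal_coe_nnreal]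

end Pool.Agent.Lib.MP_f8d60a_co.R2
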